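import Pool.Agent.Helper33.Half.Near

/-!
Closeness of the correlations at nearby dilates, for general forms and for the weights given by prime
tuples.
-/

set_option autoImplicit false

namespace Pool.Agent.Helper81.Ev

open Finset Pool.Agent.N675 Pool.Agent.N781.A Pool.Agent.N781.P Pool.Agent.N781.FV
open Pool.Agent.N675.Q (om S_TRW)
open Pool.Agent.Helper33.Half (lamI lamI_sg lamC lamC_mult lamC_eq lamI_norm sum_cast Sg)

/-- the correlation of the Liouville function along the forms `a i n + b i d` -/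
noncomputable def CG {k : ℕ} (a b : Fin k → ℤ) (x : ℕ) (d : ℤ) : ℝ :=
  ∑ n ∈ Icc (1 : ℤ) x, ∏ i, lamI (a i * n + b i * d)

lemma prod_lamI {k : ℕ} (f : Fin k → ℤ) : (∏ i, lamI (f i)) = 1 ∨ (∏ i, lamI (f i)) = -1 := by
  apply Finset.prod_induction (fun i => lamI (f i)) (fun z => z = 1 ∨ z = -1)
  · rintro b c (rfl | rfl) (rfl | rfl) <;> norm_num
  · left; rfl
  · intro i _
    exact lamI_sg _

lemma CG_le {k : ℕ} (a b : Fin k → ℤ) (x : ℕ) (d : ℤ) : |CG a b x d| ≤ x := by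
  unfold CG
  refine (abs_sum_le_sum_abs _ _).trans ?_
  have : ∀ n ∈ Icc (1 : ℤ) x, |∏ i, lamI (a i * n + b i * d)| ≤ 1 := by
    intro n _
    rcases prod_lamI (fun i => a i * n + b i * d) with h | h <;> rw [h] <;> norm_num
  refine (sum_le_sum this).trans ?_
  rw [sum_const, Int.card_Icc]
  simp

lemma cs_CG {k : ℕ} (a b : Fin k → ℤ) (x : ℕ) (d : ℤ) :
    cs a b (fun _ => lamC) x d = ((CG a b x d : ℝ) : ℂ) := by
  unfold cs CG
  push_cast
  refine sum_congr rfl fun n _ => prod_congr rfl fun i _ => ?_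
  rw [lamC_eq]

/-- the weight of a prime tuple -/
noncomputable def wt {t : ℕ} (α β : Fin t → ℤ) (d : ℤ) : ℝ :=
  ∏ j, ArithmeticFunction.vonMangoldt (α j * d + β j).natAbs

lemma wt_nonneg {t : ℕ} (α β : Fin t → ℤ) (d : ℤ) : 0 ≤ wt α β d :=
  prod_nonneg fun _ _ => ArithmeticFunction.vonMangoldt_nonneg

/-- **transference** -/
theorem transfer {k t : ℕ} (hk : 0 < k) (a b : Fin k → ℤ) (ha : ∀ i, a i ≠ 0) (α β : Fin t → ℤ)
    (hα : ∀ j, α j ≠ 0) (hαβ : ∀ j j', j ≠ j' → α j * β j' ≠ α j' * β j) {ε : ℝ} (hε : 0 < ε) :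
    ∃ (ε' : ℝ) (K : ℕ), 0 < ε' ∧ ∀ D x : ℕ, K ≤ D → D ≤ x → ∀ F : Fin k → ℤ → ℂ,
      (∀ i m, ‖F i m‖ ≤ 1) → avr D (fun d => ‖cc a b F x d‖ ^ 2) ≤ ε' →
      ∑ d ∈ Icc (1 : ℤ) D, wt α β d * ‖cc a b F x d‖ ≤ ε * D := by
  classical
  obtain ⟨w₀, hw₀, hw⟩ := Pool.Agent.N767.QP.trw Pool.Agent.N781.P.tr1' Pool.Agent.N441.PM.mert k t 1 1
    a b α hk ha hα (1 / 2) ε (by norm_num) hε
  obtain ⟨w, hwdef⟩ : ∃ w : ℕ, w = w₀ + ∑ j, ∑ j', (α j' * β j - α j * β j').natAbs + 1 := ⟨_, rfl⟩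
  obtain ⟨ε', K1, hε', hK1⟩ := hw w (by omega)
  refine ⟨ε', K1 + ∑ j, (β j).natAbs + 1, hε', fun D x hD hDx F hF havr => ?_⟩
  have hdet : ∀ j j', j ≠ j' → α j' * β j - α j * β j' ≠ 0 := by
    intro j j' hjj h
    exact hαβ j j' hjj (by linarith)
  have hβ : ∀ j, |β j| ≤ (D : ℤ) ^ 1 := by
    intro j
    have h2 : (β j).natAbs ≤ ∑ j, (β j).natAbs :=
      Finset.single_le_sum (f := fun j => (β j).natAbs) (fun _ _ => Nat.zero_le _)
        (Finset.mem_univ j)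
    rw [pow_one, Int.abs_eq_natAbs]
    exact_mod_cast (by omega : (β j).natAbs ≤ D)
  have h1 := hK1 D x (by omega) (by omega) β hβ hdet (by
    have : ∀ p ∈ pw w D, ¬ ∃ j j', j ≠ j' ∧ (p : ℤ) ∣ α j' * β j - α j * β j' := by
      rintro p hp ⟨j, j', hjj, hdvd⟩
      have hp' : w < p := (Finset.mem_filter.mp hp).2.2
      have h1 : p ≤ (α j' * β j - α j * β j').natAbs := by
        have h2 := Int.natAbs_dvd_natAbs.2 hdvd
        rw [Int.natAbs_natCast] at h2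
        exact Nat.le_of_dvd (Int.natAbs_pos.2 (hdet j j' hjj)) h2
      have h2 : (α j' * β j - α j * β j').natAbs ≤ ∑ j', (α j' * β j - α j * β j').natAbs :=
        Finset.single_le_sum (f := fun j' => (α j' * β j - α j * β j').natAbs)
          (fun _ _ => Nat.zero_le _) (Finset.mem_univ j')
      have h3 : ∑ j', (α j' * β j - α j * β j').natAbs
          ≤ ∑ j, ∑ j', (α j' * β j - α j * β j').natAbs :=
        Finset.single_le_sum (f := fun j => ∑ j', (α j' * β j - α j * β j').natAbs)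
          (fun _ _ => Nat.zero_le _) (Finset.mem_univ j)
      omega
    rw [filter_false_of_mem this, sum_empty]
    positivity) F hF havr
  refine le_trans (sum_le_sum fun d hd => ?_) h1
  rw [mem_Icc] at hd
  apply mul_le_mul_of_nonneg_right _ (norm_nonneg _)
  unfold wt
  apply prod_le_prod
  · intro j _
    exact ArithmeticFunction.vonMangoldt_nonneg
  · intro j _
    unfold om
    have : (0 : ℝ) ≤ Real.log D := Real.log_natCast_nonneg D
    split_ifs <;> linarith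

/-- the functions on two regions -/
noncomputable def FG {k : ℕ} (a b : Fin k → ℤ) (x G T s : ℕ) : Fin (k + 1) → ℤ → ℂ :=
  Fin.cons (fun m => if m ≤ x then 1 else if m ≤ x + G then 0 else -1)
    (fun i m => if m ≤ a i * x + T then ((lamI m : ℝ) : ℂ) else
      ((lamI (m - a i * (x + G) + b i * s) : ℝ) : ℂ))

lemma FG_norm {k : ℕ} (a b : Fin k → ℤ) (x G T s : ℕ) (i : Fin (k + 1)) (m : ℤ) :
    ‖FG a b x G T s i m‖ ≤ 1 := by
  unfold FG
  refine Fin.cases ?_ (fun i => ?_) i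
  · rw [Fin.cons_zero]
    split_ifs <;> simp
  · rw [Fin.cons_succ]
    split_ifs
    · exact (lamI_norm _).le
    · exact (lamI_norm _).le

/-- the difference of two correlations is a correlation -/
lemma cc_FG {k : ℕ} (a b : Fin k → ℤ) (ha : ∀ i, 0 < a i) (B : ℕ) (hB : ∀ i, |b i| ≤ B) (x s : ℕ)
    {D : ℕ} {d : ℤ} (hd0 : 1 ≤ d) (hdD : d ≤ D) :
    cc (Fin.cons 1 a) (Fin.cons 0 b) (FG a b x (2 * (B * D)) (B * D) s) (2 * x + 2 * (B * D)) d =
      (((CG a b x d - CG a b x (d + s)) / ((2 * x + 2 * (B * D) : ℕ) : ℝ) : ℝ) : ℂ) := by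
  unfold cc av
  push_cast
  congr 1
  have hterm : ∀ n : ℤ, ∏ i : Fin (k + 1), FG a b x (2 * (B * D)) (B * D) s i
      ((Fin.cons 1 a : Fin (k + 1) → ℤ) i * n + (Fin.cons 0 b : Fin (k + 1) → ℤ) i * d) =
      (if n ≤ x then (1 : ℂ) else if n ≤ x + 2 * (B * D) then 0 else -1) *
      ∏ i, (if a i * n + b i * d ≤ a i * x + B * D then ((lamI (a i * n + b i * d) : ℝ) : ℂ) else
        ((lamI (a i * n + b i * d - a i * (x + 2 * (B * D)) + b i * s) : ℝ) : ℂ)) := by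
    intro n
    rw [Fin.prod_univ_succ]
    unfold FG
    simp only [Fin.cons_zero, Fin.cons_succ]
    have e1 : 1 * n + 0 * d = n := by ring
    rw [e1]
    push_cast
    rfl
  have hbd : ∀ i, -((B : ℤ) * D) ≤ b i * d ∧ b i * d ≤ B * D := by
    intro i
    have h1 : |b i * d| ≤ B * D := by
      rw [abs_mul, abs_of_nonneg (by omega : (0 : ℤ) ≤ d)]
      exact mul_le_mul (hB i) hdD (by omega) (by positivity)
    exact abs_le.1 h1
  have hsplit : Icc (1 : ℤ) (2 * x + 2 * (B * D)) =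
      (Icc (1 : ℤ) x ∪ Ioc (x : ℤ) (x + 2 * (B * D))) ∪ Ioc ((x : ℤ) + 2 * (B * D)) (2 * x + 2 * (B * D)) := by
    have h0 : (0 : ℤ) ≤ 2 * (B * D) := by positivity
    ext n
    simp only [mem_union, mem_Icc, mem_Ioc]
    omega
  have h0 : (0 : ℤ) ≤ (B : ℤ) * D := by positivity
  have hd1 : Disjoint (Icc (1 : ℤ) x) (Ioc (x : ℤ) (x + 2 * (B * D))) := by
    rw [disjoint_left]
    intro n hn hn'
    rw [mem_Icc] at hn
    rw [mem_Ioc] at hn'
    omega
  have hd2 : Disjoint (Icc (1 : ℤ) x ∪ Ioc (x : ℤ) (x + 2 * (B * D)))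
      (Ioc ((x : ℤ) + 2 * (B * D)) (2 * x + 2 * (B * D))) := by
    rw [disjoint_left]
    intro n hn hn'
    rw [mem_union, mem_Icc, mem_Ioc] at hn
    rw [mem_Ioc] at hn'
    omega
  rw [hsplit, sum_union hd2, sum_union hd1]
  have e1 : ∑ n ∈ Icc (1 : ℤ) x, ∏ i : Fin (k + 1), FG a b x (2 * (B * D)) (B * D) s i
      ((Fin.cons 1 a : Fin (k + 1) → ℤ) i * n + (Fin.cons 0 b : Fin (k + 1) → ℤ) i * d) =
      ((CG a b x d : ℝ) : ℂ) := by
    unfold CG
    push_cast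
    refine sum_congr rfl fun n hn => ?_
    rw [mem_Icc] at hn
    rw [hterm, if_pos hn.2, one_mul]
    refine prod_congr rfl fun i _ => ?_
    rw [if_pos]
    have h2 := hbd i
    have h3 := ha i
    have h4 : a i * n ≤ a i * x := mul_le_mul_of_nonneg_left hn.2 h3.le
    linarith
  have e2 : ∑ n ∈ Ioc (x : ℤ) (x + 2 * (B * D)), ∏ i : Fin (k + 1), FG a b x (2 * (B * D)) (B * D) s i
      ((Fin.cons 1 a : Fin (k + 1) → ℤ) i * n + (Fin.cons 0 b : Fin (k + 1) → ℤ) i * d) = 0 := by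
    refine sum_eq_zero fun n hn => ?_
    rw [mem_Ioc] at hn
    rw [hterm, if_neg (by omega), if_pos hn.2, zero_mul]
  have e3 : ∑ n ∈ Ioc ((x : ℤ) + 2 * (B * D)) (2 * x + 2 * (B * D)),
      ∏ i : Fin (k + 1), FG a b x (2 * (B * D)) (B * D) s i
      ((Fin.cons 1 a : Fin (k + 1) → ℤ) i * n + (Fin.cons 0 b : Fin (k + 1) → ℤ) i * d) =
      - ((CG a b x (d + s) : ℝ) : ℂ) := by
    have h1 : ∑ n ∈ Ioc ((x : ℤ) + 2 * (B * D)) (2 * x + 2 * (B * D)),
        ∏ i : Fin (k + 1), FG a b x (2 * (B * D)) (B * D) s i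
        ((Fin.cons 1 a : Fin (k + 1) → ℤ) i * n + (Fin.cons 0 b : Fin (k + 1) → ℤ) i * d) =
        ∑ n ∈ Icc (1 : ℤ) x,
        ∏ i : Fin (k + 1), FG a b x (2 * (B * D)) (B * D) s i
        ((Fin.cons 1 a : Fin (k + 1) → ℤ) i * (n + (x + 2 * (B * D))) +
          (Fin.cons 0 b : Fin (k + 1) → ℤ) i * d) := by
      refine sum_bij' (fun n _ => n - (x + 2 * (B * D))) (fun n _ => n + (x + 2 * (B * D))) ?_ ?_ ?_ ?_ ?_
      · intro n hn
        rw [mem_Ioc] at hn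
        rw [mem_Icc]
        omega
      · intro n hn
        rw [mem_Icc] at hn
        rw [mem_Ioc]
        omega
      · intro n _
        ring
      · intro n _
        ring
      · intro n _
        rw [sub_add_cancel]
    rw [h1]
    unfold CG
    push_cast
    rw [← sum_neg_distrib]
    refine sum_congr rfl fun n hn => ?_
    rw [mem_Icc] at hn
    rw [hterm, if_neg (by omega), if_neg (by omega), neg_one_mul]
    congr 1
    refine prod_congr rfl fun i _ => ?_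
    have h2 := hbd i
    have h3 := ha i
    have h4 : (1 : ℤ) ≤ a i * n := by nlinarith
    have h5 : (B : ℤ) * D ≤ a i * (B * D) := by nlinarith
    rw [if_neg]
    · congr 2
      ring
    · have e : a i * (n + (x + 2 * (B * D))) = a i * n + a i * x + 2 * (a i * (B * D)) := by ring
      rw [e]
      linarith
  rw [e1, e2, e3]
  ring

/-- **closeness** -/
theorem closeW {k t : ℕ} (hk : 0 < k) (a b : Fin k → ℤ) (ha : ∀ i, 0 < a i) (α β : Fin t → ℤ)
    (hα : ∀ j, α j ≠ 0) (hαβ : ∀ j j', j ≠ j' → α j * β j' ≠ α j' * β j) {ε : ℝ} (hε : 0 < ε) :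
    ∃ (Q : ℕ) (δ : ℝ) (K : ℕ), 0 < Q ∧ 0 < δ ∧ ∀ D x : ℕ, K ≤ D → D ≤ x → ∀ h : ℕ,
      ((Q * h : ℕ) : ℝ) ≤ δ * D →
      ∑ d ∈ Icc (1 : ℤ) D, wt α β d * |CG a b x (d + (Q * h : ℕ)) - CG a b x d| ≤ ε * (D * x) := by
  classical
  obtain ⟨B, hBd⟩ : ∃ B : ℕ, B = ∑ i, (b i).natAbs := ⟨_, rfl⟩
  have hB : ∀ i, |b i| ≤ B := by
    intro i
    rw [Int.abs_eq_natAbs, hBd]
    exact_mod_cast single_le_sum (f := fun i => (b i).natAbs) (fun _ _ => Nat.zero_le _) (mem_univ i)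
  obtain ⟨ε', K1, hε', hT⟩ := transfer (k := k + 1) (Nat.succ_pos k) (Fin.cons 1 a) (Fin.cons 0 b)
    (by
      intro i
      refine Fin.cases ?_ (fun i => ?_) i
      · simp
      · rw [Fin.cons_succ]; exact (ha i).ne') α β hα hαβ (ε := ε / (2 + 2 * B)) (by positivity)
  obtain ⟨Q, δ, K2, hQ, hδ, hS⟩ := Pool.Agent.N781.S.structure_theorem 1 k a b hk
    (fun i => (ha i).ne') ε' hε'
  refine ⟨Q, δ, K1 + K2 + 1, hQ, hδ, ?_⟩
  intro D x hD hDx h hh
  have h1 := (hS D x (by omega) (by omega) (fun _ => lamC) (fun _ => lamC_mult)).2 h hh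
  have hD0 : 0 < D := by omega
  have hx0 : 0 < x := by omega
  have hDr : (0 : ℝ) < D := by exact_mod_cast hD0
  have hxr : (0 : ℝ) < x := by exact_mod_cast hx0
  have hDxr : (D : ℝ) ≤ x := by exact_mod_cast hDx
  obtain ⟨X, hX⟩ : ∃ X, X = 2 * x + 2 * (B * D) := ⟨_, rfl⟩
  have hXr : (0 : ℝ) < X := by exact_mod_cast (by omega : 0 < X)
  have hX2 : 2 * (x : ℝ) ≤ X := by
    rw [hX]
    push_cast
    have : (0 : ℝ) ≤ B * D := by positivity
    linarith
  obtain ⟨Δ, hΔ⟩ : ∃ Δ : ℤ → ℝ, ∀ d, Δ d = |CG a b x (d + (Q * h : ℕ)) - CG a b x d| :=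
    ⟨_, fun _ => rfl⟩
  have hΔ0 : ∀ d, 0 ≤ Δ d := fun d => by rw [hΔ]; exact abs_nonneg _
  have hΔX : ∀ d, Δ d ≤ X := by
    intro d
    rw [hΔ]
    refine (abs_sub _ _).trans ?_
    have := CG_le a b x (d + (Q * h : ℕ))
    have := CG_le a b x d
    linarith
  have hcc : ∀ d ∈ Icc (1 : ℤ) D, ‖cc (Fin.cons 1 a) (Fin.cons 0 b)
      (FG a b x (2 * (B * D)) (B * D) (Q * h)) X d‖ = Δ d / X := by
    intro d hd
    rw [mem_Icc] at hd
    rw [hX, cc_FG a b ha B hB x (Q * h) hd.1 hd.2, Complex.norm_real, Real.norm_eq_abs, abs_div,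
      ← hX, abs_of_pos hXr, abs_sub_comm, hΔ]
  have hsum : ∑ d ∈ Icc (1 : ℤ) D, Δ d ≤ ε' * (D * x) := by
    refine le_trans (le_of_eq ?_) h1
    refine sum_congr rfl fun d _ => ?_
    rw [cs_CG, cs_CG, ← Complex.ofReal_sub, Complex.norm_real, Real.norm_eq_abs, hΔ]
  have havr : avr D (fun d => ‖cc (Fin.cons 1 a) (Fin.cons 0 b)
      (FG a b x (2 * (B * D)) (B * D) (Q * h)) X d‖ ^ 2) ≤ ε' := by
    unfold avr
    rw [div_le_iff₀ hDr]
    have h2 : ∀ d ∈ Icc (1 : ℤ) D, ‖cc (Fin.cons 1 a) (Fin.cons 0 b)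
      (FG a b x (2 * (B * D)) (B * D) (Q * h)) X d‖ ^ 2 ≤ Δ d / x := by
      intro d hd
      rw [hcc d hd]
      have h3 : Δ d / X ≤ 1 := (div_le_one hXr).2 (hΔX d)
      have h4 : 0 ≤ Δ d / X := div_nonneg (hΔ0 d) hXr.le
      have h5 : Δ d / X ≤ Δ d / x := div_le_div_of_nonneg_left (hΔ0 d) hxr (by linarith)
      nlinarith
    refine (sum_le_sum h2).trans ?_
    rw [← sum_div, div_le_iff₀ hxr]
    linarith
  have hmain := hT D X (by omega) (by omega) (FG a b x (2 * (B * D)) (B * D) (Q * h))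
    (FG_norm a b x _ _ _) havr
  have hlow : ∑ d ∈ Icc (1 : ℤ) D, wt α β d * (Δ d / X) =
      ∑ d ∈ Icc (1 : ℤ) D, wt α β d * ‖cc (Fin.cons 1 a) (Fin.cons 0 b)
      (FG a b x (2 * (B * D)) (B * D) (Q * h)) X d‖ :=
    sum_congr rfl fun d hd => by rw [hcc d hd]
  rw [← hlow] at hmain
  have h10 : ∑ d ∈ Icc (1 : ℤ) D, wt α β d * (Δ d / X) =
      (∑ d ∈ Icc (1 : ℤ) D, wt α β d * Δ d) / X := by
    rw [sum_div]
    exact sum_congr rfl fun p _ => by rw [mul_div_assoc]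
  rw [h10, div_le_iff₀ hXr] at hmain
  have h11 : (X : ℝ) ≤ (2 + 2 * B) * x := by
    rw [hX]
    push_cast
    have h12 : (B : ℝ) * D ≤ B * x := by gcongr
    linarith
  calc ∑ d ∈ Icc (1 : ℤ) D, wt α β d * |CG a b x (d + (Q * h : ℕ)) - CG a b x d|
      = ∑ d ∈ Icc (1 : ℤ) D, wt α β d * Δ d := sum_congr rfl fun p _ => by rw [hΔ]
    _ ≤ ε / (2 + 2 * B) * D * X := hmain
    _ ≤ ε / (2 + 2 * B) * D * ((2 + 2 * B) * x) := by gcongr
    _ = ε * (D * x) := by field_simp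

end Pool.Agent.Helper81.Ev
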