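import Pool.Agent.Helper81.Ev.Fmean

/-!
Cubes of relations for finite averages: `2 ^ (k - 1) - 1` relations for `k` forms.
-/

set_option autoImplicit false

open Finset

namespace Pool.Agent.Helper81.Ev

open Pool.Agent.Helper81.Gap

/-- iterated differences -/
def GG (z : ℕ → ℤ) (f : ℤ → ℤ) : ℕ → ℤ → ℤ
  | 0, y => f y
  | b + 1, y => GG z f b y * GG z f b (y + z b)

/-- iterated differences of a function of two variables -/
def CW (p : ℕ → ℤ × ℤ) (W : ℤ → ℤ → ℤ) : ℕ → ℤ → ℤ → ℤ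
  | 0, t, c => W t c
  | b + 1, t, c => CW p W b t c * CW p W b (t + (p b).1) (c + (p b).2)

lemma GG_pm (z : ℕ → ℤ) (f : ℤ → ℤ) (hf : ∀ y, f y = 1 ∨ f y = -1) (m : ℕ) (y : ℤ) :
    GG z f m y = 1 ∨ GG z f m y = -1 := by
  induction m generalizing y with
  | zero => exact hf y
  | succ m ih =>
    unfold GG
    rcases ih y with h | h <;> rcases ih (y + z m) with h' | h' <;> rw [h, h'] <;> norm_num

lemma CW_pm (p : ℕ → ℤ × ℤ) (W : ℤ → ℤ → ℤ) (hW : ∀ t c, W t c = 1 ∨ W t c = -1) (m : ℕ) (t c : ℤ) :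
    CW p W m t c = 1 ∨ CW p W m t c = -1 := by
  induction m generalizing t c with
  | zero => exact hW t c
  | succ m ih =>
    unfold CW
    rcases ih t c with h | h <;> rcases ih (t + (p m).1) (c + (p m).2) with h' | h' <;> rw [h, h'] <;>
      norm_num

lemma pm_sq {a : ℤ} (h : a = 1 ∨ a = -1) : a * a = 1 := by
  rcases h with rfl | rfl <;> norm_num

lemma GG_one (z : ℕ → ℤ) (f : ℤ → ℤ) (hf : ∀ y, f y = 1 ∨ f y = -1) (l : ℕ) (hl : z l = 0) (m : ℕ)
    (hm : l < m) (y : ℤ) : GG z f m y = 1 := by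
  induction m generalizing y with
  | zero => omega
  | succ m ih =>
    unfold GG
    rcases Nat.lt_succ_iff_lt_or_eq.1 hm with h | h
    · rw [ih h, ih h, one_mul]
    · subst h
      rw [hl, add_zero]
      exact pm_sq (GG_pm z f hf l y)

lemma GG_two (z : ℕ → ℤ) (f : ℤ → ℤ) (hf : ∀ y, f y = 1 ∨ f y = -1) (M : ℤ) (m : ℕ)
    (hz : ∀ b ≤ m, z b = 2 ^ (b - 1) * M) (y : ℤ) : GG z f (m + 1) y = f y * f (y + 2 ^ m * M) := by
  induction m generalizing y with
  | zero =>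
    show f y * f (y + z 0) = _
    rw [hz 0 le_rfl]
  | succ m ih =>
    unfold GG
    rw [ih (fun b hb => hz b (by omega)), ih (fun b hb => hz b (by omega)), hz (m + 1) le_rfl,
      Nat.add_sub_cancel]
    have e : y + 2 ^ m * M + 2 ^ m * M = y + 2 ^ (m + 1) * M := by ring
    rw [e]
    calc f y * f (y + 2 ^ m * M) * (f (y + 2 ^ m * M) * f (y + 2 ^ (m + 1) * M)) =
          (f (y + 2 ^ m * M) * f (y + 2 ^ m * M)) * (f y * f (y + 2 ^ (m + 1) * M)) := by ring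
      _ = _ := by rw [pm_sq (hf _), one_mul]

lemma CW_prod {k : ℕ} (p : ℕ → ℤ × ℤ) (a b : Fin k → ℤ) (g : Fin k → ℤ → ℤ) (m : ℕ) (t c : ℤ) :
    CW p (fun t c => ∏ i, g i (a i * t + b i * c)) m t c =
      ∏ i, GG (fun l => a i * (p l).1 + b i * (p l).2) (g i) m (a i * t + b i * c) := by
  induction m generalizing t c with
  | zero => rfl
  | succ m ih =>
    unfold CW
    rw [ih, ih, ← prod_mul_distrib]
    refine prod_congr rfl fun i _ => ?_
    have e : a i * (t + (p m).1) + b i * (c + (p m).2) =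
        (a i * t + b i * c) + (a i * (p m).1 + b i * (p m).2) := by ring
    rw [e]
    rfl

section

variable {ι : Type} (S : Finset ι)

open Classical in
/-- the relation `X = τ` fails with proportion at most `q` -/
def FQ (X : ι → ℤ) (τ : ℤ) (q : ℝ) : Prop := UF S (fun n => if X n ≠ τ then 1 else 0) q

variable {S}

lemma FQ.mul {X X' : ι → ℤ} {τ τ' : ℤ} {q q' : ℝ} (h : FQ S X τ q) (h' : FQ S X' τ' q') :
    FQ S (fun n => X n * X' n) (τ * τ') (q + q') := by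
  classical
  unfold FQ at *
  refine (h.add h').of_le fun n => ?_
  by_cases h1 : X n = τ
  · by_cases h2 : X' n = τ'
    · rw [if_neg (by beta_reduce; rw [h1, h2]; simp), if_neg (by simp [h1]), if_neg (by simp [h2])]
      norm_num
    · rw [if_pos (show X' n ≠ τ' from h2)]
      split_ifs <;> norm_num
  · rw [if_pos (show X n ≠ τ from h1)]
    split_ifs <;> norm_num

lemma FQ.congr {X X' : ι → ℤ} {τ : ℤ} {q : ℝ} (h : FQ S X τ q) (he : ∀ n, X' n = X n) :
    FQ S X' τ q := by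
  have : X' = X := funext he
  rw [this]
  exact h

variable (p : ℕ → ℤ × ℤ) (W : ι → ℤ → ℤ → ℤ) (σ : ℤ) (V : ℤ) (q : ℝ)

lemma CW_FQ (h0 : ∀ t c : ℤ, |t| ≤ V → |c| ≤ V → FQ S (fun n => W n t c) σ q) (m : ℕ) :
    ∀ t c : ℤ, |t| + ∑ l ∈ range m, |(p l).1| ≤ V → |c| + ∑ l ∈ range m, |(p l).2| ≤ V →
      FQ S (fun n => CW p (W n) m t c) (σ ^ 2 ^ m) (2 ^ m * q) := by
  induction m with
  | zero =>
    intro t c ht hc
    simp only [range_zero, sum_empty, add_zero] at ht hc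
    simpa [CW] using h0 t c ht hc
  | succ m ih =>
    intro t c ht hc
    rw [sum_range_succ] at ht hc
    have h1 := ih t c (by linarith [abs_nonneg (p m).1]) (by linarith [abs_nonneg (p m).2])
    have h2 := ih (t + (p m).1) (c + (p m).2)
      (by linarith [abs_add_le t (p m).1]) (by linarith [abs_add_le c (p m).2])
    have h3 := h1.mul h2
    have e1 : σ ^ 2 ^ m * σ ^ 2 ^ m = σ ^ 2 ^ (m + 1) := by rw [← pow_add]; congr 1; ring
    have e2 : 2 ^ m * q + 2 ^ m * q = 2 ^ (m + 1) * q := by ring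
    rw [e1, e2] at h3
    exact h3

lemma E_FQ (hW : ∀ n t c, W n t c = 1 ∨ W n t c = -1)
    (h0 : ∀ t c : ℤ, |t| ≤ V → |c| ≤ V → FQ S (fun n => W n t c) σ q) (m : ℕ) :
    ∀ t c : ℤ, |t| + ∑ l ∈ range m, |(p l).1| ≤ V → |c| + ∑ l ∈ range m, |(p l).2| ≤ V →
      FQ S (fun n => W n t c * CW p (W n) m t c) (σ ^ (2 ^ m - 1)) ((2 ^ m - 1) * q) := by
  induction m with
  | zero =>
    intro t c _ _
    have e1 : ∀ n, W n t c * CW p (W n) 0 t c = σ ^ (2 ^ 0 - 1) := by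
      intro n
      unfold CW
      rw [pm_sq (hW n t c)]
      simp
    have e2 : ((2 : ℝ) ^ 0 - 1) * q = 0 := by norm_num
    rw [e2]
    refine (UF.const (S := S) 0).of_le fun n => ?_
    rw [if_neg (not_not.2 (e1 n))]
  | succ m ih =>
    intro t c ht hc
    rw [sum_range_succ] at ht hc
    have h1 := ih t c (by linarith [abs_nonneg (p m).1]) (by linarith [abs_nonneg (p m).2])
    have h2 := CW_FQ p W σ V q h0 m (t + (p m).1) (c + (p m).2)
      (by linarith [abs_add_le t (p m).1]) (by linarith [abs_add_le c (p m).2])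
    have h3 := h1.mul h2
    have e0 : 2 ^ m - 1 + 2 ^ m = 2 ^ (m + 1) - 1 := by
      have : 1 ≤ 2 ^ m := Nat.one_le_two_pow
      rw [pow_succ]
      omega
    have e1 : σ ^ (2 ^ m - 1) * σ ^ 2 ^ m = σ ^ (2 ^ (m + 1) - 1) := by rw [← pow_add, e0]
    have e2 : ((2 : ℝ) ^ m - 1) * q + 2 ^ m * q = (2 ^ (m + 1) - 1) * q := by ring
    rw [e1, e2] at h3
    refine h3.congr fun n => ?_
    show W n t c * (CW p (W n) m t c * CW p (W n) m (t + (p m).1) (c + (p m).2)) = _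
    ring

end

/-- **the cube inequality for finite averages** -/
theorem cube_fin (m : ℕ) (a b : Fin (m + 2) → ℤ) (hab : ∀ i j, i ≠ j → a i * b j ≠ a j * b i) (ε : ℝ)
    (hε : 0 < ε) : ∃ (V : ℕ) (η : ℝ), 1 ≤ V ∧ 0 < η ∧ ∀ (ι : Type) (S : Finset ι)
      (f : Fin (m + 2) → ℤ → ι → ℤ) (σ : ℤ) (q : ℝ), S.Nonempty → (∀ i y n, f i y n = 1 ∨ f i y n = -1) →
      (σ = 1 ∨ σ = -1) →
      (∀ t c : ℤ, |t| ≤ V → |c| ≤ V → FQ S (fun n => ∏ i, f i (a i * t + b i * c) n) σ q) →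
      (∀ y y' : ℤ, |y| ≤ V → |y'| ≤ V → y ≠ y' → UF S (fun n => ((f 0 y n * f 0 y' n : ℤ) : ℝ)) η) →
      1 - ε ≤ 2 * (2 ^ (m + 1) - 1) * q := by
  classical
  -- the kernel vectors
  obtain ⟨Δ, hΔ⟩ : ∃ Δ : Fin (m + 1) → ℤ, ∀ l, Δ l = a 0 * b l.succ - b 0 * a l.succ := ⟨_, fun _ => rfl⟩
  have hΔ0 : ∀ l, Δ l ≠ 0 := by
    intro l h
    rw [hΔ] at h
    exact hab 0 l.succ (Fin.succ_ne_zero l).symm (by linarith)
  obtain ⟨M, hM⟩ : ∃ M : ℤ, M = ∏ l, Δ l := ⟨_, rfl⟩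
  have hM0 : M ≠ 0 := by
    rw [hM]
    exact prod_ne_zero_iff.2 fun l _ => hΔ0 l
  obtain ⟨r, hr⟩ : ∃ r : Fin (m + 1) → ℤ, ∀ l, r l = 2 ^ ((l : ℕ) - 1) * ∏ l' ∈ univ.erase l, Δ l' :=
    ⟨_, fun _ => rfl⟩
  have hrΔ : ∀ l, r l * Δ l = 2 ^ ((l : ℕ) - 1) * M := by
    intro l
    rw [hr, hM, ← mul_prod_erase univ Δ (mem_univ l)]
    ring
  obtain ⟨p, hp⟩ : ∃ p : ℤ → ℕ → ℤ × ℤ, ∀ j l, p j l = if h : l < m + 1 then
      (j * (r ⟨l, h⟩ * b (Fin.succ ⟨l, h⟩)), -(j * (r ⟨l, h⟩ * a (Fin.succ ⟨l, h⟩)))) else (0, 0) :=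
    ⟨fun j l => if h : l < m + 1 then
      (j * (r ⟨l, h⟩ * b (Fin.succ ⟨l, h⟩)), -(j * (r ⟨l, h⟩ * a (Fin.succ ⟨l, h⟩)))) else (0, 0),
      fun _ _ => rfl⟩
  obtain ⟨P, hP⟩ : ∃ P : ℕ, P = ∑ l ∈ range (m + 1), ((p 1 l).1.natAbs + (p 1 l).2.natAbs) := ⟨_, rfl⟩
  obtain ⟨R, hR⟩ : ∃ R : ℤ, R = 2 ^ m * M := ⟨_, rfl⟩
  have hR0 : R ≠ 0 := by
    rw [hR]
    positivity
  obtain ⟨t, ht⟩ := exists_nat_gt (4 / ε)
  have ht0 : (0 : ℝ) < t := lt_trans (by positivity) ht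
  have ht1 : 1 ≤ t := by
    by_contra h
    have : t = 0 := by omega
    rw [this] at ht0
    norm_num at ht0
  have ht2 : (1 : ℝ) / t + t * (1 / (t : ℝ) ^ 2) / 2 ≤ ε := by
    rw [div_lt_iff₀ hε] at ht
    have e : (1 : ℝ) / t + t * (1 / (t : ℝ) ^ 2) / 2 = (3 / 2) / t := by
      field_simp
      norm_num
    rw [e, div_le_iff₀ ht0]
    linarith
  refine ⟨t ^ 2 * P + t ^ 2 * R.natAbs + 1, 1 / (t : ℝ) ^ 2, by omega, by positivity, ?_⟩
  intro ι S f σ q hS hf hσ hrel h2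
  obtain ⟨V, hV⟩ : ∃ V : ℕ, V = t ^ 2 * P + t ^ 2 * R.natAbs + 1 := ⟨_, rfl⟩
  rw [← hV] at hrel h2
  obtain ⟨W, hW⟩ : ∃ W : ι → ℤ → ℤ → ℤ, ∀ n t c, W n t c = ∏ i, f i (a i * t + b i * c) n :=
    ⟨_, fun _ _ _ => rfl⟩
  have hWpm : ∀ n t c, W n t c = 1 ∨ W n t c = -1 := by
    intro n t c
    rw [hW]
    exact prod_pm univ _ fun i => hf i _ n
  have hpj : ∀ (j : ℤ) (l : ℕ), (p j l).1 = j * (p 1 l).1 ∧ (p j l).2 = j * (p 1 l).2 := by
    intro j l
    rw [hp, hp]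
    split_ifs
    · constructor
      · simp
      · simp only
        ring
    · simp
  -- the relations
  have hmain : ∀ j ∈ range (t ^ 2), FQ S (fun n => f 0 (j * R) n * (f 0 0 n * W n 0 0))
      (σ ^ (2 ^ (m + 1) - 1)) ((2 ^ (m + 1) - 1) * q) := by
    intro j hj
    rw [mem_range] at hj
    have hb1 : ∑ l ∈ range (m + 1), |(p j l).1| ≤ V := by
      have h3 : ∑ l ∈ range (m + 1), |(p j l).1| ≤ j * P := by
        rw [hP]
        push_cast
        rw [mul_sum]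
        refine sum_le_sum fun l _ => ?_
        rw [(hpj j l).1, abs_mul, Nat.abs_cast]
        refine mul_le_mul_of_nonneg_left ?_ (by positivity)
        have := abs_nonneg (p 1 l).2
        linarith
      have h4 : ((j * P : ℕ) : ℤ) ≤ V := by
        have : j * P ≤ t ^ 2 * P := Nat.mul_le_mul_right _ hj.le
        rw [hV]
        exact_mod_cast (by omega : j * P ≤ t ^ 2 * P + t ^ 2 * R.natAbs + 1)
      push_cast at h4
      linarith
    have hb2 : ∑ l ∈ range (m + 1), |(p j l).2| ≤ V := by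
      have h3 : ∑ l ∈ range (m + 1), |(p j l).2| ≤ j * P := by
        rw [hP]
        push_cast
        rw [mul_sum]
        refine sum_le_sum fun l _ => ?_
        rw [(hpj j l).2, abs_mul, Nat.abs_cast]
        refine mul_le_mul_of_nonneg_left ?_ (by positivity)
        have := abs_nonneg (p 1 l).1
        linarith
      have h4 : ((j * P : ℕ) : ℤ) ≤ V := by
        have : j * P ≤ t ^ 2 * P := Nat.mul_le_mul_right _ hj.le
        rw [hV]
        exact_mod_cast (by omega : j * P ≤ t ^ 2 * P + t ^ 2 * R.natAbs + 1)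
      push_cast at h4
      linarith
    have h3 := E_FQ (S := S) (p j) W σ V q hWpm (fun t c ht hc => by
      refine (hrel t c ht hc).congr fun n => ?_
      rw [hW]) (m + 1) 0 0 (by rw [abs_zero, zero_add]; exact hb1) (by rw [abs_zero, zero_add]; exact hb2)
    refine h3.congr fun n => ?_
    have e1 : W n = fun t c => ∏ i, (fun i y => f i y n) i (a i * t + b i * c) := by
      funext t c
      rw [hW]
    have e2 : CW (p j) (W n) (m + 1) 0 0 = f 0 0 n * f 0 (j * R) n := by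
      rw [e1, CW_prod (p j) a b (fun i y => f i y n) (m + 1) 0 0, Fin.prod_univ_succ]
      have e3 : ∏ i : Fin (m + 1), GG (fun l => a i.succ * (p j l).1 + b i.succ * (p j l).2)
          ((fun i y => f i y n) i.succ) (m + 1) (a i.succ * 0 + b i.succ * 0) = 1 := by
        refine prod_eq_one fun i _ => ?_
        refine GG_one _ _ (fun y => hf _ _ _) i ?_ _ i.2 _
        rw [hp, dif_pos i.2]
        simp only [Fin.eta]
        ring
      rw [e3, mul_one, GG_two _ _ (fun y => hf _ _ _) (j * M) m]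
      · rw [mul_zero, mul_zero, add_zero, zero_add, hR]
        congr 2
        ring
      · intro l hl
        rw [hp, dif_pos (by omega)]
        simp only
        have h4 := hrΔ ⟨l, by omega⟩
        rw [hΔ] at h4
        simp only at h4
        linear_combination (j : ℤ) * h4
    rw [e2]
    ring
  -- the average
  obtain ⟨J, hJ⟩ : ∃ J : ℕ, J = t ^ 2 := ⟨_, rfl⟩
  have hJ0 : (0 : ℝ) < J := by rw [hJ]; positivity
  rw [← hJ] at hmain
  have hsum := (UF.sum (range J) (fun j hj => hmain j hj)).div J hJ0.le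
  rw [card_range] at hsum
  have e5 : (J : ℝ) * ((2 ^ (m + 1) - 1) * q) / J = (2 ^ (m + 1) - 1) * q := by
    field_simp
  rw [e5] at hsum
  have hAA := AA_UF (k := 1) (S := S) (fun _ => 0) 0 (fun _ y n => f 0 y n) V 0 (1 / (t : ℝ) ^ 2)
    (fun _ y n => hf 0 y n) (by positivity) (fun _ y y' _ hy hy' hne => h2 y y' hy hy' hne)
    (fun _ => by simp) R hR0 t ht1 (by
      have : 0 ≤ t ^ 2 * P := Nat.zero_le _
      omega)
  have hτ : σ ^ (2 ^ (m + 1) - 1) = 1 ∨ σ ^ (2 ^ (m + 1) - 1) = -1 := by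
    rcases hσ with rfl | rfl
    · left; simp
    · exact neg_one_pow_eq_or ℤ _
  have hall := (hsum.cmul 2 (by norm_num)).add hAA
  have h3 : UF S (fun _ => (1 : ℝ)) (2 * ((2 ^ (m + 1) - 1) * q) + (1 / t + t * (1 / (t : ℝ) ^ 2) / 2)) := by
    refine hall.of_le fun n => ?_
    unfold AA
    rw [← hJ]
    obtain ⟨A, hA⟩ : ∃ A : ℝ, A = (∑ j ∈ range J, (f 0 (j * R) n : ℝ)) / J := ⟨_, rfl⟩
    rw [← hA]
    -- the sign
    obtain ⟨ξ, hξ, hξe⟩ : ∃ ξ : ℤ, (ξ = 1 ∨ ξ = -1) ∧ ξ = f 0 0 n * W n 0 0 * σ ^ (2 ^ (m + 1) - 1) := by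
      refine ⟨_, ?_, rfl⟩
      rcases hf 0 0 n with h | h <;> rcases hWpm n 0 0 with h' | h' <;> rcases hτ with h'' | h'' <;>
        rw [h, h', h''] <;> norm_num
    have h4 : ∀ j ∈ range J, (if f 0 (j * R) n * (f 0 0 n * W n 0 0) ≠ σ ^ (2 ^ (m + 1) - 1) then (1 : ℝ)
        else 0) = (1 - ξ * f 0 (j * R) n) / 2 := by
      intro j _
      rw [hξe]
      rcases hf 0 (j * R) n with h | h <;> rcases hf 0 0 n with h' | h' <;>
        rcases hWpm n 0 0 with h'' | h'' <;> rcases hτ with h''' | h''' <;>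
        rw [h, h', h'', h'''] <;> norm_num
    rw [sum_congr rfl h4, ← sum_div, sum_sub_distrib, ← mul_sum, sum_const, card_range, nsmul_eq_mul,
      mul_one]
    have h5 : 2 * (((J : ℝ) - ξ * ∑ j ∈ range J, (f 0 (j * R) n : ℝ)) / 2 / J) = 1 - ξ * A := by
      rw [hA]
      field_simp
    rw [h5]
    have h6 : (ξ : ℝ) * A ≤ |A| := by
      rcases hξ with rfl | rfl
      · push_cast
        rw [one_mul]
        exact le_abs_self A
      · push_cast
        rw [neg_one_mul]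
        exact neg_le_abs A
    linarith
  unfold UF at h3
  rw [sum_const, nsmul_eq_mul, mul_one] at h3
  have hc : (0 : ℝ) < S.card := by exact_mod_cast hS.card_pos
  have h4 : 1 ≤ 2 * ((2 ^ (m + 1) - 1) * q) + (1 / t + t * (1 / (t : ℝ) ^ 2) / 2) := by
    by_contra hcon
    push Not at hcon
    nlinarith
  linarith

end Pool.Agent.Helper81.Ev
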