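import Pool.Agent.Helper81.Ev.Cube
import Pool.Agent.Helper81.Gap.Shift

/-!
Cubes of relations for shift invariant means on periodic sets.
-/

set_option autoImplicit false

open Finset

namespace Pool.Agent.Helper81.Ev

open Pool.Agent.Helper81.Gap
open Pool.Agent.TH112.BL (Bd)
open Pool.Agent.H376R2.MR (lam)
open Pool.Agent.Y958.TC (NM ind Bd_ind ind_nonneg m_shift Av)
open Pool.Agent.Y958.U

lemma Bd_mul_ind {G : ℕ → ℝ} (h : Bd G) (V : ℕ → Prop) : Bd (fun n => ind V n * G n) := by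
  obtain ⟨C, hC⟩ := h
  refine ⟨C, fun n => ?_⟩
  have h0 := (abs_nonneg _).trans (hC n)
  unfold ind
  beta_reduce
  split_ifs
  · rw [one_mul]; exact hC n
  · rw [zero_mul, abs_zero]; exact h0

section

variable {μ : NM} {V : ℕ → Prop}

/-- the mean over `V` is at most `C` times the mass of `V` -/
def UV (μ : NM) (V : ℕ → Prop) (G : ℕ → ℝ) (C : ℝ) : Prop :=
  Bd G ∧ μ.m (fun n => ind V n * G n) ≤ C * μ.m (ind V)

lemma UV.cmul {G : ℕ → ℝ} {C : ℝ} (h : UV μ V G C) (c : ℝ) (hc : 0 ≤ c) :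
    UV μ V (fun n => c * G n) (c * C) := by
  refine ⟨h.1.cmul c, ?_⟩
  have e : (fun n => ind V n * (c * G n)) = fun n => c * (ind V n * G n) := by
    funext n; ring
  rw [e, μ.smul _ _ (Bd_mul_ind h.1 V), mul_assoc]
  exact mul_le_mul_of_nonneg_left h.2 hc

lemma UV.div {G : ℕ → ℝ} {C : ℝ} (h : UV μ V G C) (c : ℝ) (hc : 0 ≤ c) :
    UV μ V (fun n => G n / c) (C / c) := by
  have := h.cmul c⁻¹ (inv_nonneg.2 hc)
  simpa only [div_eq_inv_mul] using this

lemma UV.add {G G' : ℕ → ℝ} {C C' : ℝ} (h : UV μ V G C) (h' : UV μ V G' C') :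
    UV μ V (fun n => G n + G' n) (C + C') := by
  refine ⟨h.1.add h'.1, ?_⟩
  have e : (fun n => ind V n * (G n + G' n)) = fun n => ind V n * G n + ind V n * G' n := by
    funext n; ring
  rw [e, μ.add _ _ (Bd_mul_ind h.1 V) (Bd_mul_ind h'.1 V), add_mul]
  exact add_le_add h.2 h'.2

lemma UV.sum {κ : Type} (s : Finset κ) {G : κ → ℕ → ℝ} {C : ℝ} (h : ∀ i ∈ s, UV μ V (G i) C) :
    UV μ V (fun n => ∑ i ∈ s, G i n) (s.card * C) := by
  refine ⟨Pool.Agent.TH112.BL.Bd.sum s fun i hi => (h i hi).1, ?_⟩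
  have e : (fun n => ind V n * ∑ i ∈ s, G i n) = fun n => ∑ i ∈ s, ind V n * G i n := by
    funext n; rw [mul_sum]
  rw [e, μ.sum s fun i hi => Bd_mul_ind (h i hi).1 V]
  refine (sum_le_sum fun i hi => (h i hi).2).trans (le_of_eq ?_)
  rw [sum_const, nsmul_eq_mul, mul_assoc]

lemma UV.of_le {G G' : ℕ → ℝ} {C : ℝ} (h : UV μ V G C) (hG : Bd G') (hle : ∀ n, G' n ≤ G n) :
    UV μ V G' C :=
  ⟨hG, (μ.mono (Bd_mul_ind hG V) (Bd_mul_ind h.1 V) fun n =>
    mul_le_mul_of_nonneg_left (hle n) (ind_nonneg V n)).trans h.2⟩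

lemma UV.const (c : ℝ) : UV μ V (fun _ => c) c := by
  refine ⟨Pool.Agent.TH112.BL.Bd.const c, ?_⟩
  have e : (fun n => ind V n * c) = fun n => c * ind V n := by
    funext n; ring
  rw [e, μ.smul _ _ (Bd_ind _)]

open Classical in
/-- the relation `X = τ` fails with proportion at most `q` -/
def FM (μ : NM) (V : ℕ → Prop) (X : ℕ → ℤ) (τ : ℤ) (q : ℝ) : Prop :=
  UV μ V (fun n => if X n ≠ τ then 1 else 0) q

lemma Bd_ite (P : ℕ → Prop) [DecidablePred P] : Bd (fun n => if P n then (1 : ℝ) else 0) :=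
  ⟨1, fun n => by beta_reduce; split_ifs <;> norm_num⟩

lemma FM.mul {X X' : ℕ → ℤ} {τ τ' : ℤ} {q q' : ℝ} (h : FM μ V X τ q) (h' : FM μ V X' τ' q') :
    FM μ V (fun n => X n * X' n) (τ * τ') (q + q') := by
  classical
  unfold FM at *
  refine (h.add h').of_le (Bd_ite _) fun n => ?_
  by_cases h1 : X n = τ
  · by_cases h2 : X' n = τ'
    · rw [if_neg (by beta_reduce; rw [h1, h2]; simp), if_neg (by simp [h1]), if_neg (by simp [h2])]
      norm_num
    · rw [if_pos (show X' n ≠ τ' from h2)]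
      split_ifs <;> norm_num
  · rw [if_pos (show X n ≠ τ from h1)]
    split_ifs <;> norm_num

lemma FM.congr {X X' : ℕ → ℤ} {τ : ℤ} {q : ℝ} (h : FM μ V X τ q) (he : ∀ n, X' n = X n) :
    FM μ V X' τ q := by
  have : X' = X := funext he
  rw [this]
  exact h

variable (p : ℕ → ℤ × ℤ) (W : ℕ → ℤ → ℤ → ℤ) (σ : ℤ) (B : ℤ) (q : ℝ)

lemma CW_FM (h0 : ∀ t c : ℤ, |t| ≤ B → |c| ≤ B → FM μ V (fun n => W n t c) σ q) (m : ℕ) :
    ∀ t c : ℤ, |t| + ∑ l ∈ range m, |(p l).1| ≤ B → |c| + ∑ l ∈ range m, |(p l).2| ≤ B →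
      FM μ V (fun n => CW p (W n) m t c) (σ ^ 2 ^ m) (2 ^ m * q) := by
  induction m with
  | zero =>
    intro t c ht hc
    simp only [range_zero, sum_empty, add_zero] at ht hc
    simpa [CW] using h0 t c ht hc
  | succ m ih =>
    intro t c ht hc
    rw [sum_range_succ] at ht hc
    have h1 := ih t c (by linarith [abs_nonneg (p m).1]) (by linarith [abs_nonneg (p m).2])
    have h2 := ih (t + (p m).1) (c + (p m).2)
      (by linarith [abs_add_le t (p m).1]) (by linarith [abs_add_le c (p m).2])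
    have h3 := h1.mul h2
    have e1 : σ ^ 2 ^ m * σ ^ 2 ^ m = σ ^ 2 ^ (m + 1) := by rw [← pow_add]; congr 1; ring
    have e2 : 2 ^ m * q + 2 ^ m * q = 2 ^ (m + 1) * q := by ring
    rw [e1, e2] at h3
    exact h3

lemma E_FM (hW : ∀ n t c, W n t c = 1 ∨ W n t c = -1)
    (h0 : ∀ t c : ℤ, |t| ≤ B → |c| ≤ B → FM μ V (fun n => W n t c) σ q) (m : ℕ) :
    ∀ t c : ℤ, |t| + ∑ l ∈ range m, |(p l).1| ≤ B → |c| + ∑ l ∈ range m, |(p l).2| ≤ B →
      FM μ V (fun n => W n t c * CW p (W n) m t c) (σ ^ (2 ^ m - 1)) ((2 ^ m - 1) * q) := by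
  induction m with
  | zero =>
    intro t c _ _
    have e1 : ∀ n, W n t c * CW p (W n) 0 t c = σ ^ (2 ^ 0 - 1) := by
      intro n
      unfold CW
      rw [pm_sq (hW n t c)]
      simp
    have e2 : ((2 : ℝ) ^ 0 - 1) * q = 0 := by norm_num
    rw [e2]
    refine (UV.const (μ := μ) (V := V) 0).of_le (Bd_ite _) fun n => ?_
    rw [if_neg (not_not.2 (e1 n))]
  | succ m ih =>
    intro t c ht hc
    rw [sum_range_succ] at ht hc
    have h1 := ih t c (by linarith [abs_nonneg (p m).1]) (by linarith [abs_nonneg (p m).2])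
    have h2 := CW_FM p W σ B q h0 m (t + (p m).1) (c + (p m).2)
      (by linarith [abs_add_le t (p m).1]) (by linarith [abs_add_le c (p m).2])
    have h3 := h1.mul h2
    have e0 : 2 ^ m - 1 + 2 ^ m = 2 ^ (m + 1) - 1 := by
      have : 1 ≤ 2 ^ m := Nat.one_le_two_pow
      rw [pow_succ]
      omega
    have e1 : σ ^ (2 ^ m - 1) * σ ^ 2 ^ m = σ ^ (2 ^ (m + 1) - 1) := by rw [← pow_add, e0]
    have e2 : ((2 : ℝ) ^ m - 1) * q + 2 ^ m * q = (2 ^ (m + 1) - 1) * q := by ring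
    rw [e1, e2] at h3
    refine h3.congr fun n => ?_
    show W n t c * (CW p (W n) m t c * CW p (W n) m (t + (p m).1) (c + (p m).2)) = _
    ring

/-- the local averages are small -/
lemma avg_UV (f : ℤ → ℕ → ℤ) (hf : ∀ y n, f y n = 1 ∨ f y n = -1)
    (h2 : ∀ y y' : ℤ, y ≠ y' → μ.m (fun n => ind V n * ((f y n * f y' n : ℤ) : ℝ)) = 0)
    (R : ℤ) (hR : R ≠ 0) (t : ℕ) (ht : 1 ≤ t) :
    UV μ V (fun n => |(∑ j ∈ range (t ^ 2), (f (j * R) n : ℝ)) / ((t ^ 2 : ℕ) : ℝ)|) (1 / t) := by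
  classical
  have ht0 : (0 : ℝ) < t := by exact_mod_cast ht
  set J : ℕ := t ^ 2 with hJ
  have hJ0 : (0 : ℝ) < J := by rw [hJ]; push_cast; positivity
  have hB : ∀ j j' : ℕ, Bd (fun n => ((f (j * R) n * f (j' * R) n : ℤ) : ℝ)) := by
    intro j j'
    refine ⟨1, fun n => ?_⟩
    beta_reduce
    rcases hf (j * R) n with h | h <;> rcases hf (j' * R) n with h' | h' <;> rw [h, h'] <;> norm_num
  have hsq : UV μ V (fun n => ∑ j ∈ range J, ∑ j' ∈ range J, ((f (j * R) n * f (j' * R) n : ℤ) : ℝ)) J := by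
    have h3 : ∀ j ∈ range J, UV μ V (fun n => ∑ j' ∈ range J, ((f (j * R) n * f (j' * R) n : ℤ) : ℝ)) 1 := by
      intro j hj
      have h4 : ∀ j' ∈ (range J).erase j, UV μ V (fun n => ((f (j * R) n * f (j' * R) n : ℤ) : ℝ)) 0 := by
        intro j' hj'
        rw [mem_erase] at hj'
        refine ⟨hB j j', le_of_eq ?_⟩
        rw [zero_mul]
        apply h2
        intro h
        apply hj'.1
        have := mul_right_cancel₀ hR h
        exact_mod_cast this.symm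
      have h5 := (UV.const (μ := μ) (V := V) 1).add (UV.sum _ h4)
      rw [mul_zero, add_zero] at h5
      refine h5.of_le (Pool.Agent.TH112.BL.Bd.sum _ fun j' _ => hB j j') fun n => ?_
      rw [← add_sum_erase (range J) _ hj]
      have h7 : ((f (j * R) n * f (j * R) n : ℤ) : ℝ) = 1 := by
        rcases hf (j * R) n with h | h <;> rw [h] <;> norm_num
      rw [h7]
    have h4 := UV.sum (range J) h3
    rw [card_range, mul_one] at h4
    exact h4
  have h3 : UV μ V (fun n => (t / 2 : ℝ) * ((∑ j ∈ range J, ∑ j' ∈ range J,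
      ((f (j * R) n * f (j' * R) n : ℤ) : ℝ)) / (J * J)) + 1 / (2 * t))
      ((t / 2 : ℝ) * (J / (J * J)) + 1 / (2 * t)) := by
    apply UV.add
    · exact (hsq.div _ (by positivity)).cmul _ (by positivity)
    · exact UV.const _
  have e3 : (t / 2 : ℝ) * (J / (J * J)) + 1 / (2 * t) = 1 / t := by
    rw [hJ]
    push_cast
    field_simp
    norm_num
  rw [e3] at h3
  refine h3.of_le ⟨1, fun n => ?_⟩ fun n => ?_
  · rw [abs_abs, abs_div, abs_of_pos hJ0, div_le_one hJ0]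
    refine (abs_sum_le_sum_abs _ _).trans ?_
    have h7 : ∀ j ∈ range J, |((f (j * R) n : ℤ) : ℝ)| ≤ 1 := by
      intro j _
      rcases hf (j * R) n with h | h <;> rw [h] <;> norm_num
    refine (sum_le_sum h7).trans ?_
    rw [sum_const, card_range, nsmul_eq_mul, mul_one]
  · set S' : ℝ := (∑ j ∈ range J, (f (j * R) n : ℝ)) / J with hS
    have e4 : (∑ j ∈ range J, ∑ j' ∈ range J, ((f (j * R) n * f (j' * R) n : ℤ) : ℝ)) / (J * J) =
        |S'| ^ 2 := by
      rw [sq_abs, hS, div_pow, sq, sq, sum_mul_sum]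
      congr 1
      apply sum_congr rfl
      intro j _
      apply sum_congr rfl
      intro j' _
      push_cast
      rfl
    rw [e4]
    have h5 : (t / 2 : ℝ) * |S'| ^ 2 + 1 / (2 * t) - |S'| = (t * |S'| - 1) ^ 2 / (2 * t) := by
      field_simp
      ring
    have h6 : 0 ≤ (t * |S'| - 1) ^ 2 / (2 * t) := by positivity
    linarith

end

/-- **the cube inequality for means** -/
theorem cube_NM (m : ℕ) (a b : Fin (m + 2) → ℤ) (hab : ∀ i j, i ≠ j → a i * b j ≠ a j * b i) (ε : ℝ)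
    (hε : 0 < ε) : ∃ B : ℕ, ∀ (μ : NM) (V : ℕ → Prop)
      (f : Fin (m + 2) → ℤ → ℕ → ℤ) (σ : ℤ) (q : ℝ), 0 < μ.m (ind V) →
      (∀ i y n, f i y n = 1 ∨ f i y n = -1) → (σ = 1 ∨ σ = -1) →
      (∀ t c : ℤ, |t| ≤ B → |c| ≤ B → FM μ V (fun n => ∏ i, f i (a i * t + b i * c) n) σ q) →
      (∀ y y' : ℤ, y ≠ y' → μ.m (fun n => ind V n * ((f 0 y n * f 0 y' n : ℤ) : ℝ)) = 0) →
      1 - ε ≤ 2 * (2 ^ (m + 1) - 1) * q := by
  classical
  -- the kernel vectors
  obtain ⟨Δ, hΔ⟩ : ∃ Δ : Fin (m + 1) → ℤ, ∀ l, Δ l = a 0 * b l.succ - b 0 * a l.succ := ⟨_, fun _ => rfl⟩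
  have hΔ0 : ∀ l, Δ l ≠ 0 := by
    intro l h
    rw [hΔ] at h
    exact hab 0 l.succ (Fin.succ_ne_zero l).symm (by linarith)
  obtain ⟨M, hM⟩ : ∃ M : ℤ, M = ∏ l, Δ l := ⟨_, rfl⟩
  have hM0 : M ≠ 0 := by
    rw [hM]
    exact prod_ne_zero_iff.2 fun l _ => hΔ0 l
  obtain ⟨r, hr⟩ : ∃ r : Fin (m + 1) → ℤ, ∀ l, r l = 2 ^ ((l : ℕ) - 1) * ∏ l' ∈ univ.erase l, Δ l' :=
    ⟨_, fun _ => rfl⟩
  have hrΔ : ∀ l, r l * Δ l = 2 ^ ((l : ℕ) - 1) * M := by
    intro l
    rw [hr, hM, ← mul_prod_erase univ Δ (mem_univ l)]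
    ring
  obtain ⟨p, hp⟩ : ∃ p : ℤ → ℕ → ℤ × ℤ, ∀ j l, p j l = if h : l < m + 1 then
      (j * (r ⟨l, h⟩ * b (Fin.succ ⟨l, h⟩)), -(j * (r ⟨l, h⟩ * a (Fin.succ ⟨l, h⟩)))) else (0, 0) :=
    ⟨fun j l => if h : l < m + 1 then
      (j * (r ⟨l, h⟩ * b (Fin.succ ⟨l, h⟩)), -(j * (r ⟨l, h⟩ * a (Fin.succ ⟨l, h⟩)))) else (0, 0),
      fun _ _ => rfl⟩
  obtain ⟨P, hP⟩ : ∃ P : ℕ, P = ∑ l ∈ range (m + 1), ((p 1 l).1.natAbs + (p 1 l).2.natAbs) := ⟨_, rfl⟩
  obtain ⟨R, hR⟩ : ∃ R : ℤ, R = 2 ^ m * M := ⟨_, rfl⟩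
  have hR0 : R ≠ 0 := by
    rw [hR]
    positivity
  obtain ⟨t, ht⟩ := exists_nat_gt (1 / ε)
  have ht0 : (0 : ℝ) < t := lt_trans (by positivity) ht
  have ht1 : 1 ≤ t := by
    by_contra h
    have : t = 0 := by omega
    rw [this] at ht0
    norm_num at ht0
  have ht2 : (1 : ℝ) / t ≤ ε := by
    rw [div_lt_iff₀ hε] at ht
    rw [div_le_iff₀ ht0]
    linarith
  refine ⟨t ^ 2 * P, ?_⟩
  intro μ V f σ q hS hf hσ hrel h2
  obtain ⟨B, hB⟩ : ∃ B : ℕ, B = t ^ 2 * P := ⟨_, rfl⟩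
  rw [← hB] at hrel
  obtain ⟨W, hW⟩ : ∃ W : ℕ → ℤ → ℤ → ℤ, ∀ n t c, W n t c = ∏ i, f i (a i * t + b i * c) n :=
    ⟨_, fun _ _ _ => rfl⟩
  have hWpm : ∀ n t c, W n t c = 1 ∨ W n t c = -1 := by
    intro n t c
    rw [hW]
    exact prod_pm univ _ fun i => hf i _ n
  have hpj : ∀ (j : ℤ) (l : ℕ), (p j l).1 = j * (p 1 l).1 ∧ (p j l).2 = j * (p 1 l).2 := by
    intro j l
    rw [hp, hp]
    split_ifs
    · constructor
      · simp
      · simp only
        ring
    · simp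
  -- the relations
  have hmain : ∀ j ∈ range (t ^ 2), FM μ V (fun n => f 0 (j * R) n * (f 0 0 n * W n 0 0))
      (σ ^ (2 ^ (m + 1) - 1)) ((2 ^ (m + 1) - 1) * q) := by
    intro j hj
    rw [mem_range] at hj
    have hb1 : ∑ l ∈ range (m + 1), |(p j l).1| ≤ B := by
      have h3 : ∑ l ∈ range (m + 1), |(p j l).1| ≤ j * P := by
        rw [hP]
        push_cast
        rw [mul_sum]
        refine sum_le_sum fun l _ => ?_
        rw [(hpj j l).1, abs_mul, Nat.abs_cast]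
        refine mul_le_mul_of_nonneg_left ?_ (by positivity)
        have := abs_nonneg (p 1 l).2
        linarith
      have h4 : ((j * P : ℕ) : ℤ) ≤ B := by
        rw [hB]
        exact_mod_cast Nat.mul_le_mul_right P hj.le
      push_cast at h4
      linarith
    have hb2 : ∑ l ∈ range (m + 1), |(p j l).2| ≤ B := by
      have h3 : ∑ l ∈ range (m + 1), |(p j l).2| ≤ j * P := by
        rw [hP]
        push_cast
        rw [mul_sum]
        refine sum_le_sum fun l _ => ?_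
        rw [(hpj j l).2, abs_mul, Nat.abs_cast]
        refine mul_le_mul_of_nonneg_left ?_ (by positivity)
        have := abs_nonneg (p 1 l).1
        linarith
      have h4 : ((j * P : ℕ) : ℤ) ≤ B := by
        rw [hB]
        exact_mod_cast Nat.mul_le_mul_right P hj.le
      push_cast at h4
      linarith
    have h3 := E_FM (μ := μ) (V := V) (p j) W σ B q hWpm (fun t c ht hc => by
      refine (hrel t c ht hc).congr fun n => ?_
      rw [hW]) (m + 1) 0 0 (by rw [abs_zero, zero_add]; exact hb1) (by rw [abs_zero, zero_add]; exact hb2)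
    refine h3.congr fun n => ?_
    have e1 : W n = fun t c => ∏ i, (fun i y => f i y n) i (a i * t + b i * c) := by
      funext t c
      rw [hW]
    have e2 : CW (p j) (W n) (m + 1) 0 0 = f 0 0 n * f 0 (j * R) n := by
      rw [e1, CW_prod (p j) a b (fun i y => f i y n) (m + 1) 0 0, Fin.prod_univ_succ]
      have e3 : ∏ i : Fin (m + 1), GG (fun l => a i.succ * (p j l).1 + b i.succ * (p j l).2)
          ((fun i y => f i y n) i.succ) (m + 1) (a i.succ * 0 + b i.succ * 0) = 1 := by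
        refine prod_eq_one fun i _ => ?_
        refine GG_one _ _ (fun y => hf _ _ _) i ?_ _ i.2 _
        rw [hp, dif_pos i.2]
        simp only [Fin.eta]
        ring
      rw [e3, mul_one, GG_two _ _ (fun y => hf _ _ _) (j * M) m]
      · rw [mul_zero, mul_zero, add_zero, zero_add, hR]
        congr 2
        ring
      · intro l hl
        rw [hp, dif_pos (by omega)]
        simp only
        have h4 := hrΔ ⟨l, by omega⟩
        rw [hΔ] at h4
        simp only at h4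
        linear_combination (j : ℤ) * h4
    rw [e2]
    ring
  -- the average
  have hAA := avg_UV (μ := μ) (V := V) (f 0) (hf 0) h2 R hR0 t ht1
  obtain ⟨J, hJ⟩ : ∃ J : ℕ, J = t ^ 2 := ⟨_, rfl⟩
  have hJ0 : (0 : ℝ) < J := by rw [hJ]; positivity
  rw [← hJ] at hmain hAA
  have hsum := (UV.sum (range J) (fun j hj => hmain j hj)).div J hJ0.le
  rw [card_range] at hsum
  have e5 : (J : ℝ) * ((2 ^ (m + 1) - 1) * q) / J = (2 ^ (m + 1) - 1) * q := by
    field_simp
  rw [e5] at hsum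
  have hτ : σ ^ (2 ^ (m + 1) - 1) = 1 ∨ σ ^ (2 ^ (m + 1) - 1) = -1 := by
    rcases hσ with rfl | rfl
    · left; simp
    · exact neg_one_pow_eq_or ℤ _
  have hall := (hsum.cmul 2 (by norm_num)).add hAA
  have h3 : UV μ V (fun _ => (1 : ℝ)) (2 * ((2 ^ (m + 1) - 1) * q) + 1 / t) := by
    refine hall.of_le (Pool.Agent.TH112.BL.Bd.const 1) fun n => ?_
    obtain ⟨A, hA⟩ : ∃ A : ℝ, A = (∑ j ∈ range J, (f 0 (j * R) n : ℝ)) / J := ⟨_, rfl⟩
    rw [← hA]
    -- the sign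
    obtain ⟨ξ, hξ, hξe⟩ : ∃ ξ : ℤ, (ξ = 1 ∨ ξ = -1) ∧ ξ = f 0 0 n * W n 0 0 * σ ^ (2 ^ (m + 1) - 1) := by
      refine ⟨_, ?_, rfl⟩
      rcases hf 0 0 n with h | h <;> rcases hWpm n 0 0 with h' | h' <;> rcases hτ with h'' | h'' <;>
        rw [h, h', h''] <;> norm_num
    have h4 : ∀ j ∈ range J, (if f 0 (j * R) n * (f 0 0 n * W n 0 0) ≠ σ ^ (2 ^ (m + 1) - 1) then (1 : ℝ)
        else 0) = (1 - ξ * f 0 (j * R) n) / 2 := by
      intro j _
      rw [hξe]
      rcases hf 0 (j * R) n with h | h <;> rcases hf 0 0 n with h' | h' <;>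
        rcases hWpm n 0 0 with h'' | h'' <;> rcases hτ with h''' | h''' <;>
        rw [h, h', h'', h'''] <;> norm_num
    rw [sum_congr rfl h4, ← sum_div, sum_sub_distrib, ← mul_sum, sum_const, card_range, nsmul_eq_mul,
      mul_one]
    have h5 : 2 * (((J : ℝ) - ξ * ∑ j ∈ range J, (f 0 (j * R) n : ℝ)) / 2 / J) = 1 - ξ * A := by
      rw [hA]
      field_simp
    rw [h5]
    have h6 : (ξ : ℝ) * A ≤ |A| := by
      rcases hξ with rfl | rfl
      · push_cast
        rw [one_mul]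
        exact le_abs_self A
      · push_cast
        rw [neg_one_mul]
        exact neg_le_abs A
    linarith
  have h4 := h3.2
  simp only [mul_one] at h4
  have e6 : (fun n => ind V n) = ind V := rfl
  rw [e6] at h4
  have h5 : 1 ≤ 2 * ((2 ^ (m + 1) - 1) * q) + 1 / t := by
    by_contra hcon
    push Not at hcon
    nlinarith
  linarith

end Pool.Agent.Helper81.Ev
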