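import Pool.Agent.Helper81.Gap.Mean

/-!
The inequality for a finite average: all the hypotheses are finite in number.
-/

set_option autoImplicit false

open Finset

namespace Pool.Agent.Helper81.Ev

open Pool.Agent.Helper81.Gap

section

variable {ι : Type} (S : Finset ι)

/-- the mean over `S` is at most `C` -/
def UF (G : ι → ℝ) (C : ℝ) : Prop := ∑ n ∈ S, G n ≤ C * S.card

variable {S}

lemma UF.cmul {G : ι → ℝ} {C : ℝ} (h : UF S G C) (c : ℝ) (hc : 0 ≤ c) :
    UF S (fun n => c * G n) (c * C) := by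
  unfold UF at *
  rw [← mul_sum, mul_assoc]
  exact mul_le_mul_of_nonneg_left h hc

lemma UF.div {G : ι → ℝ} {C : ℝ} (h : UF S G C) (c : ℝ) (hc : 0 ≤ c) :
    UF S (fun n => G n / c) (C / c) := by
  have := h.cmul c⁻¹ (inv_nonneg.2 hc)
  simpa only [div_eq_inv_mul] using this

lemma UF.add {G G' : ι → ℝ} {C C' : ℝ} (h : UF S G C) (h' : UF S G' C') :
    UF S (fun n => G n + G' n) (C + C') := by
  unfold UF at *
  rw [sum_add_distrib, add_mul]
  exact add_le_add h h'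

lemma UF.sum {κ : Type*} (s : Finset κ) {G : κ → ι → ℝ} {C : ℝ} (h : ∀ i ∈ s, UF S (G i) C) :
    UF S (fun n => ∑ i ∈ s, G i n) (s.card * C) := by
  unfold UF at *
  rw [sum_comm]
  refine (sum_le_sum h).trans (le_of_eq ?_)
  rw [sum_const, nsmul_eq_mul, mul_assoc]

lemma UF.of_le {G G' : ι → ℝ} {C : ℝ} (h : UF S G C) (hle : ∀ n, G' n ≤ G n) : UF S G' C :=
  (sum_le_sum fun n _ => hle n).trans h

lemma UF.const (c : ℝ) : UF S (fun _ => c) c := by
  unfold UF
  rw [sum_const, nsmul_eq_mul, mul_comm]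

variable {k : ℕ} (x : Fin k → ℤ) (i1 : Fin k) (Y : ℤ → ℤ → ι → ℤ) (σ : ℤ)

open Classical in
lemma Fl_eq (u y c : ℤ) (n : ι) : Fl x (sl x i1) (fun z w => Y z w n) σ u y c =
    if ∏ j, Y (u + x j) (y - c * x i1 + c * x j) n ≠ σ then 1 else 0 := by
  unfold Fl LP
  have e : ∏ j, Y (u + x j) (y + c * sl x i1 j) n = ∏ j, Y (u + x j) (y - c * x i1 + c * x j) n := by
    apply prod_congr rfl
    intro j _
    congr 1
    unfold sl
    ring
  rw [e]
  by_cases h : ∏ j, Y (u + x j) (y - c * x i1 + c * x j) n = σ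
  · rw [if_pos h, if_neg (not_not.2 h)]
  · rw [if_neg h, if_pos h]

variable (V : ℕ) (q : ℝ)

open Classical in
/-- the hypothesis on the lines -/
def Rel (S : Finset ι) (V : ℕ) (q : ℝ) : Prop := ∀ u v c : ℤ, |u| ≤ V → |v| ≤ V → |c| ≤ V →
  UF S (fun n => if ∏ j, Y (u + x j) (v + c * x j) n ≠ σ then 1 else 0) q

variable (hrel : Rel x Y σ S V q) (X₀ K₁ K₂ H : ℕ) (hX : ∀ i, |x i| ≤ X₀) (hH : ∀ i, |sl x i1 i| ≤ H)

include hrel hX in
lemma Fl_UF (u y c : ℤ) (hu : |u| ≤ V) (hc : |c| ≤ V) (hy : |y| + |c| * X₀ ≤ V) :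
    UF S (fun n => Fl x (sl x i1) (fun z w => Y z w n) σ u y c) q := by
  classical
  have h1 := hrel u (y - c * x i1) c hu (by
    have h2 := abs_sub y (c * x i1)
    rw [abs_mul] at h2
    have h3 := mul_le_mul_of_nonneg_left (hX i1) (abs_nonneg c)
    linarith) hc
  have e : (fun n => Fl x (sl x i1) (fun z w => Y z w n) σ u y c) =
      fun n => if ∏ j, Y (u + x j) (y - c * x i1 + c * x j) n ≠ σ then 1 else 0 := by
    funext n
    exact Fl_eq x i1 Y σ u y c n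
  rw [e]
  exact h1

include hrel hX hH in
/-- the mean of the proportion of wrong lines -/
lemma SS_UF (hV : 3 * X₀ + K₁ * H + (K₁ + K₂ * H) * (X₀ + 1) ≤ V) :
    UF S (fun n => SS x (sl x i1) i1 (fun z w => Y z w n) σ K₁ K₂) ((2 * (k : ℝ) ^ 2 - k - 1) * q) := by
  classical
  have hk : 1 ≤ k := by
    rcases Nat.eq_zero_or_pos k with h | h
    · subst h; exact Fin.elim0 i1
    · exact h
  have hV' : 3 * (X₀ : ℤ) + K₁ * H + (K₁ + K₂ * H) * (X₀ + 1) ≤ V := by exact_mod_cast hV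
  have hX00 : (0 : ℤ) ≤ X₀ := by positivity
  have hK10 : (0 : ℤ) ≤ K₁ := by positivity
  have hK20 : (0 : ℤ) ≤ K₂ := by positivity
  have hH0 : (0 : ℤ) ≤ H := by positivity
  have hKH : (0 : ℤ) ≤ K₁ * H := mul_nonneg hK10 hH0
  have hKH2 : (0 : ℤ) ≤ K₂ * H := mul_nonneg hK20 hH0
  set n₁ : ℝ := 2 * (K₁ : ℝ) + 1 with hn₁
  set n₂ : ℝ := 2 * (K₂ : ℝ) + 1 with hn₂
  have hn₁0 : 0 < n₁ := by positivity
  have hn₂0 : 0 < n₂ := by positivity
  have hFl := Fl_UF x i1 Y σ V q hrel X₀ hX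
  have hmul : ∀ (δ : ℤ) (b : Fin k), |δ| ≤ K₂ → |δ * sl x i1 b| ≤ K₂ * H := by
    intro δ b h
    rw [abs_mul]
    exact mul_le_mul h (hH b) (abs_nonneg _) (by positivity)
  have hmul' : ∀ (δ : ℤ) (b : Fin k), |δ| ≤ K₁ → |δ * sl x i1 b| ≤ K₁ * H := by
    intro δ b h
    rw [abs_mul]
    exact mul_le_mul h (hH b) (abs_nonneg _) (by positivity)
  have hfin : ∀ (y c : ℤ), |y| ≤ K₁ * H → |c| ≤ K₁ + K₂ * H → |c| ≤ V ∧ |y| + |c| * X₀ ≤ V := by
    intro y c h1 h2
    have h3 : |c| * X₀ ≤ (K₁ + K₂ * H) * X₀ := mul_le_mul_of_nonneg_right h2 hX00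
    have h4 : (0 : ℤ) ≤ (K₁ + K₂ * H) * X₀ := mul_nonneg (by linarith) hX00
    constructor <;> nlinarith
  have hce : ((univ.erase i1 : Finset (Fin k)).card : ℝ) = (k : ℝ) - 1 := by
    rw [card_erase_of_mem (mem_univ _), card_univ, Fintype.card_fin]
    push_cast [Nat.cast_sub hk]
    ring
  have hT : ∀ i ∈ (univ : Finset (Fin k)), UF S (fun n => TT x (sl x i1) i1 (fun z w => Y z w n) σ K₁ K₂ i)
      (2 * (((univ.erase i1 : Finset (Fin k)).card : ℝ) * (((SI K₁).card : ℝ) * (((SI K₁).card : ℝ) *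
        (((SI K₂).card : ℝ) * q))))) := by
    intro i _
    unfold TT
    apply UF.cmul _ 2 (by norm_num)
    apply UF.sum
    intro b _
    apply UF.sum
    intro e he
    apply UF.sum
    intro e' he'
    apply UF.sum
    intro δ hδ
    have h1 := hmul δ b (SI_abs hδ)
    have h2 := SI_abs he
    have h3 := abs_add_le e (δ * sl x i1 b)
    obtain ⟨h4, h5⟩ := hfin (e' * sl x i1 b) (e + δ * sl x i1 b) (hmul' e' b (SI_abs he')) (by linarith)
    refine hFl _ _ _ ?_ h4 h5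
    have h6 := abs_add_le (x i - x i1) (x b)
    have h7 := abs_sub (x i) (x i1)
    have := hX i
    have := hX i1
    have := hX b
    have : (0 : ℤ) ≤ (K₁ + K₂ * H) * (X₀ + 1) := by positivity
    linarith
  have hR : ∀ b ∈ univ.erase i1, UF S (fun n => RR x (sl x i1) (fun z w => Y z w n) σ K₁ K₂ b)
      (((SI K₁).card : ℝ) * (((SI K₂).card : ℝ) * q)) := by
    intro b _
    unfold RR
    apply UF.sum
    intro e' he'
    apply UF.sum
    intro δ hδ
    have h1 := hmul δ b (SI_abs hδ)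
    obtain ⟨h4, h5⟩ := hfin (e' * sl x i1 b) (δ * sl x i1 b) (hmul' e' b (SI_abs he')) (by linarith)
    refine hFl _ _ _ ?_ h4 h5
    have := hX b
    have : (0 : ℤ) ≤ (K₁ + K₂ * H) * (X₀ + 1) := by positivity
    linarith
  have h1 := ((UF.sum univ hT).div (n₁ * n₁ * n₂) (by positivity)).add
    ((UF.sum (univ.erase i1) hR).div (n₁ * n₂) (by positivity))
  have e1 : ((univ : Finset (Fin k)).card : ℝ) * (2 * (((univ.erase i1 : Finset (Fin k)).card : ℝ) *
      (((SI K₁).card : ℝ) * (((SI K₁).card : ℝ) * (((SI K₂).card : ℝ) * q))))) / (n₁ * n₁ * n₂) +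
      ((univ.erase i1 : Finset (Fin k)).card : ℝ) * (((SI K₁).card : ℝ) * (((SI K₂).card : ℝ) * q)) /
      (n₁ * n₂) = (2 * (k : ℝ) ^ 2 - k - 1) * q := by
    rw [hce, SI_card', SI_card', ← hn₁, ← hn₂, card_univ, Fintype.card_fin]
    field_simp
    ring
  rw [e1] at h1
  exact h1

include hrel hX in
/-- the mean of the proportion of wrong lines through a progression -/
lemma DD_UF (R : ℤ) (J : ℕ) (hJ : 1 ≤ J) (hV : X₀ + K₁ * (X₀ + 1) + J * R.natAbs ≤ V) :
    UF S (fun n => DD x (sl x i1) i1 (fun z w => Y z w n) σ K₁ R J) q := by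
  have hFl := Fl_UF x i1 Y σ V q hrel X₀ hX
  have hV' : (X₀ : ℤ) + K₁ * (X₀ + 1) + J * |R| ≤ V := by
    rw [Int.abs_eq_natAbs]
    exact_mod_cast hV
  have hX00 : (0 : ℤ) ≤ X₀ := by positivity
  have hK10 : (0 : ℤ) ≤ K₁ := by positivity
  have hKX : (0 : ℤ) ≤ K₁ * X₀ := mul_nonneg hK10 hX00
  have hJR0 : (0 : ℤ) ≤ J * |R| := by positivity
  have hJ0 : (0 : ℝ) < J := by exact_mod_cast hJ
  have hn₁0 : (0 : ℝ) < 2 * (K₁ : ℝ) + 1 := by positivity
  have h1 : UF S (fun n => DD x (sl x i1) i1 (fun z w => Y z w n) σ K₁ R J)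
      (((range J).card : ℝ) * (((SI K₁).card : ℝ) * q) / (J * (2 * (K₁ : ℝ) + 1))) := by
    unfold DD
    apply UF.div _ _ (by positivity)
    apply UF.sum
    intro j hj
    apply UF.sum
    intro e he
    have h2 := SI_abs he
    have h3 : |(j : ℤ) * R| ≤ J * |R| := by
      rw [abs_mul, Nat.abs_cast]
      apply mul_le_mul_of_nonneg_right _ (abs_nonneg _)
      rw [mem_range] at hj
      exact_mod_cast hj.le
    have h4 : |e| * X₀ ≤ K₁ * X₀ := mul_le_mul_of_nonneg_right h2 hX00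
    have := hX i1
    apply hFl
    · nlinarith
    · nlinarith
    · nlinarith
  have e1 : ((range J).card : ℝ) * (((SI K₁).card : ℝ) * q) / (J * (2 * (K₁ : ℝ) + 1)) = q := by
    rw [SI_card', card_range]
    field_simp
  rwa [e1] at h1

variable (η : ℝ)

/-- the local averages are small -/
lemma AA_UF (hY : ∀ z y n, Y z y n = 1 ∨ Y z y n = -1) (hη : 0 ≤ η)
    (h2 : ∀ z y y' : ℤ, |z| ≤ V → |y| ≤ V → |y'| ≤ V → y ≠ y' →
      UF S (fun n => ((Y z y n * Y z y' n : ℤ) : ℝ)) η)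
    (hX : ∀ i, |x i| ≤ X₀)
    (R : ℤ) (hR : R ≠ 0) (t : ℕ) (ht : 1 ≤ t) (hV : 2 * X₀ + t ^ 2 * R.natAbs ≤ V) :
    UF S (fun n => AA x i1 (fun z w => Y z w n) R (t ^ 2)) (1 / t + t * η / 2) := by
  classical
  have ht0 : (0 : ℝ) < t := by exact_mod_cast ht
  set z : ℤ := x i1 + x i1 with hz
  set J : ℕ := t ^ 2 with hJ
  have hJ0 : (0 : ℝ) < J := by rw [hJ]; push_cast; positivity
  have hV' : 2 * (X₀ : ℤ) + J * |R| ≤ V := by
    rw [Int.abs_eq_natAbs]
    exact_mod_cast hV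
  have hX00 : (0 : ℤ) ≤ X₀ := by positivity
  have hJR0 : (0 : ℤ) ≤ J * |R| := by positivity
  have hzV : |z| ≤ V := by
    rw [hz]
    have h1 := abs_add_le (x i1) (x i1)
    have := hX i1
    linarith
  have hyV : ∀ j ∈ range J, |(j : ℤ) * R| ≤ V := by
    intro j hj
    rw [abs_mul, Nat.abs_cast]
    have h1 : (j : ℤ) * |R| ≤ J * |R| := by
      apply mul_le_mul_of_nonneg_right _ (abs_nonneg _)
      rw [mem_range] at hj
      exact_mod_cast hj.le
    linarith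
  have hsq : UF S (fun n => ∑ j ∈ range J, ∑ j' ∈ range J, ((Y z (j * R) n * Y z (j' * R) n : ℤ) : ℝ))
      (J * (1 + J * η)) := by
    have h3 : ∀ j ∈ range J, UF S (fun n => ∑ j' ∈ range J, ((Y z (j * R) n * Y z (j' * R) n : ℤ) : ℝ))
        (1 + J * η) := by
      intro j hj
      have h4 : ∀ j' ∈ (range J).erase j, UF S (fun n => ((Y z (j * R) n * Y z (j' * R) n : ℤ) : ℝ)) η := by
        intro j' hj'
        rw [mem_erase] at hj'
        apply h2 _ _ _ hzV (hyV j hj) (hyV j' hj'.2)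
        intro h
        apply hj'.1
        have := mul_right_cancel₀ hR h
        exact_mod_cast this.symm
      have h5 := (UF.const (S := S) 1).add (UF.sum _ h4)
      have h6 : UF S (fun n => ∑ j' ∈ range J, ((Y z (j * R) n * Y z (j' * R) n : ℤ) : ℝ))
          (1 + (((range J).erase j).card : ℝ) * η) := by
        refine h5.of_le fun n => ?_
        rw [← add_sum_erase (range J) _ hj]
        have h7 : ((Y z (j * R) n * Y z (j * R) n : ℤ) : ℝ) = 1 := by
          rcases hY z (j * R) n with h | h <;> rw [h] <;> norm_num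
        rw [h7]
      unfold UF at h6 ⊢
      refine h6.trans ?_
      apply mul_le_mul_of_nonneg_right _ (Nat.cast_nonneg _)
      have h8 : ((((range J).erase j).card : ℕ) : ℝ) ≤ J := by
        have := card_le_card (erase_subset j (range J))
        rw [card_range] at this
        exact_mod_cast this
      nlinarith
    have h4 := UF.sum (range J) h3
    rw [card_range] at h4
    exact h4
  have h3 : UF S (fun n => (t / 2 : ℝ) * ((∑ j ∈ range J, ∑ j' ∈ range J,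
      ((Y z (j * R) n * Y z (j' * R) n : ℤ) : ℝ)) / (J * J)) + 1 / (2 * t))
      ((t / 2 : ℝ) * (J * (1 + J * η) / (J * J)) + 1 / (2 * t)) := by
    apply UF.add
    · exact (hsq.div _ (by positivity)).cmul _ (by positivity)
    · exact UF.const _
  have e3 : (t / 2 : ℝ) * (J * (1 + J * η) / (J * J)) + 1 / (2 * t) = 1 / t + t * η / 2 := by
    rw [hJ]
    push_cast
    field_simp
    ring
  rw [e3] at h3
  have hle : ∀ n, AA x i1 (fun z w => Y z w n) R J ≤ (t / 2 : ℝ) * ((∑ j ∈ range J, ∑ j' ∈ range J,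
      ((Y z (j * R) n * Y z (j' * R) n : ℤ) : ℝ)) / (J * J)) + 1 / (2 * t) := by
    intro n
    unfold AA
    set S' : ℝ := (∑ j ∈ range J, (Y z (j * R) n : ℝ)) / J with hS
    have e4 : (∑ j ∈ range J, ∑ j' ∈ range J, ((Y z (j * R) n * Y z (j' * R) n : ℤ) : ℝ)) / (J * J) =
        |S'| ^ 2 := by
      rw [sq_abs, hS, div_pow, sq, sq, sum_mul_sum]
      congr 1
      apply sum_congr rfl
      intro j _
      apply sum_congr rfl
      intro j' _
      push_cast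
      rfl
    rw [e4]
    have h5 : (t / 2 : ℝ) * |S'| ^ 2 + 1 / (2 * t) - |S'| = (t * |S'| - 1) ^ 2 / (2 * t) := by
      field_simp
      ring
    have h6 : 0 ≤ (t * |S'| - 1) ^ 2 / (2 * t) := by positivity
    linarith
  exact h3.of_le hle

end

/-- **the inequality for finite averages** -/
theorem rs_fin (k : ℕ) (x : Fin k → ℤ) (hx : Function.Injective x) (i1 : Fin k) (ε : ℝ) (hε : 0 < ε) :
    ∃ (V : ℕ) (η : ℝ), 1 ≤ V ∧ 0 < η ∧ ∀ (ι : Type) (S : Finset ι) (Y : ℤ → ℤ → ι → ℤ) (σ : ℤ) (q : ℝ),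
      S.Nonempty → (∀ z y n, Y z y n = 1 ∨ Y z y n = -1) → (σ = 1 ∨ σ = -1) → Rel x Y σ S V q →
      (∀ z y y' : ℤ, |z| ≤ V → |y| ≤ V → |y'| ≤ V → y ≠ y' →
        UF S (fun n => ((Y z y n * Y z y' n : ℤ) : ℝ)) η) →
      1 - ε ≤ (2 * (k : ℝ) ^ 2 - k + 3) * q := by
  classical
  set a := sl x i1 with ha
  have ha1 : a i1 = 0 := by rw [ha]; unfold sl; ring
  have ha0 : ∀ b, b ≠ i1 → a b ≠ 0 := by
    intro b hb h
    apply hb
    apply hx
    rw [ha] at h
    unfold sl at h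
    omega
  set s : ℕ := ∏ b ∈ univ.erase i1, (a b).natAbs with hs
  have hs1 : 1 ≤ s := by
    rw [hs]
    exact Finset.prod_pos fun b hb => Int.natAbs_pos.2 (ha0 b (ne_of_mem_erase hb))
  have hsd : ∀ b, b ≠ i1 → a b ∣ (s : ℤ) := by
    intro b hb
    rw [← Int.natAbs_dvd_natAbs, Int.natAbs_natCast, hs]
    exact dvd_prod_of_mem _ (mem_erase.2 ⟨hb, mem_univ b⟩)
  set H : ℕ := ∑ i, (a i).natAbs with hH
  have hHi : ∀ i, |a i| ≤ (H : ℤ) := by
    intro i
    rw [Int.abs_eq_natAbs]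
    exact_mod_cast single_le_sum (f := fun i => (a i).natAbs) (fun _ _ => Nat.zero_le _) (mem_univ i)
  set X₀ : ℕ := ∑ i, (x i).natAbs with hX₀
  have hXi : ∀ i, |x i| ≤ (X₀ : ℤ) := by
    intro i
    rw [Int.abs_eq_natAbs]
    exact_mod_cast single_le_sum (f := fun i => (x i).natAbs) (fun _ _ => Nat.zero_le _) (mem_univ i)
  obtain ⟨t, ht⟩ := exists_nat_gt (4 / ε)
  have ht0 : (0 : ℝ) < t := lt_trans (by positivity) ht
  have ht1 : 1 ≤ t := by
    by_contra h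
    have : t = 0 := by omega
    rw [this] at ht0
    norm_num at ht0
  have ht2 : (1 : ℝ) / t + t * (1 / (t : ℝ) ^ 2) / 2 ≤ ε / 2 := by
    rw [div_lt_iff₀ hε] at ht
    have e : (1 : ℝ) / t + t * (1 / (t : ℝ) ^ 2) / 2 = (3 / 2) / t := by
      field_simp
      norm_num
    rw [e, div_le_iff₀ ht0]
    linarith
  obtain ⟨K₁, K₂, hη⟩ := choose_K k s (t ^ 2) H (Nat.cast_nonneg _) (ε / 2) (by positivity)
  set R : ℤ := 2 ^ k * s * s with hRd
  refine ⟨3 * X₀ + K₁ * H + (K₁ + K₂ * H) * (X₀ + 1) + K₁ * (X₀ + 1) + t ^ 2 * R.natAbs + 1,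
    1 / (t : ℝ) ^ 2, by omega, by positivity, ?_⟩
  intro ι S Y σ q hS hY hσ hrel h2
  set V := 3 * X₀ + K₁ * H + (K₁ + K₂ * H) * (X₀ + 1) + K₁ * (X₀ + 1) + t ^ 2 * R.natAbs + 1 with hV
  have hJ : 1 ≤ t ^ 2 := Nat.one_le_pow _ _ ht1
  have hR : R ≠ 0 := by
    have : (s : ℤ) ≠ 0 := by exact_mod_cast (by omega : s ≠ 0)
    rw [hRd]
    positivity
  have hdet := fun n => det_main x a i1 (fun z w => Y z w n) σ K₁ K₂ ha1 (fun z y => hY z y n) hσ s (t ^ 2)
    hJ hs1 ha0 hsd H (ε / 2) (by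
      intro i
      have := hHi i
      rw [← Int.cast_abs]
      exact_mod_cast this) hη
  have hSS := SS_UF x i1 Y σ V q hrel X₀ K₁ K₂ H hXi hHi (by omega)
  have hDD := DD_UF x i1 Y σ V q hrel X₀ K₁ hXi R (t ^ 2) hJ (by
    have h0 : 0 ≤ K₁ * H := Nat.zero_le _
    have h1 : 0 ≤ (K₁ + K₂ * H) * (X₀ + 1) := Nat.zero_le _
    omega)
  have hAA := AA_UF x i1 Y V X₀ (1 / (t : ℝ) ^ 2) hY (by positivity) h2 hXi R hR t ht1 (by
    have h0 : 0 ≤ K₁ * H := Nat.zero_le _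
    have h1 : 0 ≤ (K₁ + K₂ * H) * (X₀ + 1) := Nat.zero_le _
    have h2 : 0 ≤ K₁ * (X₀ + 1) := Nat.zero_le _
    omega)
  have hall := (hSS.add (hDD.cmul 4 (by norm_num))).add hAA
  have h3 : UF S (fun _ => 1 - ε / 2) _ := hall.of_le hdet
  unfold UF at h3
  rw [sum_const, nsmul_eq_mul, mul_comm] at h3
  have hc : (0 : ℝ) < S.card := by exact_mod_cast hS.card_pos
  have h4 := le_of_mul_le_mul_right h3 hc
  nlinarith

end Pool.Agent.Helper81.Ev
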