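import Pool.Agent.Helper81.Ev.Shift
import Pool.Agent.Helper81.Ev.Cube

/-!
Every scale, almost all dilates of a system of forms.
-/

set_option autoImplicit false

namespace Pool.Agent.Helper81.Ev

open Finset
open Pool.Agent.Helper33.Half (lamI lamI_sg Sg TT shift_int two_shift)

lemma sum_mult (A : ℕ) (hA : 1 ≤ A) (x : ℕ) (G : ℤ → ℝ) :
    ∑ m ∈ Icc (1 : ℤ) ((A * x : ℕ) : ℤ), (if (A : ℤ) ∣ m then G m else 0) =
      ∑ n ∈ Icc (1 : ℤ) x, G (A * n) := by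
  have hA0 : (0 : ℤ) < A := by exact_mod_cast hA
  rw [← sum_filter]
  symm
  refine sum_bij (fun n _ => (A : ℤ) * n) ?_ ?_ ?_ ?_
  · intro n hn
    rw [mem_Icc] at hn
    rw [mem_filter, mem_Icc]
    push_cast
    refine ⟨⟨by nlinarith, mul_le_mul_of_nonneg_left hn.2 hA0.le⟩, Dvd.intro _ rfl⟩
  · intro n _ n' _ h
    exact mul_left_cancel₀ hA0.ne' h
  · intro m hm
    rw [mem_filter, mem_Icc] at hm
    obtain ⟨⟨h1, h2⟩, n, rfl⟩ := hm
    refine ⟨n, ?_, rfl⟩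
    rw [mem_Icc]
    push_cast at h2
    constructor
    · by_contra hcon
      push Not at hcon
      nlinarith
    · exact le_of_mul_le_mul_left h2 hA0
  · intro n _
    rfl

lemma ap_shift (A : ℕ) (hA : 1 ≤ A) (x : ℕ) (F : ℤ → ℝ) (hF : ∀ m, |F m| ≤ 1) (B : ℤ) :
    |∑ n ∈ Icc (1 : ℤ) x, F (A * n + B) -
      ∑ m ∈ Icc (1 : ℤ) ((A * x : ℕ) : ℤ), (if (A : ℤ) ∣ m - B then F m else 0)| ≤ 2 * |(B : ℝ)| := by
  have h1 := shift_int (f := fun m => if (A : ℤ) ∣ m - B then F m else 0) (fun m => by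
    split_ifs
    · exact hF m
    · simp) (A * x) B
  have h2 := sum_mult A hA x (fun m => F (m + B))
  beta_reduce at h2
  rw [← h2]
  simpa only [add_sub_cancel_right] using h1

open Classical in
lemma two_UF' {V : ℕ} {x D : ℕ} {η : ℝ} {e s : ℤ} (A : ℕ) (hA : 1 ≤ A) (b₀ : ℤ) (he0 : 0 < e)
    (he : e ≤ 2 * D) (hs0 : 0 < s) (hs : s ≤ D)
    (hx : 4 * (V + 2 * |(b₀ : ℝ)|) * D ≤ η * x)
    (htwo : ∀ i ∈ Icc 1 (2 * V), ∀ r : ℤ, |TTA A r x (i * s)| ≤ η / 2 * x) (y y' : ℤ)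
    (hy : |y| ≤ V) (hy' : |y'| ≤ V) (hne : y ≠ y') :
    UF (Icc (1 : ℤ) x) (fun n => ((lzI (A * n + (b₀ * e + s * y)) * lzI (A * n + (b₀ * e + s * y')) : ℤ) : ℝ))
      η := by
  have key : ∀ y y' : ℤ, |y| ≤ V → |y'| ≤ V → y < y' →
      ∑ n ∈ Icc (1 : ℤ) x, ((lzI (A * n + (b₀ * e + s * y)) * lzI (A * n + (b₀ * e + s * y')) : ℤ) : ℝ) ≤
        η * x := by
    intro y y' hy hy' hlt
    obtain ⟨i, hi⟩ : ∃ i : ℕ, y' = y + i := ⟨(y' - y).toNat, by omega⟩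
    have hi1 : i ∈ Icc 1 (2 * V) := by
      rw [mem_Icc]
      have h1 := abs_le.1 hy
      have h2 := abs_le.1 hy'
      omega
    have h1 := ap_shift A hA x (fun m => lamI m * lamI (m + i * s)) (fun m => (lamI_sg.abs_mul _ _).le)
      (b₀ * e + s * y)
    have h2 := htwo i hi1 (b₀ * e + s * y)
    have h3 : ∑ n ∈ Icc (1 : ℤ) x,
        ((lzI (A * n + (b₀ * e + s * y)) * lzI (A * n + (b₀ * e + s * y')) : ℤ) : ℝ) =
        ∑ n ∈ Icc (1 : ℤ) x, (fun m => lamI m * lamI (m + i * s)) (A * n + (b₀ * e + s * y)) := by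
      refine sum_congr rfl fun n _ => ?_
      push_cast
      rw [lzI_cast, lzI_cast, hi]
      congr 2
      ring
    rw [h3]
    have h4 : |((b₀ * e + s * y : ℤ) : ℝ)| ≤ (V + 2 * |(b₀ : ℝ)|) * D := by
      have h5 : |b₀ * e + s * y| ≤ (V + 2 * |b₀|) * D := by
        refine (abs_add_le _ _).trans ?_
        rw [abs_mul, abs_mul, abs_of_pos he0, abs_of_pos hs0]
        have h6 : |b₀| * e ≤ |b₀| * (2 * D) := mul_le_mul_of_nonneg_left he (abs_nonneg _)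
        have h7 : s * |y| ≤ D * V := mul_le_mul hs hy (abs_nonneg _) (by positivity)
        linarith
      rw [← Int.cast_abs, ← Int.cast_abs]
      exact_mod_cast h5
    have h5 : TTA A (b₀ * e + s * y) x (i * s) = ∑ m ∈ Icc (1 : ℤ) ((A * x : ℕ) : ℤ),
        (if (A : ℤ) ∣ m - (b₀ * e + s * y) then (fun m => lamI m * lamI (m + i * s)) m else 0) := rfl
    rw [← h5] at h1
    have h6 := abs_le.1 h1
    have h7 := abs_le.1 h2
    linarith [h6.2, h7.2]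
  unfold UF
  rw [card_Icc_x]
  rcases lt_or_gt_of_ne hne with h | h
  · exact key y y' hy hy' h
  · refine le_trans (le_of_eq ?_) (key y' y hy' hy h)
    refine sum_congr rfl fun n _ => ?_
    beta_reduce
    rw [mul_comm (lzI (A * n + (b₀ * e + s * y)))]

/-- no cluster at a bad dilate -/
lemma contraF (m : ℕ) (a b : Fin (m + 2) → ℤ) (ha : ∀ i, 0 < a i)
    (hab : ∀ i j, i ≠ j → a i * b j ≠ a j * b i) {ε : ℝ} (hε : 0 < ε) :
    ∃ (V : ℕ) (η : ℝ) (K : ℕ), 1 ≤ V ∧ 0 < η ∧ ∀ D x : ℕ, K ≤ D → K * D ≤ x → ∀ σ : ℤ,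
      (σ = 1 ∨ σ = -1) → ∀ d : ℤ,
      (1 - 1 / (2 ^ (m + 1) - 1) + ε) * x < σ * CG a b x d →
      ¬ ∃ e s : ℤ, 0 < e ∧ e ≤ 2 * D ∧ 0 < s ∧ s ≤ D ∧ (((a 0).toNat : ℕ) : ℤ) ∣ s ∧
        (∀ c : ℤ, |c| ≤ V → |CG a b x (e + c * s) - CG a b x d| ≤ ε / 8 * x) ∧
        (∀ i ∈ Icc 1 V, ∀ r : ℤ, |TTA (a 0).toNat r x (i * s)| ≤ η * x) := by
  classical
  obtain ⟨g, hg⟩ : ∃ g : ℝ, g = 2 ^ (m + 1) - 1 := ⟨_, rfl⟩
  have hg0 : 0 < g := by
    rw [hg]
    have : (1 : ℝ) < 2 ^ (m + 1) := one_lt_pow₀ (by norm_num) (by omega)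
    linarith
  obtain ⟨A, hA⟩ : ∃ A : ℕ, A = (a 0).toNat := ⟨_, rfl⟩
  have hAa : (A : ℤ) = a 0 := by
    rw [hA]
    exact Int.toNat_of_nonneg (ha 0).le
  have hA1 : 1 ≤ A := by
    have := ha 0
    omega
  rw [← hA]
  obtain ⟨V, η, hV, hη, hrs⟩ := cube_fin m a b hab (ε * g / 4) (by positivity)
  have hVr : (1 : ℝ) ≤ V := by exact_mod_cast hV
  obtain ⟨K₀, hK₀⟩ := exists_nat_ge (8 * V / ε + 4 * (V + 2 * |(b 0 : ℝ)|) / η)
  refine ⟨2 * V, η / 2, K₀ + 1, by omega, by positivity, ?_⟩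
  rintro D x hD hDx σ hσ d hbad ⟨e, s, he0, he, hs0, hs, -, hcl, htwo⟩
  have hD0 : 0 < D := by omega
  have hDr : (0 : ℝ) < D := by exact_mod_cast hD0
  have hx0 : 0 < x := by
    have : 0 < (K₀ + 1) * D := by positivity
    omega
  have hxr : (0 : ℝ) < x := by exact_mod_cast hx0
  have hxD : (K₀ : ℝ) * D ≤ x := by
    have h1 : K₀ * D ≤ x := le_trans (Nat.mul_le_mul_right _ (by omega)) hDx
    exact_mod_cast h1
  have hb1 : 8 * (V : ℝ) * D ≤ ε * x := by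
    have h1 : 8 * V / ε ≤ K₀ := by
      have : (0 : ℝ) ≤ 4 * (V + 2 * |(b 0 : ℝ)|) / η := by positivity
      linarith
    rw [div_le_iff₀ hε] at h1
    nlinarith
  have hb2 : 4 * (V + 2 * |(b 0 : ℝ)|) * D ≤ η * x := by
    have h1 : 4 * (V + 2 * |(b 0 : ℝ)|) / η ≤ K₀ := by
      have : (0 : ℝ) ≤ 8 * V / ε := by positivity
      linarith
    rw [div_le_iff₀ hη] at h1
    nlinarith
  have hrel : ∀ t c : ℤ, |t| ≤ V → |c| ≤ V → FQ (Icc (1 : ℤ) x)
      (fun n => ∏ i, (fun i y n => lzI (a i * n + (b i * e + s * y))) i (a i * t + b i * c) n) σ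
      (1 / (2 * g) - ε / 2 + ε / 4) := by
    intro t c ht hc
    unfold FQ UF
    have h1 := wrong_sum (fun n i => a i * n + (b i * e + s * (a i * t + b i * c))) x σ hσ
    rw [card_Icc_x]
    refine le_trans (le_of_eq h1) ?_
    have h2 := shift_int (f := fun n => ∏ i, lamI (a i * n + b i * (e + c * s))) (fun n => by
      rcases prod_lamI (fun i => a i * n + b i * (e + c * s)) with h' | h' <;> rw [h'] <;> norm_num) x
      (s * t)
    have h3 : ∑ n ∈ Icc (1 : ℤ) x, ∏ i, lamI (a i * (n + s * t) + b i * (e + c * s)) =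
        ∑ n ∈ Icc (1 : ℤ) x, ∏ i, lamI (a i * n + (b i * e + s * (a i * t + b i * c))) := by
      refine sum_congr rfl fun n _ => prod_congr rfl fun i _ => ?_
      congr 1
      ring
    have h4 : ∑ n ∈ Icc (1 : ℤ) x, ∏ i, lamI (a i * n + b i * (e + c * s)) =
        CG a b x (e + c * s) := rfl
    beta_reduce at h2
    rw [h3, h4] at h2
    have h5 : |((s * t : ℤ) : ℝ)| ≤ V * D := by
      have h5 : |s * t| ≤ V * D := by
        rw [abs_mul, abs_of_pos hs0, mul_comm]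
        exact mul_le_mul ht hs hs0.le (by positivity)
      rw [← Int.cast_abs]
      exact_mod_cast h5
    have h6 := hcl c (hc.trans (by push_cast; linarith [abs_nonneg c]))
    have h7 := abs_le.1 h2
    have h8 := abs_le.1 h6
    have h9 : (1 - 1 / g + ε) * x - ε / 8 * x - 2 * V * D ≤
        σ * ∑ n ∈ Icc (1 : ℤ) x, ∏ i, lamI (a i * n + (b i * e + s * (a i * t + b i * c))) := by
      rw [← hg] at hbad
      rcases hσ with rfl | rfl
      · push_cast at hbad ⊢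
        linarith [h7.1, h8.1]
      · push_cast at hbad ⊢
        linarith [h7.2, h8.2]
    have h10 : (1 - 1 / g + ε) * (x : ℝ) = x - 2 * (1 / (2 * g)) * x + ε * x := by
      field_simp
    rw [h10] at h9
    nlinarith
  have hfin := hrs ℤ (Icc (1 : ℤ) x) (fun i y n => lzI (a i * n + (b i * e + s * y))) σ
    (1 / (2 * g) - ε / 2 + ε / 4)
    ⟨1, by rw [mem_Icc]; exact ⟨le_rfl, by exact_mod_cast hx0⟩⟩ (fun _ _ _ => lzI_pm _) hσ hrel
    (fun y y' hy hy' hne => by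
      have := two_UF' A hA1 (b 0) he0 he hs0 hs hb2 htwo y y' hy hy' hne
      rw [hAa] at this
      exact this)
  rw [← hg] at hfin
  have e1 : 2 * g * (1 / (2 * g) - ε / 2 + ε / 4) = 1 - ε * g / 2 := by
    field_simp
    ring
  rw [e1] at hfin
  have : 0 < ε * g := by positivity
  linarith

open Classical in
/-- **Every scale, almost all dilates.** -/
theorem formsW {t : ℕ} (m : ℕ) (a b : Fin (m + 2) → ℤ) (ha : ∀ i, 0 < a i)
    (hab : ∀ i j, i ≠ j → a i * b j ≠ a j * b i) (α β : Fin t → ℤ)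
    (hα : ∀ j, α j ≠ 0) (hαβ : ∀ j j', j ≠ j' → α j * β j' ≠ α j' * β j) {ε : ℝ} (hε : 0 < ε) :
    ∃ K : ℕ, ∀ D x : ℕ, K ≤ D → K * D ≤ x →
      ∑ d ∈ Icc (1 : ℤ) D, wt α β d *
        (if (1 - 1 / (2 ^ (m + 1) - 1) + ε) * x < |CG a b x d| then 1 else 0) ≤ ε * D := by
  obtain ⟨V, η, K₁, hV, hη, hcon⟩ := contraF m a b ha hab hε
  have hA1 : 1 ≤ (a 0).toNat := by
    have := ha 0
    omega
  obtain ⟨K₂, hcl⟩ := cluster (by omega : 0 < m + 2) a b ha α β hα hαβ (a 0).toNat V hA1 hV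
    (κ := ε / 8) (η := η) (ε := ε / 2) (by positivity) hη (by positivity)
  refine ⟨K₁ + K₂, fun D x hD hDx => ?_⟩
  have hx1 : K₁ * D ≤ x := le_trans (Nat.mul_le_mul_right _ (by omega)) hDx
  have hx2 : K₂ * D ≤ x := le_trans (Nat.mul_le_mul_right _ (by omega)) hDx
  obtain ⟨T, hT⟩ : ∃ T : ℝ, T = (1 - 1 / (2 ^ (m + 1) - 1) + ε) * x := ⟨_, rfl⟩
  have hσ : ∀ σ : ℤ, (σ = 1 ∨ σ = -1) → ∑ d ∈ Icc (1 : ℤ) D, wt α β d *
      (if T < σ * CG a b x d then 1 else 0) ≤ ε / 2 * D := by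
    intro σ hσ
    exact hcl D x (by omega) hx2 (fun d => T < σ * CG a b x d)
      (fun d _ hd => hcon D x (by omega) hx1 σ hσ d (by rw [← hT]; exact hd))
  have h1 := hσ 1 (Or.inl rfl)
  have h2 := hσ (-1) (Or.inr rfl)
  rw [← hT]
  have h3 : ∑ d ∈ Icc (1 : ℤ) D, wt α β d * (if T < |CG a b x d| then 1 else 0) ≤
      ∑ d ∈ Icc (1 : ℤ) D, (wt α β d * (if T < ((1 : ℤ) : ℝ) * CG a b x d then 1 else 0) +
      wt α β d * (if T < ((-1 : ℤ) : ℝ) * CG a b x d then 1 else 0)) := by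
    refine sum_le_sum fun d _ => ?_
    have hw := wt_nonneg α β d
    rw [← mul_add]
    refine mul_le_mul_of_nonneg_left ?_ hw
    push_cast
    rw [one_mul, neg_one_mul]
    by_cases h4 : T < |CG a b x d|
    · rw [if_pos h4]
      rcases lt_abs.1 h4 with h5 | h5
      · rw [if_pos h5]
        split_ifs <;> norm_num
      · rw [if_pos h5]
        split_ifs <;> norm_num
    · rw [if_neg h4]
      split_ifs <;> norm_num
  refine h3.trans ?_
  rw [sum_add_distrib]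
  refine (add_le_add h1 h2).trans ?_
  linarith

end Pool.Agent.Helper81.Ev
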