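import Pool.Agent.Helper81.Ev.CubeM
import Pool.Agent.Helper81.Gap.Fin

/-!
The bound with `2 ^ (k - 1) - 1` relations, on periodic sets and for linear forms, at almost all scales.
-/

set_option autoImplicit false

open Finset Filter Topology

namespace Pool.Agent.Helper81.Ev

open Pool.Agent.Helper81.Gap
open Pool.Agent.TH112.BL (Bd)
open Pool.Agent.H376R2.MR (lam)
open Pool.Agent.Y958.TC (NM ind Bd_ind ind_nonneg m_shift Av)
open Pool.Agent.Y958.U

lemma V_shift {V : ℕ → Prop} {A : ℕ} (hV : ∀ n, V (n + A) ↔ V n) {T : ℤ} (hT : (A : ℤ) ∣ T) {n n' : ℕ}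
    (h : (n : ℤ) + T = n') : V n' ↔ V n := by
  have hVk : ∀ k n, V (n + A * k) ↔ V n := by
    intro k
    induction k with
    | zero => intro n; simp
    | succ k ih =>
      intro n
      rw [mul_add, mul_one, ← add_assoc, hV, ih]
  obtain ⟨k, rfl⟩ := hT
  rcases le_total 0 k with hk | hk
  · obtain ⟨j, rfl⟩ := Int.eq_ofNat_of_zero_le hk
    have e : n' = n + A * j := by
      have : ((n' : ℕ) : ℤ) = ((n + A * j : ℕ) : ℤ) := by
        push_cast
        linarith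
      exact_mod_cast this
    rw [e, hVk]
  · obtain ⟨j, hj⟩ := Int.eq_ofNat_of_zero_le (by omega : 0 ≤ -k)
    have e : n = n' + A * j := by
      have : ((n : ℕ) : ℤ) = ((n' + A * j : ℕ) : ℤ) := by
        push_cast
        rw [← h]
        have h1 : k = -(j : ℤ) := by omega
        rw [h1]
        ring
      exact_mod_cast this
    rw [e, hVk]

/-- **the bound for periodic sets** -/
theorem cubeJ_LZ (m : ℕ) (x : Fin (m + 2) → ℕ) (hx : Function.Injective x) (V : ℕ → Prop) (A : ℕ)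
    (hA : 1 ≤ A) (hV : ∀ n, V (n + A) ↔ V n) (hv : 0 < dv V A) (q : ℝ)
    (hq : 2 * (2 ^ (m + 1) - 1) * q < 1) :
    LZ {N | (1 - 2 * q) * dv V A < |Av N (fun n => ind V n * ∏ i, (lam (n + x i) : ℝ))|} := by
  classical
  by_contra hcon
  obtain ⟨v, hvd⟩ : ∃ v : ℝ, v = dv V A := ⟨_, rfl⟩
  obtain ⟨Q, hQ⟩ : ∃ Q : ℝ, Q = 2 * (2 ^ (m + 1) - 1) := ⟨_, rfl⟩
  have hQ0 : 0 < Q := by
    rw [hQ]
    have : (1 : ℝ) < 2 ^ (m + 1) := one_lt_pow₀ (by norm_num) (by omega)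
    linarith
  rw [← hQ] at hq
  obtain ⟨ε, hε⟩ : ∃ ε : ℝ, ε = (1 - Q * q) / 2 := ⟨_, rfl⟩
  have hε0 : 0 < ε := by rw [hε]; linarith
  obtain ⟨B, hB⟩ := cube_NM m (fun _ => 1) (fun i => (x i : ℤ)) (by
    intro i j hij h
    apply hij
    apply hx
    have h1 : (1 : ℤ) * (x j : ℤ) = 1 * (x i : ℤ) := h
    have h2 : (x i : ℤ) = x j := by linarith
    exact_mod_cast h2) ε hε0
  rw [← hvd] at hv
  obtain ⟨μ, htwo, σ, hσ, u, d, hd, hAd, hrel⟩ := nt (m + 2) x V A hA hV q hcon (v * (ε / (2 * Q)))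
    (by positivity) (2 * B + 2)
  have hmV : μ.m (ind V) = v := by rw [m_V μ hA hV, hvd]
  have hAd' : (A : ℤ) ∣ d := by exact_mod_cast hAd (by omega)
  obtain ⟨u', hu'⟩ : ∃ u' : ℤ, u' = u + B * d := ⟨_, rfl⟩
  obtain ⟨f, hf⟩ : ∃ f : Fin (m + 2) → ℤ → ℕ → ℤ, ∀ i y n, f i y n =
      lam (((n : ℤ) + (u' * x i + d * y)).toNat) := ⟨_, fun _ _ _ => rfl⟩
  have hfpm : ∀ i y n, f i y n = 1 ∨ f i y n = -1 := fun i y n => by rw [hf]; exact lam_pm _
  have h1 : ∀ t c : ℤ, |t| ≤ B → |c| ≤ B → FM μ V (fun n => ∏ i, f i ((fun _ => (1 : ℤ)) i * t +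
      (fun i => (x i : ℤ)) i * c) n) σ (q + ε / (2 * Q)) := by
    intro t c _ hc
    rw [abs_le] at hc
    obtain ⟨c', hc'⟩ := Int.eq_ofNat_of_zero_le (by omega : 0 ≤ B + c)
    have hc2 : c' < 2 * B + 2 := by omega
    obtain ⟨-, -, h2⟩ := hrel c' hc2
    refine ⟨Bd_ite _, ?_⟩
    rw [hmV]
    have e0 : (q + ε / (2 * Q)) * v = q * dv V A + v * (ε / (2 * Q)) := by rw [← hvd]; ring
    rw [e0]
    refine le_trans (le_of_eq ?_) h2
    obtain ⟨T, hT⟩ : ∃ T : ℤ, T = d * t := ⟨_, rfl⟩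
    have hAT : (A : ℤ) ∣ T := by rw [hT]; exact Dvd.dvd.mul_right hAd' _
    rw [← m_shiftZ μ (ind (fun n => V n ∧ ∏ i, lam (n + (u + c' * d) * x i) ≠ σ)) (Bd_ind _) T]
    apply μ.congr_large (Bd_mul_ind (Bd_ite _) V) ⟨1, fun n => by unfold ind; split_ifs <;> norm_num⟩
      T.natAbs
    intro n hn
    have h3 : (0 : ℤ) ≤ n + T := by omega
    have e : ∀ i, f i ((fun _ => (1 : ℤ)) i * t + (fun i => (x i : ℤ)) i * c) n =
        lam ((((n : ℤ) + T).toNat) + (u + c' * d) * x i) := by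
      intro i
      rw [hf]
      congr 1
      have h4 : u' * x i + d * (1 * t + x i * c) = T + ((u + c' * d) * x i : ℕ) := by
        push_cast
        rw [hT, ← hc', hu']
        ring
      beta_reduce
      rw [h4, ← add_assoc, Int.toNat_add_nat h3]
    have hVV : V ((n : ℤ) + T).toNat ↔ V n := V_shift hV hAT (Int.toNat_of_nonneg h3).symm
    have hprod := prod_congr (rfl : (univ : Finset (Fin (m + 2))) = univ) fun i _ => e i
    unfold ind
    by_cases hVn : V n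
    · rw [if_pos hVn, one_mul]
      by_cases h5 : ∏ i, lam ((((n : ℤ) + T).toNat) + (u + c' * d) * x i) = σ
      · rw [if_neg (not_not.2 (hprod.trans h5)), if_neg (fun h => h.2 h5)]
      · rw [if_pos (fun h => h5 (hprod.symm.trans h)), if_pos ⟨hVV.2 hVn, h5⟩]
    · rw [if_neg hVn, zero_mul, if_neg (fun h => hVn (hVV.1 h.1))]
  have h2 : ∀ y y' : ℤ, y ≠ y' → μ.m (fun n => ind V n * ((f 0 y n * f 0 y' n : ℤ) : ℝ)) = 0 := by
    have h3 : ∀ y y' : ℤ, y < y' → μ.m (fun n => ind V n * ((f 0 y n * f 0 y' n : ℤ) : ℝ)) = 0 := by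
      intro y y' hyy
      obtain ⟨R, hR⟩ := Int.eq_ofNat_of_zero_le (by
        have : (0 : ℤ) ≤ d := by positivity
        nlinarith : 0 ≤ d * (y' - y))
      have hR1 : 1 ≤ R := by
        have : (1 : ℤ) ≤ d := by exact_mod_cast hd
        have h4 : (1 : ℤ) ≤ R := by rw [← hR]; nlinarith
        exact_mod_cast h4
      have h5 := htwo (u' * x 0 + d * y) R hR1
      rw [← h5]
      congr 1
      funext n
      have e2 : (n : ℤ) + (u' * x 0 + d * y') = (n : ℤ) + (u' * x 0 + d * y) + R := by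
        rw [← hR]; ring
      rw [hf, hf, e2]
    intro y y' hne
    rcases lt_or_gt_of_ne hne with h | h
    · exact h3 y y' h
    · rw [← h3 y' y h]
      congr 1
      funext n
      rw [mul_comm (f 0 y n)]
  have h3 := hB μ V f σ (q + ε / (2 * Q)) (by rw [hmV]; exact hv) hfpm hσ h1 h2
  rw [← hQ] at h3
  have h4 : Q * (q + ε / (2 * Q)) = Q * q + ε / 2 := by
    field_simp
  rw [h4] at h3
  linarith

/-- linear forms -/
lemma formsJ_Icc (m : ℕ) (a b : Fin (m + 2) → ℕ) (ha : ∀ i, 1 ≤ a i)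
    (hab : ∀ i j, i ≠ j → a i * b j ≠ a j * b i) (ε : ℝ) (hε : 0 < ε) :
    LZ {N | (1 - 1 / (2 ^ (m + 1) - 1) + ε) * N < |∑ n ∈ Icc 1 N, FF a b n|} := by
  classical
  obtain ⟨Q, hQ⟩ : ∃ Q : ℝ, Q = 2 * (2 ^ (m + 1) - 1) := ⟨_, rfl⟩
  have hQ1 : 1 ≤ Q := by
    rw [hQ]
    have : (2 : ℝ) ^ 1 ≤ 2 ^ (m + 1) := pow_le_pow_right₀ (by norm_num) (by omega)
    linarith
  have hQ0 : 0 < Q := by linarith
  set δ : ℝ := min ε (1 / Q) with hδ
  have hδ0 : 0 < δ := by rw [hδ]; positivity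
  have hδ1 : δ ≤ ε := min_le_left _ _
  have hδ2 : δ ≤ 1 / Q := min_le_right _ _
  set q : ℝ := 1 / Q - δ / 4 with hq
  have hq0 : 0 ≤ q := by rw [hq]; linarith
  have hqQ : Q * q < 1 := by
    have : Q * q = 1 - Q * δ / 4 := by rw [hq]; field_simp
    rw [this]
    have : 0 < Q * δ := mul_pos hQ0 hδ0
    linarith
  set A : ℕ := ∏ i, a i with hAd
  have hA : 1 ≤ A := Nat.one_le_iff_ne_zero.2 (prod_ne_zero_iff.2 fun i _ => by have := ha i; omega)
  have hA0 : (0 : ℝ) < A := by exact_mod_cast hA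
  set B : Fin (m + 2) → ℕ := fun i => ∏ j ∈ univ.erase i, a j with hB
  have hBA : ∀ i, a i * B i = A := by
    intro i
    rw [hB, hAd]
    exact mul_prod_erase univ a (mem_univ i)
  have hB0 : ∀ i, B i ≠ 0 := fun i h => by
    have := hBA i
    rw [h, mul_zero] at this
    omega
  set x : Fin (m + 2) → ℕ := fun i => B i * b i with hx
  have hxi : Function.Injective x := by
    intro i j hij
    by_contra hne
    apply hab i j hne
    simp only [hx] at hij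
    have h1 : A * (a i * b j) = A * (a j * b i) := by
      calc A * (a i * b j) = a i * (a j * (B j * b j)) := by rw [← hBA j]; ring
        _ = a i * (a j * (B i * b i)) := by rw [hij]
        _ = A * (a j * b i) := by rw [← hBA i]; ring
    exact Nat.eq_of_mul_eq_mul_left (by omega) h1
  have hV : ∀ n, A ∣ n + A ↔ A ∣ n := fun n => by
    rw [Nat.dvd_add_left (dvd_refl A)]
  have h1 := cubeJ_LZ m x hxi (fun m => A ∣ m) A hA hV (by rw [dv_mult A hA]; positivity) q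
    (by rw [← hQ]; exact hqQ)
  rw [dv_mult A hA] at h1
  set E : Set ℕ := {N | (1 - 2 * q) * (1 / (A : ℝ)) <
    |Av N (fun n => ind (fun m => A ∣ m) n * ∏ i, ((lam (n + x i) : ℤ) : ℝ))|} with hE
  have h2 := LZ_union (LZ_pull E A hA h1) (LZ_bdd {N | N < ⌈4 / δ⌉₊} _ fun n hn => hn)
  refine LZ_sub ?_ h2
  intro N hN
  by_cases hNK : N < ⌈4 / δ⌉₊
  · exact Or.inr hNK
  left
  rw [Set.mem_setOf_eq] at hN ⊢
  rw [hE, Set.mem_setOf_eq]
  have hNr : 4 / δ ≤ N := (Nat.le_ceil _).trans (Nat.cast_le.2 (not_lt.1 hNK))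
  rw [div_le_iff₀ hδ0] at hNr
  have hlam1 : ∀ n, ((lam n : ℤ) : ℝ) * ((lam n : ℤ) : ℝ) = 1 := by
    intro n
    rw [lam_real, ← mul_pow]
    norm_num
  have hFF : ∀ n ∈ Icc 1 N, FF a b n = (∏ i, ((lam (B i) : ℤ) : ℝ)) * ∏ i, ((lam (A * n + x i) : ℤ) : ℝ) := by
    intro n hn
    rw [mem_Icc] at hn
    unfold FF
    rw [← prod_mul_distrib]
    apply prod_congr rfl
    intro i _
    have e1 : A * n + x i = B i * (a i * n + b i) := by
      simp only [hx]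
      rw [← hBA i]
      ring
    have e2 : a i * n + b i ≠ 0 := by
      have : 1 ≤ a i * n := Nat.one_le_iff_ne_zero.2 (Nat.mul_ne_zero (by have := ha i; omega) (by omega))
      omega
    rw [e1, lam_real (B i * _), ArithmeticFunction.cardFactors_mul (hB0 i) e2, pow_add, ← lam_real (B i),
      ← mul_assoc, hlam1, one_mul]
  have hsum : ∑ n ∈ Icc 1 N, FF a b n =
      (∏ i, ((lam (B i) : ℤ) : ℝ)) * ∑ n ∈ Icc 1 N, ∏ i, ((lam (A * n + x i) : ℤ) : ℝ) := by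
    rw [mul_sum]
    exact sum_congr rfl hFF
  have hB1 : |∏ i, ((lam (B i) : ℤ) : ℝ)| = 1 := by
    rw [abs_prod]
    apply prod_eq_one
    intro i _
    rw [lam_real, abs_pow, abs_neg, abs_one, one_pow]
  rw [hsum, abs_mul, hB1, one_mul] at hN
  have hAv : Av (A * (N + 1)) (fun n => ind (fun m => A ∣ m) n * ∏ i, ((lam (n + x i) : ℤ) : ℝ)) =
      (∏ i, ((lam (A * 0 + x i) : ℤ) : ℝ) + ∑ n ∈ Icc 1 N, ∏ i, ((lam (A * n + x i) : ℤ) : ℝ)) /
        (A * ((N : ℝ) + 1)) := by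
    unfold Pool.Agent.Y958.TC.Av
    rw [Pool.Agent.Y958.U.sum_mult A (N + 1) hA]
    congr 1
    · rw [sum_range_succ', add_comm]
      congr 1
      exact sum_range_Icc (fun n => ∏ i, ((lam (A * n + x i) : ℤ) : ℝ)) N
    · push_cast
      ring
  rw [hAv, abs_div, abs_of_pos (by positivity : (0 : ℝ) < A * ((N : ℝ) + 1)), lt_div_iff₀ (by positivity)]
  have h0 : |∏ i, ((lam (A * 0 + x i) : ℤ) : ℝ)| ≤ 1 := by
    rw [abs_prod]
    apply le_of_eq
    apply prod_eq_one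
    intro i _
    rw [lam_real, abs_pow, abs_neg, abs_one, one_pow]
  have h3 : |∑ n ∈ Icc 1 N, ∏ i, ((lam (A * n + x i) : ℤ) : ℝ)| - 1 ≤
      |∏ i, ((lam (A * 0 + x i) : ℤ) : ℝ) + ∑ n ∈ Icc 1 N, ∏ i, ((lam (A * n + x i) : ℤ) : ℝ)| := by
    have h4 := abs_sub_abs_le_abs_sub (∑ n ∈ Icc 1 N, ∏ i, ((lam (A * n + x i) : ℤ) : ℝ))
      (-(∏ i, ((lam (A * 0 + x i) : ℤ) : ℝ)))
    rw [abs_neg, sub_neg_eq_add, add_comm (∑ n ∈ Icc 1 N, _)] at h4
    linarith
  have e5 : (1 - 2 * q) * (1 / (A : ℝ)) * (A * ((N : ℝ) + 1)) = (1 - 2 * q) * (N + 1) := by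
    field_simp
  rw [e5]
  have e8 : 1 / ((2 : ℝ) ^ (m + 1) - 1) = 2 / Q := by
    rw [hQ]
    rw [div_mul_eq_div_div]
    norm_num
  rw [e8] at hN
  have e6 : 1 - 2 * q = 1 - 2 / Q + δ / 2 := by rw [hq]; ring
  have e7 : 1 - 2 * q ≤ 1 := by linarith
  nlinarith

end Pool.Agent.Helper81.Ev
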