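import Pool.Agent.Helper81.Ev.FormsJ
import Pool.Graph.R_pool_sql_team_seeded_b677cdb8.E8helper83.WS.Split

/-!
Split polynomials in progressions at almost all scales, with the explicit gap.
-/

set_option autoImplicit false

open Finset Filter Topology

namespace Pool.Agent.Helper81.Ev

open Pool.Agent.Helper81.Gap
open Pool.Agent.Y958.U
open Pool.Agent.E8helper83.WS (lamZ lamZ_le lamZ_mul lamZ_prod lamZ_neg)

/-- pull-back of a set of scales along `X ↦ (X - r) / q` -/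
lemma LZ_affine (E : Set ℕ) (hE : LZ E) (q r : ℕ) (hq : 1 ≤ q) : LZ {X | (X - r) / q ∈ E} := by
  classical
  obtain ⟨G, hG⟩ : ∃ G : Set ℕ, G = {X | (X - r) / q ∈ E ∧ r + q ≤ X} := ⟨_, rfl⟩
  have h1 : LZ G := by
    rw [LZ_iff] at *
    intro ε hε
    obtain ⟨X₀, hX₀⟩ := hE ε hε
    refine ⟨X₀, fun X hX => le_trans ?_ (hX₀ X hX)⟩
    rw [ls_eq, ls_eq]
    obtain ⟨S, hS⟩ : ∃ S : Finset ℕ, S = (Icc 1 X).filter (fun n => r + q ≤ n) := ⟨_, rfl⟩
    have h2 : ∑ n ∈ Icc 1 X, li G n = ∑ n ∈ S, li G n := by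
      rw [hS, sum_filter]
      refine sum_congr rfl fun n _ => ?_
      split_ifs with h3
      · rfl
      · refine li_not fun h4 => h3 ?_
        rw [hG] at h4
        exact h4.2
    have hmap : ∀ n ∈ S, (n - r) / q ∈ Icc 1 X := by
      intro n hn
      rw [hS, mem_filter, mem_Icc] at hn
      rw [mem_Icc]
      refine ⟨?_, ?_⟩
      · rw [Nat.le_div_iff_mul_le (by omega)]
        omega
      · exact (Nat.div_le_self _ _).trans (by omega)
    rw [h2, ← sum_fiberwise_of_maps_to hmap]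
    apply sum_le_sum
    intro N hN
    rw [mem_Icc] at hN
    have hN0 : (0 : ℝ) < N := by exact_mod_cast (by omega : 0 < N)
    have hq0 : (0 : ℝ) < q := by exact_mod_cast (by omega : 0 < q)
    by_cases hNE : N ∈ E
    · rw [li_mem hNE]
      have hsub : S.filter (fun n => (n - r) / q = N) ⊆ Ico (r + q * N) (r + q * N + q) := by
        intro n hn
        rw [mem_filter, hS, mem_filter, mem_Icc] at hn
        rw [mem_Ico]
        obtain ⟨⟨h3, h4⟩, h5⟩ := hn
        have h6 := Nat.div_mul_le_self (n - r) q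
        have h7 := Nat.lt_div_mul_add (a := n - r) (by omega : 0 < q)
        rw [h5] at h6 h7
        have h8 : N * q = q * N := mul_comm _ _
        omega
      have hcard : (S.filter (fun n => (n - r) / q = N)).card ≤ q := by
        refine (card_le_card hsub).trans (le_of_eq ?_)
        rw [Nat.card_Ico]
        omega
      have h3 : ∀ n ∈ S.filter (fun n => (n - r) / q = N), li G n ≤ 1 / ((q : ℝ) * N) := by
        intro n hn
        have h4 := hsub hn
        rw [mem_Ico] at h4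
        have h5 : (q : ℝ) * N ≤ n := by exact_mod_cast (by omega : q * N ≤ n)
        unfold li
        split_ifs
        · exact one_div_le_one_div_of_le (by positivity) h5
        · positivity
      calc ∑ n ∈ S.filter (fun n => (n - r) / q = N), li G n ≤
          ∑ _n ∈ S.filter (fun n => (n - r) / q = N), 1 / ((q : ℝ) * N) := sum_le_sum h3
        _ = (S.filter (fun n => (n - r) / q = N)).card * (1 / ((q : ℝ) * N)) := by
            rw [sum_const, nsmul_eq_mul]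
        _ ≤ q * (1 / ((q : ℝ) * N)) := by
            apply mul_le_mul_of_nonneg_right _ (by positivity)
            exact_mod_cast hcard
        _ = 1 / N := by field_simp
    · rw [li_not hNE]
      apply le_of_eq
      apply sum_eq_zero
      intro n hn
      rw [mem_filter] at hn
      refine li_not fun h4 => hNE ?_
      rw [hG] at h4
      have h5 : (n - r) / q ∈ E := h4.1
      rwa [hn.2] at h5
  refine LZ_sub ?_ (LZ_union h1 (LZ_bdd {X | X < r + q} _ fun n hn => hn))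
  intro X hX
  by_cases h : X < r + q
  · exact Or.inr h
  · left
    rw [hG]
    exact ⟨hX, not_lt.1 h⟩

/-- the one-sided sum -/
noncomputable def oneS {k : ℕ} (a b : Fin k → ℤ) (q : ℕ) (r : ℤ) (X : ℕ) : ℝ :=
  ∑ v ∈ (Ioc (0 : ℤ) X).filter (fun v => v ≡ r [ZMOD q]), lamZ (∏ i, (a i * v + b i))

/-- reduction of the one-sided sum to natural forms -/
theorem one_reduce {k : ℕ} (a b : Fin k → ℤ) (ha : ∀ i, a i ≠ 0)
    (hab : ∀ i j, i ≠ j → a i * b j ≠ a j * b i) (q : ℕ) (hq : 1 ≤ q) (r : ℤ) :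
    ∃ (r' : ℕ) (A B : Fin k → ℕ), (∀ i, 1 ≤ A i) ∧ (∀ i j, i ≠ j → A i * B j ≠ A j * B i) ∧
      ∀ X : ℕ, r' ≤ X → |oneS a b q r X| ≤ r' + |∑ n ∈ Icc 1 ((X - r') / q), FF A B n| := by
  classical
  have hq0 : (0 : ℤ) < q := by exact_mod_cast hq
  have hqR : (0 : ℝ) < q := by exact_mod_cast hq
  -- a large representative of the class
  set S : ℕ := ∑ i, (b i).natAbs with hS
  obtain ⟨r', hr1, hr2⟩ : ∃ r' : ℕ, ((r' : ℕ) : ℤ) ≡ r [ZMOD q] ∧ S ≤ r' := by
    have h1 : 0 ≤ r % (q : ℤ) := Int.emod_nonneg _ hq0.ne'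
    refine ⟨(r % (q : ℤ)).toNat + q * S, ?_, ?_⟩
    · push_cast
      rw [Int.toNat_of_nonneg h1]
      have h2 : r % (q : ℤ) + q * (S : ℤ) ≡ r % (q : ℤ) + 0 [ZMOD q] :=
        Int.ModEq.add_left _ ((Int.modEq_zero_iff_dvd).2 (dvd_mul_right _ _))
      rw [add_zero] at h2
      exact h2.trans (Int.mod_modEq r q)
    · calc S = 1 * S := (one_mul S).symm
        _ ≤ q * S := Nat.mul_le_mul_right S hq
        _ ≤ _ := Nat.le_add_left _ _
  have hbr : ∀ i, |b i| ≤ (r' : ℤ) := by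
    intro i
    have h1 : (b i).natAbs ≤ S := single_le_sum (f := fun i => (b i).natAbs) (fun _ _ => Nat.zero_le _) (mem_univ i)
    have h2 : ((b i).natAbs : ℤ) ≤ r' := by exact_mod_cast h1.trans hr2
    rwa [Int.natCast_natAbs] at h2
  -- the natural forms
  set A : Fin k → ℕ := fun i => (a i).natAbs * q with hA
  set B : Fin k → ℕ := fun i => ((a i).sign * (a i * r' + b i)).toNat with hB
  have hsgn : ∀ i, (a i).sign * a i = ((a i).natAbs : ℤ) := by
    intro i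
    rw [Int.sign_mul_self_eq_abs, Int.natCast_natAbs]
  have hsq : ∀ i, (a i).sign * (a i).sign = 1 := by
    intro i
    rcases lt_trichotomy (a i) 0 with h | h | h
    · rw [Int.sign_eq_neg_one_of_neg h]; norm_num
    · exact absurd h (ha i)
    · rw [Int.sign_eq_one_of_pos h]; norm_num
  have hsb : ∀ i, |(a i).sign * b i| = |b i| := by
    intro i
    rcases lt_trichotomy (a i) 0 with h | h | h
    · rw [Int.sign_eq_neg_one_of_neg h, neg_one_mul, abs_neg]
    · exact absurd h (ha i)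
    · rw [Int.sign_eq_one_of_pos h, one_mul]
  have hBnn : ∀ i, 0 ≤ (a i).sign * (a i * r' + b i) := by
    intro i
    have h1 : (a i).sign * (a i * r' + b i) = ((a i).natAbs : ℤ) * r' + (a i).sign * b i := by
      rw [mul_add, ← mul_assoc, hsgn]
    rw [h1]
    have h2 : (1 : ℤ) ≤ ((a i).natAbs : ℤ) := by
      have := Int.natAbs_pos.2 (ha i)
      exact_mod_cast this
    have h3 := neg_abs_le ((a i).sign * b i)
    rw [hsb] at h3
    have h4 := hbr i
    have h5 : (0 : ℤ) ≤ r' := Int.natCast_nonneg _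
    nlinarith
  have hBc : ∀ i, ((B i : ℕ) : ℤ) = (a i).sign * (a i * r' + b i) := fun i => Int.toNat_of_nonneg (hBnn i)
  have hA1 : ∀ i, 1 ≤ A i := fun i => Nat.one_le_iff_ne_zero.2
    (Nat.mul_ne_zero (Int.natAbs_ne_zero.2 (ha i)) (by omega))
  have hAB : ∀ i j, i ≠ j → A i * B j ≠ A j * B i := by
    intro i j hij h
    have h1 : ((A i * B j : ℕ) : ℤ) = ((A j * B i : ℕ) : ℤ) := by rw [h]
    push_cast [hA] at h1
    rw [hBc, hBc, ← Int.sign_mul_self_eq_abs, ← Int.sign_mul_self_eq_abs] at h1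
    have h2 : ((a i).sign * (a j).sign * q) * (a i * b j - a j * b i) = 0 := by linear_combination h1
    have h3 : ∀ i, (a i).sign ≠ 0 := fun i h => by
      have := hsq i
      rw [h] at this
      norm_num at this
    rcases mul_eq_zero.1 h2 with h4 | h4
    · exact (mul_ne_zero (mul_ne_zero (h3 i) (h3 j)) hq0.ne') h4
    · exact hab i j hij (sub_eq_zero.1 h4)
  have hval : ∀ n : ℕ, 1 ≤ n → lamZ (∏ i, (a i * ((r' : ℤ) + q * n) + b i)) = Pool.Agent.Y958.U.FF A B n := by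
    intro n hn
    rw [lamZ_prod]
    unfold Pool.Agent.Y958.U.FF
    apply prod_congr rfl
    intro i _
    have h1 : a i * ((r' : ℤ) + q * n) + b i = (a i).sign * ((A i * n + B i : ℕ) : ℤ) := by
      push_cast
      rw [hBc]
      simp only [hA]
      push_cast
      rw [← Int.sign_mul_self_eq_abs]
      linear_combination (-(a i * q * n) - (a i * r' + b i)) * hsq i
    have h2 : A i * n + B i ≠ 0 := by
      have := Nat.mul_ne_zero (Nat.one_le_iff_ne_zero.1 (hA1 i)) (Nat.one_le_iff_ne_zero.1 hn)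
      omega
    have h3 : lamZ ((A i * n + B i : ℕ) : ℤ) = (-1 : ℝ) ^ ArithmeticFunction.cardFactors (A i * n + B i) := by
      unfold lamZ
      rw [if_neg (by exact_mod_cast h2), Int.natAbs_natCast]
    rw [h1, lamZ_mul, h3]
    have h4 : lamZ ((a i).sign) = 1 := by
      unfold lamZ
      rcases lt_trichotomy (a i) 0 with h | h | h
      · rw [Int.sign_eq_neg_one_of_neg h]; simp
      · exact absurd h (ha i)
      · rw [Int.sign_eq_one_of_pos h]; simp
    rw [h4, one_mul]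
  refine ⟨r', A, B, hA1, hAB, fun X hX => ?_⟩
  unfold oneS
  -- split
  set N : ℕ := (X - r') / q with hN
  have hset : (Ioc (0 : ℤ) X).filter (fun v => v ≡ r [ZMOD q]) =
      (Ioc (0 : ℤ) r').filter (fun v => v ≡ r [ZMOD q]) ∪
        (Icc 1 N).image (fun n : ℕ => (r' : ℤ) + q * n) := by
    ext v
    simp only [mem_union, mem_filter, mem_Ioc, mem_image, mem_Icc]
    constructor
    · rintro ⟨⟨h1, h2⟩, h3⟩
      by_cases h4 : v ≤ r'
      · left
        exact ⟨⟨h1, h4⟩, h3⟩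
      · right
        push Not at h4
        have h5 : (q : ℤ) ∣ v - r' := by
          have h6 : ((r' : ℕ) : ℤ) ≡ v [ZMOD q] := hr1.trans h3.symm
          exact h6.dvd
        obtain ⟨m, hm⟩ := h5
        have hm0 : 0 < m := by
          by_contra hcon
          push Not at hcon
          have : (q : ℤ) * m ≤ 0 := mul_nonpos_of_nonneg_of_nonpos hq0.le hcon
          omega
        refine ⟨m.toNat, ⟨by omega, ?_⟩, ?_⟩
        · rw [hN, Nat.le_div_iff_mul_le (by omega)]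
          have h7 : ((m.toNat * q : ℕ) : ℤ) ≤ ((X - r' : ℕ) : ℤ) := by
            rw [Nat.cast_sub (by omega)]
            push_cast
            rw [Int.toNat_of_nonneg hm0.le, mul_comm]
            omega
          exact_mod_cast h7
        · rw [Int.toNat_of_nonneg hm0.le]
          omega
    · rintro (⟨⟨h1, h2⟩, h3⟩ | ⟨n, ⟨h1, h2⟩, rfl⟩)
      · refine ⟨⟨h1, ?_⟩, h3⟩
        have : (r' : ℤ) ≤ X := by exact_mod_cast (by omega : r' ≤ X)
        omega
      · have h5 : N * q ≤ X - r' := Nat.div_mul_le_self _ _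
        have h6 : n * q ≤ N * q := Nat.mul_le_mul_right q h2
        have h7 : n * q + r' ≤ X := by omega
        have h8 : ((n : ℤ) * q + r') ≤ X := by exact_mod_cast h7
        have h9 : (0 : ℤ) < (q : ℤ) * n := mul_pos hq0 (by exact_mod_cast h1)
        refine ⟨⟨by positivity, by linarith⟩, ?_⟩
        have h10 : (r' : ℤ) + q * n ≡ r' + 0 [ZMOD q] :=
          Int.ModEq.add_left _ ((Int.modEq_zero_iff_dvd).2 (dvd_mul_right _ _))
        rw [add_zero] at h10
        exact h10.trans hr1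
  have hdisj : Disjoint ((Ioc (0 : ℤ) r').filter (fun v => v ≡ r [ZMOD q]))
      ((Icc 1 N).image (fun n : ℕ => (r' : ℤ) + q * n)) := by
    rw [Finset.disjoint_left]
    intro v h1 h2
    rw [mem_filter, mem_Ioc] at h1
    rw [mem_image] at h2
    obtain ⟨n, hn, rfl⟩ := h2
    rw [mem_Icc] at hn
    have h9 : (0 : ℤ) < (q : ℤ) * n := mul_pos hq0 (by exact_mod_cast hn.1)
    omega
  rw [hset, sum_union hdisj, sum_image (by
    intro x _ y _ hxy
    simp only at hxy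
    have : (q : ℤ) * x = q * y := by linarith
    exact_mod_cast mul_left_cancel₀ hq0.ne' this)]
  rw [sum_congr rfl (fun n hn => hval n (mem_Icc.1 hn).1)]
  have h1 : |∑ v ∈ (Ioc (0 : ℤ) r').filter (fun v => v ≡ r [ZMOD q]), lamZ (∏ i, (a i * v + b i))| ≤ r' := by
    calc |∑ v ∈ (Ioc (0 : ℤ) r').filter (fun v => v ≡ r [ZMOD q]), lamZ (∏ i, (a i * v + b i))| ≤
          ∑ v ∈ (Ioc (0 : ℤ) r').filter (fun v => v ≡ r [ZMOD q]), |lamZ (∏ i, (a i * v + b i))| :=
          abs_sum_le_sum_abs _ _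
      _ ≤ ∑ v ∈ (Ioc (0 : ℤ) r').filter (fun v => v ≡ r [ZMOD q]), (1 : ℝ) :=
          sum_le_sum fun v _ => lamZ_le _
      _ ≤ ∑ v ∈ Ioc (0 : ℤ) r', (1 : ℝ) :=
          sum_le_sum_of_subset_of_nonneg (filter_subset _ _) fun _ _ _ => zero_le_one
      _ = r' := by simp
  have h6 := abs_add_le (∑ v ∈ (Ioc (0 : ℤ) r').filter (fun v => v ≡ r [ZMOD q]), lamZ (∏ i, (a i * v + b i)))
    (∑ n ∈ Icc 1 N, Pool.Agent.Y958.U.FF A B n)
  linarith

/-- the threshold for `k` forms -/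
noncomputable def th (k : ℕ) : ℝ := 1 - 1 / (2 ^ (k - 1) - 1)

lemma th_nonneg {k : ℕ} (hk : 2 ≤ k) : 0 ≤ th k := by
  unfold th
  have h1 : (2 : ℝ) ^ 1 ≤ 2 ^ (k - 1) := pow_le_pow_right₀ (by norm_num) (by omega)
  have : 1 / ((2 : ℝ) ^ (k - 1) - 1) ≤ 1 := by
    rw [div_le_one (by linarith)]
    linarith
  linarith

lemma th_le {k : ℕ} (hk : 2 ≤ k) : th k ≤ 1 := by
  unfold th
  have h1 : (2 : ℝ) ^ 1 ≤ 2 ^ (k - 1) := pow_le_pow_right₀ (by norm_num) (by omega)
  have : 0 ≤ 1 / ((2 : ℝ) ^ (k - 1) - 1) := by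
    apply div_nonneg zero_le_one
    linarith
  linarith

/-- one-sided sums -/
theorem one_LZ {k : ℕ} (hk : 2 ≤ k) (a b : Fin k → ℤ) (ha : ∀ i, a i ≠ 0)
    (hab : ∀ i j, i ≠ j → a i * b j ≠ a j * b i) (q : ℕ) (hq : 1 ≤ q) (r : ℤ) (ε : ℝ) (hε : 0 < ε) :
    LZ {X | (th k + ε) * (X / q) < |oneS a b q r X|} := by
  classical
  have hqR : (0 : ℝ) < q := by exact_mod_cast hq
  obtain ⟨r', A, B, hA, hAB, hred⟩ := one_reduce a b ha hab q hq r
  obtain ⟨m, rfl⟩ : ∃ m, k = m + 2 := ⟨k - 2, by omega⟩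
  have h1 := formsJ_Icc m A B hA hAB (ε / 2) (by positivity)
  have h2 := LZ_affine _ h1 q r' hq
  obtain ⟨K, hK⟩ := exists_nat_ge ((r' : ℝ) + 2 * r' * q / ε)
  refine LZ_sub ?_ (LZ_union h2 (LZ_bdd {X | X < K} _ fun n hn => hn))
  intro X hX
  by_cases hXK : X < K
  · exact Or.inr hXK
  left
  have hXK' : (K : ℝ) ≤ X := by exact_mod_cast not_lt.1 hXK
  have h3 : (0 : ℝ) ≤ 2 * r' * q / ε := by positivity
  have hr'X : r' ≤ X := by
    have : (r' : ℝ) ≤ X := by linarith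
    exact_mod_cast this
  have h4 : 2 * r' * q / ε ≤ X := by
    have : (0 : ℝ) ≤ r' := Nat.cast_nonneg _
    linarith
  rw [div_le_iff₀ hε] at h4
  have h5 : (r' : ℝ) ≤ ε / 2 * (X / q) := by
    rw [mul_div_assoc', le_div_iff₀ hqR]
    linarith
  have h6 := hred X hr'X
  have h7 : (th (m + 2) + ε) * (X / q) < |oneS a b q r X| := hX
  show (1 - 1 / (2 ^ (m + 1) - 1) + ε / 2) * (((X - r') / q : ℕ) : ℝ) <
    |∑ n ∈ Icc 1 ((X - r') / q), FF A B n|
  have h8 : (((X - r') / q : ℕ) : ℝ) ≤ X / q := by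
    rw [le_div_iff₀ hqR]
    have h5 : (X - r') / q * q ≤ X - r' := Nat.div_mul_le_self _ _
    have h6 : (X - r') / q * q ≤ X := h5.trans (Nat.sub_le _ _)
    exact_mod_cast h6
  have h9 : th (m + 2) = 1 - 1 / (2 ^ (m + 1) - 1) := rfl
  rw [← h9]
  have h10 : (th (m + 2) + ε / 2) * (((X - r') / q : ℕ) : ℝ) ≤ (th (m + 2) + ε / 2) * (X / q) := by
    apply mul_le_mul_of_nonneg_left h8
    have := th_nonneg hk
    linarith
  linarith

/-- decomposition of the two-sided sum -/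
lemma two_le {k : ℕ} (u : ℤ) (a b : Fin k → ℤ) (q : ℕ) (r : ℤ) (X : ℕ) :
    |∑ v ∈ (Icc (-(X : ℤ)) X).filter (fun v => v ≡ r [ZMOD q]), lamZ (u * ∏ i, (a i * v + b i))| ≤
      |oneS a b q r X| + |oneS (fun i => -a i) b q (-r) X| + 1 := by
  classical
  set g : ℤ → ℝ := fun v => lamZ (∏ i, (a i * v + b i)) with hg
  set T : ℤ → Prop := fun v => v ≡ r [ZMOD q] with hT
  have hu : |∑ v ∈ (Icc (-(X : ℤ)) X).filter T, lamZ (u * ∏ i, (a i * v + b i))| ≤
      |∑ v ∈ (Icc (-(X : ℤ)) X).filter T, g v| := by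
    have h1 : ∑ v ∈ (Icc (-(X : ℤ)) X).filter T, lamZ (u * ∏ i, (a i * v + b i)) =
        lamZ u * ∑ v ∈ (Icc (-(X : ℤ)) X).filter T, g v := by
      rw [mul_sum]
      exact sum_congr rfl fun v _ => lamZ_mul _ _
    rw [h1, abs_mul]
    have := lamZ_le u
    have h2 := abs_nonneg (∑ v ∈ (Icc (-(X : ℤ)) X).filter T, g v)
    nlinarith
  refine hu.trans ?_
  -- split into positive, zero and negative
  have hsplit : (Icc (-(X : ℤ)) X).filter T = ((Ioc (0 : ℤ) X).filter T ∪ ((Icc (0 : ℤ) 0).filter T)) ∪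
      ((Ioc (0 : ℤ) X).filter (fun v => v ≡ -r [ZMOD q])).image (fun v => -v) := by
    ext v
    simp only [mem_union, mem_filter, mem_Ioc, mem_Icc, mem_image, hT]
    constructor
    · rintro ⟨⟨h1, h2⟩, h3⟩
      rcases lt_trichotomy v 0 with h | h | h
      · right
        refine ⟨-v, ⟨⟨by omega, by omega⟩, ?_⟩, by ring⟩
        exact h3.neg
      · left; right
        exact ⟨⟨by omega, by omega⟩, h3⟩
      · left; left
        exact ⟨⟨by omega, by omega⟩, h3⟩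
    · rintro ((⟨⟨h1, h2⟩, h3⟩ | ⟨⟨h1, h2⟩, h3⟩) | ⟨w, ⟨⟨h1, h2⟩, h3⟩, rfl⟩)
      · exact ⟨⟨by omega, by omega⟩, h3⟩
      · exact ⟨⟨by omega, by omega⟩, h3⟩
      · refine ⟨⟨by omega, by omega⟩, ?_⟩
        have := h3.neg
        rwa [neg_neg] at this
  have hd1 : Disjoint ((Ioc (0 : ℤ) X).filter T) ((Icc (0 : ℤ) 0).filter T) := by
    rw [Finset.disjoint_left]
    intro v h1 h2
    rw [mem_filter, mem_Ioc] at h1
    rw [mem_filter, mem_Icc] at h2
    omega
  have hd2 : Disjoint ((Ioc (0 : ℤ) X).filter T ∪ ((Icc (0 : ℤ) 0).filter T))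
      (((Ioc (0 : ℤ) X).filter (fun v => v ≡ -r [ZMOD q])).image (fun v => -v)) := by
    rw [Finset.disjoint_left]
    intro v h1 h2
    rw [mem_union, mem_filter, mem_filter, mem_Ioc, mem_Icc] at h1
    rw [mem_image] at h2
    obtain ⟨w, hw, rfl⟩ := h2
    rw [mem_filter, mem_Ioc] at hw
    rcases h1 with h1 | h1 <;> omega
  have hsum : ∑ v ∈ (Icc (-(X : ℤ)) X).filter T, g v = (oneS a b q r X +
      ∑ v ∈ (Icc (0 : ℤ) 0).filter T, g v) + oneS (fun i => -a i) b q (-r) X := by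
    unfold oneS
    rw [hsplit, sum_union hd2, sum_union hd1, sum_image (fun x _ y _ h => neg_injective h)]
    congr 1
    apply sum_congr rfl
    intro v _
    simp only [hg]
    congr 1
    apply prod_congr rfl
    intro i _
    ring
  have h0 : |∑ v ∈ (Icc (0 : ℤ) 0).filter T, g v| ≤ 1 := by
    calc |∑ v ∈ (Icc (0 : ℤ) 0).filter T, g v| ≤ ∑ v ∈ (Icc (0 : ℤ) 0).filter T, |g v| := abs_sum_le_sum_abs _ _
      _ ≤ ∑ v ∈ (Icc (0 : ℤ) 0).filter T, (1 : ℝ) := sum_le_sum fun v _ => lamZ_le _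
      _ ≤ ∑ v ∈ Icc (0 : ℤ) 0, (1 : ℝ) := sum_le_sum_of_subset_of_nonneg (filter_subset _ _) fun _ _ _ => zero_le_one
      _ = 1 := by simp
  rw [hsum]
  have h3 := abs_add_le (oneS a b q r X + ∑ v ∈ (Icc (0 : ℤ) 0).filter T, g v)
    (oneS (fun i => -a i) b q (-r) X)
  have h4 := abs_add_le (oneS a b q r X) (∑ v ∈ (Icc (0 : ℤ) 0).filter T, g v)
  linarith

/-- the number of terms -/
lemma card_two (q : ℕ) (hq : 1 ≤ q) (r : ℤ) (X : ℕ) :
    2 * ((X : ℝ) / q) - 1 ≤ (((Icc (-(X : ℤ)) X).filter (fun v => v ≡ r [ZMOD q])).card : ℝ) := by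
  classical
  have hq0 : (0 : ℤ) < q := by exact_mod_cast hq
  set T : ℤ → Prop := fun v => v ≡ r [ZMOD q] with hT
  have h3 := Int.Ioc_filter_modEq_card (-(X : ℤ)) (X : ℤ) hq0 r
  have h4 : ((Ioc (-(X : ℤ)) X).filter T).card ≤ ((Icc (-(X : ℤ)) X).filter T).card :=
    card_le_card (filter_subset_filter _ Ioc_subset_Icc_self)
  have h5 : (⌊(((X : ℤ) : ℚ) - (r : ℤ)) / ((q : ℤ) : ℚ)⌋ : ℤ) - ⌊(((-(X : ℤ) : ℤ) : ℚ) - (r : ℤ)) / ((q : ℤ) : ℚ)⌋ ≤
      (((Icc (-(X : ℤ)) X).filter T).card : ℤ) := by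
    refine le_trans ?_ (Nat.cast_le.2 h4)
    refine le_trans (le_max_left _ 0) (le_of_eq ?_)
    exact h3.symm
  have h6 : (((X : ℤ) : ℚ) - (r : ℤ)) / ((q : ℤ) : ℚ) - 1 - (((-(X : ℤ) : ℤ) : ℚ) - (r : ℤ)) / ((q : ℤ) : ℚ) ≤
      (((Icc (-(X : ℤ)) X).filter T).card : ℚ) := by
    have h7 := Int.sub_one_lt_floor ((((X : ℤ) : ℚ) - (r : ℤ)) / ((q : ℤ) : ℚ))
    have h8 := Int.floor_le ((((-(X : ℤ) : ℤ) : ℚ) - (r : ℤ)) / ((q : ℤ) : ℚ))
    have h9 : ((⌊(((X : ℤ) : ℚ) - (r : ℤ)) / ((q : ℤ) : ℚ)⌋ : ℤ) : ℚ) -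
        ((⌊(((-(X : ℤ) : ℤ) : ℚ) - (r : ℤ)) / ((q : ℤ) : ℚ)⌋ : ℤ) : ℚ) ≤
        (((Icc (-(X : ℤ)) X).filter T).card : ℚ) := by exact_mod_cast h5
    linarith
  have hqQ : (0 : ℚ) < q := by exact_mod_cast hq
  have h7 : 2 * ((X : ℚ) / q) - 1 ≤ (((Icc (-(X : ℤ)) X).filter T).card : ℚ) := by
    refine le_trans (le_of_eq ?_) h6
    push_cast
    field_simp
    ring
  have h8 : ((2 * ((X : ℚ) / q) - 1 : ℚ) : ℝ) ≤ (((((Icc (-(X : ℤ)) X).filter T).card : ℕ) : ℚ) : ℝ) :=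
    Rat.cast_le.2 h7
  push_cast at h8
  exact h8

/-- two-sided sums -/
theorem two_LZ {k : ℕ} (hk : 2 ≤ k) (u : ℤ) (a b : Fin k → ℤ) (ha : ∀ i, a i ≠ 0)
    (hab : ∀ i j, i ≠ j → a i * b j ≠ a j * b i) (q : ℕ) (hq : 1 ≤ q) (r : ℤ) (ε : ℝ) (hε : 0 < ε) :
    LZ {X | (th k + ε) * (((Icc (-(X : ℤ)) X).filter (fun v => v ≡ r [ZMOD q])).card : ℝ) <
      |∑ v ∈ (Icc (-(X : ℤ)) X).filter (fun v => v ≡ r [ZMOD q]), lamZ (u * ∏ i, (a i * v + b i))|} := by
  classical
  have hqR : (0 : ℝ) < q := by exact_mod_cast hq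
  have h1 := one_LZ hk a b ha hab q hq r (ε / 2) (by positivity)
  have h2 := one_LZ hk (fun i => -a i) b (fun i => neg_ne_zero.2 (ha i))
    (fun i j hij h => hab i j hij (by linarith)) q hq (-r) (ε / 2) (by positivity)
  obtain ⟨K, hK⟩ := exists_nat_ge ((2 + ε) * q / ε)
  refine LZ_sub ?_ (LZ_union (LZ_union h1 h2) (LZ_bdd {X | X < K} _ fun n hn => hn))
  intro X hX
  by_cases hXK : X < K
  · exact Or.inr hXK
  left
  have hXK' : (K : ℝ) ≤ X := by exact_mod_cast not_lt.1 hXK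
  have h4 : (2 + ε) * q / ε ≤ X := hK.trans hXK'
  rw [div_le_iff₀ hε] at h4
  have h5 : 2 + ε ≤ ε * (X / q) := by
    rw [mul_div_assoc', le_div_iff₀ hqR]
    linarith
  have h6 := two_le u a b q r X
  have h7 := card_two q hq r X
  have h8 : (th k + ε) * (((Icc (-(X : ℤ)) X).filter (fun v => v ≡ r [ZMOD q])).card : ℝ) <
    |∑ v ∈ (Icc (-(X : ℤ)) X).filter (fun v => v ≡ r [ZMOD q]), lamZ (u * ∏ i, (a i * v + b i))| := hX
  have h9 := th_nonneg hk
  have h10 := th_le hk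
  have h11 : (th k + ε) * (2 * ((X : ℝ) / q) - 1) ≤
      (th k + ε) * (((Icc (-(X : ℤ)) X).filter (fun v => v ≡ r [ZMOD q])).card : ℝ) :=
    mul_le_mul_of_nonneg_left h7 (by linarith)
  by_contra hcon
  have h12 : X ∉ {X : ℕ | (th k + ε / 2) * ((X : ℝ) / q) < |oneS a b q r X|} := fun h => hcon (Or.inl h)
  have h13 : X ∉ {X : ℕ | (th k + ε / 2) * ((X : ℝ) / q) < |oneS (fun i => -a i) b q (-r) X|} :=
    fun h => hcon (Or.inr h)
  rw [Set.mem_setOf_eq, not_lt] at h12 h13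
  nlinarith

end Pool.Agent.Helper81.Ev
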