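import Pool.Agent.Helper81.Ev.PolyA
import Pool.Agent.Helper81.Ev.Forms

/-!
Split polynomials: one exceptional set, logarithmic averages; dilated roots at every scale.
-/

set_option autoImplicit false

open Finset Filter Topology

namespace Pool.Agent.Helper81.Ev

open Polynomial
open Pool.Agent.Helper81.Gap
open Pool.Agent.Y958.U
open Pool.Agent.E8helper83.WS (lamZ lamZ_le lamZ_mul lamZ_prod lamZ_neg)
open Pool.Agent.Helper33.Half (lamI lamI_sg)

lemma prod_scaleRoots {ι : Type*} (s : Finset ι) (g : ι → ℚ) (d : ℚ) :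
    (∏ i ∈ s, (X - C (g i))).scaleRoots d = ∏ i ∈ s, (X - C (g i * d)) := by
  classical
  induction s using Finset.induction_on with
  | empty => simp
  | insert i s hi ih =>
    rw [prod_insert hi, prod_insert hi, mul_scaleRoots_of_noZeroDivisors, ih, X_sub_C_scaleRoots]

/-- the data of a split squarefree polynomial -/
theorem split_data (f : ℤ[X]) (hdeg : 1 ≤ f.natDegree) (hs : (f.map (Int.castRingHom ℚ)).Splits)
    (hsq : Squarefree (f.map (Int.castRingHom ℚ))) :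
    ∃ (a b : Fin f.natDegree → ℤ) (D : ℤ), (∀ i, 0 < a i) ∧ (∀ i j, i ≠ j → a i * b j ≠ a j * b i) ∧
      D ≠ 0 ∧ ∀ v d : ℤ, D * (f.scaleRoots d).eval v = f.leadingCoeff * ∏ i, (a i * v + b i * d) := by
  classical
  set F : ℚ[X] := f.map (Int.castRingHom ℚ) with hF
  have hinj : Function.Injective (Int.castRingHom ℚ) := (Int.castRingHom ℚ).injective_int
  have hnd : F.roots.Nodup := nodup_roots (PerfectField.separable_iff_squarefree.2 hsq)
  set L : List ℚ := F.roots.toList with hL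
  have hLnd : L.Nodup := by
    rw [← Multiset.coe_nodup, hL, Multiset.coe_toList]
    exact hnd
  have hlen : L.length = f.natDegree := by
    rw [hL, Multiset.length_toList, ← hs.natDegree_eq_card_roots, hF, natDegree_map_eq_of_injective hinj]
  have hf0 : f.leadingCoeff ≠ 0 := by
    intro h
    rw [leadingCoeff_eq_zero] at h
    rw [h, natDegree_zero] at hdeg
    omega
  rw [← hlen]
  set ρ : Fin L.length → ℚ := fun i => L.get i with hρ
  have hρinj : Function.Injective ρ := List.nodup_iff_injective_get.1 hLnd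
  set a : Fin L.length → ℤ := fun i => ((ρ i).den : ℤ) with ha
  set b : Fin L.length → ℤ := fun i => -(ρ i).num with hb
  have ha0 : ∀ i, 0 < a i := fun i => by
    simp only [ha]
    exact_mod_cast (ρ i).den_pos
  have hab : ∀ i j, i ≠ j → a i * b j ≠ a j * b i := by
    intro i j hij h
    apply hij
    apply hρinj
    simp only [ha, hb] at h
    rw [Rat.eq_iff_mul_eq_mul]
    linear_combination h
  refine ⟨a, b, ∏ i, a i, ha0, hab, prod_ne_zero_iff.2 fun i _ => (ha0 i).ne', fun v d => ?_⟩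
  have h0 : (Int.castRingHom ℚ) f.leadingCoeff ≠ 0 := by
    rw [Ne, map_eq_zero_iff _ hinj]
    exact hf0
  have h1 : (((f.scaleRoots d).eval v : ℤ) : ℚ) = (F.scaleRoots (d : ℚ)).eval (v : ℚ) := by
    have h2 := map_scaleRoots f d (Int.castRingHom ℚ) h0
    have h3 : (Int.castRingHom ℚ) d = (d : ℚ) := rfl
    rw [h3, ← hF] at h2
    rw [← h2, eval_intCast_map]
    simp
  have h2 : F = C F.leadingCoeff * (F.roots.map (fun a => X - C a)).prod := hs.eq_prod_roots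
  have h3 : (F.roots.map (fun a => X - C a)).prod = ∏ i : Fin L.length, (X - C (ρ i)) := by
    rw [← Multiset.coe_toList F.roots, ← hL, Multiset.map_coe, Multiset.prod_coe]
    rw [← List.prod_ofFn]
    congr 1
    conv_lhs => rw [← List.ofFn_get L]
    rw [List.map_ofFn]
    rfl
  have hlc : F.leadingCoeff = ((f.leadingCoeff : ℤ) : ℚ) := by
    rw [hF, leadingCoeff_map_of_injective hinj]
    rfl
  have h4 : (F.scaleRoots (d : ℚ)).eval (v : ℚ) =
      (f.leadingCoeff : ℚ) * ∏ i, ((v : ℚ) - ρ i * d) := by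
    have h5 : F.scaleRoots (d : ℚ) = C (f.leadingCoeff : ℚ) * ∏ i, (X - C (ρ i * d)) := by
      conv_lhs => rw [h2, h3]
      rw [mul_scaleRoots_of_noZeroDivisors, scaleRoots_C, prod_scaleRoots, hlc]
    rw [h5, eval_mul, eval_C, eval_prod]
    simp
  have h5 : (((∏ i, a i) * (f.scaleRoots d).eval v : ℤ) : ℚ) =
      ((f.leadingCoeff * ∏ i, (a i * v + b i * d) : ℤ) : ℚ) := by
    push_cast
    rw [h1, h4]
    have h6 : ∏ i, ((a i : ℤ) : ℚ) * ((v : ℚ) - ρ i * d) =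
        ∏ i, (((a i : ℤ) : ℚ) * v + ((b i : ℤ) : ℚ) * d) := by
      apply prod_congr rfl
      intro i _
      simp only [ha, hb]
      push_cast
      have h7 : ((ρ i).den : ℚ) * ρ i = (ρ i).num := by
        rw [mul_comm]
        exact Rat.mul_den_eq_num (ρ i)
      linear_combination (-(d : ℚ)) * h7
    rw [← h6, prod_mul_distrib]
    ring
  exact_mod_cast h5

/-- the sum over the polynomial values -/
noncomputable def PS (f : ℤ[X]) (q : ℕ) (r : ℤ) (N : ℕ) : ℝ :=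
  ∑ v ∈ (Icc (-(N : ℤ)) N).filter (fun v => v ≡ r [ZMOD q]), lamZ (f.eval v)

lemma abs_lamZ {m : ℤ} (hm : m ≠ 0) : |lamZ m| = 1 := by
  unfold lamZ
  rw [if_neg hm, abs_pow, abs_neg, abs_one, one_pow]

theorem split_LZ (f : ℤ[X]) (hdeg : 2 ≤ f.natDegree) (hs : (f.map (Int.castRingHom ℚ)).Splits)
    (hsq : Squarefree (f.map (Int.castRingHom ℚ))) (q : ℕ) (hq : 1 ≤ q) (r : ℤ) (ε : ℝ) (hε : 0 < ε) :
    LZ {N | (th f.natDegree + ε) * (((Icc (-(N : ℤ)) N).filter (fun v => v ≡ r [ZMOD q])).card : ℝ) <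
      |PS f q r N|} := by
  obtain ⟨a, b, D, ha, hab, hD, hval⟩ := split_data f (by omega) hs hsq
  refine LZ_sub ?_ (two_LZ hdeg f.leadingCoeff a b (fun i => (ha i).ne') hab q hq r ε hε)
  intro N hN
  have hN' : (th f.natDegree + ε) * (((Icc (-(N : ℤ)) N).filter (fun v => v ≡ r [ZMOD q])).card : ℝ) <
    |PS f q r N| := hN
  show (th f.natDegree + ε) * (((Icc (-(N : ℤ)) N).filter (fun v => v ≡ r [ZMOD q])).card : ℝ) <
    |∑ v ∈ (Icc (-(N : ℤ)) N).filter (fun v => v ≡ r [ZMOD q]), lamZ (f.leadingCoeff * ∏ i, (a i * v + b i))|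
  refine lt_of_lt_of_le hN' (le_of_eq ?_)
  have h1 : ∑ v ∈ (Icc (-(N : ℤ)) N).filter (fun v => v ≡ r [ZMOD q]),
      lamZ (f.leadingCoeff * ∏ i, (a i * v + b i)) = lamZ D * PS f q r N := by
    unfold PS
    rw [mul_sum]
    apply sum_congr rfl
    intro v _
    rw [← lamZ_mul]
    have h2 := hval v 1
    rw [scaleRoots_one] at h2
    rw [h2]
    simp only [mul_one]
  rw [h1, abs_mul, abs_lamZ hD, one_mul]

/-- symmetric sums -/
lemma sum_sym (g : ℤ → ℝ) (N : ℕ) :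
    ∑ v ∈ Icc (-(N : ℤ)) N, g v = g 0 + ∑ n ∈ Icc 1 N, (g n + g (-n)) := by
  induction N with
  | zero => simp
  | succ N ih =>
    have h1 : Icc (-((N + 1 : ℕ) : ℤ)) ((N + 1 : ℕ) : ℤ) =
        insert ((N + 1 : ℕ) : ℤ) (insert (-((N + 1 : ℕ) : ℤ)) (Icc (-(N : ℤ)) N)) := by
      ext v
      simp only [mem_insert, mem_Icc]
      push_cast
      omega
    rw [h1, sum_insert, sum_insert, ih, sum_Icc_succ_top (by omega)]
    · ring
    · rw [mem_Icc]
      push_cast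
      omega
    · rw [mem_insert, mem_Icc]
      push_cast
      omega

/-- the summand of the logarithmic average -/
noncomputable def GG' (f : ℤ[X]) (q : ℕ) (r : ℤ) (n : ℕ) : ℝ :=
  ((if (n : ℤ) ≡ r [ZMOD q] then lamZ (f.eval (n : ℤ)) else 0) +
    (if (-(n : ℤ)) ≡ r [ZMOD q] then lamZ (f.eval (-(n : ℤ))) else 0)) / 2

lemma GG'_le (f : ℤ[X]) (q : ℕ) (r : ℤ) (n : ℕ) : |GG' f q r n| ≤ 1 := by
  unfold GG'
  rw [abs_div, abs_two, div_le_one (by norm_num)]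
  refine (abs_add_le _ _).trans ?_
  have h : ∀ (P : Prop) [Decidable P] (z : ℤ), |(if P then lamZ z else 0)| ≤ 1 := by
    intro P _ z
    split_ifs
    · exact lamZ_le _
    · simp
  linarith [h ((n : ℤ) ≡ r [ZMOD q]) (f.eval (n : ℤ)), h ((-(n : ℤ)) ≡ r [ZMOD q]) (f.eval (-(n : ℤ)))]

lemma PS_eq (f : ℤ[X]) (q : ℕ) (r : ℤ) (N : ℕ) :
    PS f q r N = (if (0 : ℤ) ≡ r [ZMOD q] then lamZ (f.eval 0) else 0) + 2 * ∑ n ∈ Icc 1 N, GG' f q r n := by
  unfold PS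
  rw [sum_filter, sum_sym (fun v => if v ≡ r [ZMOD q] then lamZ (f.eval v) else 0), mul_sum]
  congr 1
  refine sum_congr rfl fun n _ => ?_
  unfold GG'
  ring

/-- the logarithmic sum -/
noncomputable def PL (f : ℤ[X]) (q : ℕ) (r : ℤ) (N : ℕ) : ℝ :=
  ∑ v ∈ (Icc (-(N : ℤ)) N).filter (fun v => v ≡ r [ZMOD q]), lamZ (f.eval v) / |(v : ℝ)|

lemma PL_eq (f : ℤ[X]) (q : ℕ) (r : ℤ) (N : ℕ) :
    PL f q r N = 2 * ∑ n ∈ Icc 1 N, GG' f q r n / n := by
  unfold PL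
  rw [sum_filter, sum_sym (fun v => if v ≡ r [ZMOD q] then lamZ (f.eval v) / |(v : ℝ)| else 0), mul_sum]
  have h0 : (if (0 : ℤ) ≡ r [ZMOD q] then lamZ (f.eval 0) / |((0 : ℤ) : ℝ)| else 0) = 0 := by
    split_ifs <;> simp
  rw [h0, zero_add]
  refine sum_congr rfl fun n _ => ?_
  unfold GG'
  have hn : |(((n : ℤ)) : ℝ)| = n := by
    rw [Int.cast_natCast, abs_of_nonneg (Nat.cast_nonneg _)]
  have hn' : |(((-(n : ℤ)) : ℤ) : ℝ)| = n := by
    rw [Int.cast_neg, abs_neg, hn]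
  rw [hn, hn']
  split_ifs <;> ring

/-- upper bound for the number of terms -/
lemma card_two' (q : ℕ) (hq : 1 ≤ q) (r : ℤ) (N : ℕ) :
    (((Icc (-(N : ℤ)) N).filter (fun v => v ≡ r [ZMOD q])).card : ℝ) ≤ 2 * ((N : ℝ) / q) + 3 := by
  classical
  have hq0 : (0 : ℤ) < q := by exact_mod_cast hq
  have h3 := Int.Ioc_filter_modEq_card (-(N : ℤ)) (N : ℤ) hq0 r
  have hsub : (Icc (-(N : ℤ)) N).filter (fun v => v ≡ r [ZMOD q]) ⊆
      insert (-(N : ℤ)) ((Ioc (-(N : ℤ)) N).filter (fun v => v ≡ r [ZMOD q])) := by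
    intro v hv
    rw [mem_filter, mem_Icc] at hv
    rw [mem_insert, mem_filter, mem_Ioc]
    by_cases h : v = -(N : ℤ)
    · exact Or.inl h
    · right
      exact ⟨⟨lt_of_le_of_ne hv.1.1 (Ne.symm h), hv.1.2⟩, hv.2⟩
  have h4 : ((Icc (-(N : ℤ)) N).filter (fun v => v ≡ r [ZMOD q])).card ≤
      ((Ioc (-(N : ℤ)) N).filter (fun v => v ≡ r [ZMOD q])).card + 1 :=
    (card_le_card hsub).trans (card_insert_le _ _)
  have hqQ : (0 : ℚ) < q := by exact_mod_cast hq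
  have h6 : (((Ioc (-(N : ℤ)) N).filter (fun v => v ≡ r [ZMOD q])).card : ℚ) ≤ 2 * ((N : ℚ) / q) + 2 := by
    have h5 : ((((Ioc (-(N : ℤ)) N).filter (fun v => v ≡ r [ZMOD q])).card : ℤ) : ℚ) =
        ((max (⌊(((N : ℤ) : ℚ) - (r : ℤ)) / ((q : ℤ) : ℚ)⌋ - ⌊(((-(N : ℤ) : ℤ) : ℚ) - (r : ℤ)) / ((q : ℤ) : ℚ)⌋) 0 : ℤ) : ℚ) := by
      rw [← h3]
    have h7 := Int.floor_le ((((N : ℤ) : ℚ) - (r : ℤ)) / ((q : ℤ) : ℚ))
    have h8 := Int.sub_one_lt_floor ((((-(N : ℤ) : ℤ) : ℚ) - (r : ℤ)) / ((q : ℤ) : ℚ))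
    have h9 : (((N : ℤ) : ℚ) - (r : ℤ)) / ((q : ℤ) : ℚ) - ((((-(N : ℤ) : ℤ) : ℚ) - (r : ℤ)) / ((q : ℤ) : ℚ)) =
        2 * ((N : ℚ) / q) := by
      push_cast
      field_simp
      ring
    have h10 : (0 : ℚ) ≤ 2 * ((N : ℚ) / q) := by positivity
    push_cast at h5
    rw [h5]
    apply max_le
    · push_cast at h7 h8 h9 ⊢
      linarith
    · linarith
  have h7 : (((((Ioc (-(N : ℤ)) N).filter (fun v => v ≡ r [ZMOD q])).card : ℕ) : ℚ) : ℝ) ≤
      ((2 * ((N : ℚ) / q) + 2 : ℚ) : ℝ) := Rat.cast_le.2 h6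
  push_cast at h7
  have h8 : (((Icc (-(N : ℤ)) N).filter (fun v => v ≡ r [ZMOD q])).card : ℝ) ≤
      (((Ioc (-(N : ℤ)) N).filter (fun v => v ≡ r [ZMOD q])).card : ℝ) + 1 := by exact_mod_cast h4
  linarith

/-- split and squarefree over the rationals -/
def SS (f : ℤ[X]) : Prop :=
  2 ≤ f.natDegree ∧ (f.map (Int.castRingHom ℚ)).Splits ∧ Squarefree (f.map (Int.castRingHom ℚ))

instance : Countable ℤ[X] := by
  have : Function.Injective (fun p : ℤ[X] => (⟨p.natDegree, fun i : Fin (p.natDegree + 1) => p.coeff i⟩ :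
      Σ n : ℕ, Fin (n + 1) → ℤ)) := by
    intro p p' h
    have h1 : p.natDegree = p'.natDegree := (Sigma.mk.inj_iff.1 h).1
    have h2 := (Sigma.mk.inj_iff.1 h).2
    ext i
    by_cases hi : i ≤ p.natDegree
    · have h3 : ∀ (n n' : ℕ) (g : Fin (n + 1) → ℤ) (g' : Fin (n' + 1) → ℤ), n = n' → HEq g g' →
          ∀ (hi : i < n + 1) (hi' : i < n' + 1), g ⟨i, hi⟩ = g' ⟨i, hi'⟩ := by
        rintro n n' g g' rfl hg hi hi'
        rw [eq_of_heq hg]
      exact h3 _ _ _ _ h1 h2 (by omega) (by omega)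
    · rw [coeff_eq_zero_of_natDegree_lt (by omega), coeff_eq_zero_of_natDegree_lt (by omega)]
  exact this.countable

/-- **one exceptional set** -/
theorem split_all : ∃ E : Set ℕ, LZ E ∧ ∀ f : ℤ[X], SS f → ∀ q : ℕ, 1 ≤ q → ∀ r : ℤ, ∀ ε : ℝ, 0 < ε →
    (∃ N₀ : ℕ, ∀ N : ℕ, N₀ ≤ N → N ∉ E → |PS f q r N| ≤
      (th f.natDegree + ε) * (((Icc (-(N : ℤ)) N).filter (fun v => v ≡ r [ZMOD q])).card : ℝ)) ∧
    ∃ N₀ : ℕ, ∀ N : ℕ, N₀ ≤ N → |PL f q r N| ≤ (th f.natDegree + ε) * (2 * Real.log N / q) := by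
  classical
  set E : (ℤ[X] × ℕ × ℤ × ℕ) → Set ℕ := fun t => {N | SS t.1 ∧ 1 ≤ t.2.1 ∧
    (th t.1.natDegree + 1 / ((t.2.2.2 : ℝ) + 1)) *
      (((Icc (-(N : ℤ)) N).filter (fun v => v ≡ t.2.2.1 [ZMOD t.2.1])).card : ℝ) < |PS t.1 t.2.1 t.2.2.1 N|} with hE
  have hEZ : ∀ t, LZ (E t) := by
    intro t
    by_cases ht : SS t.1 ∧ 1 ≤ t.2.1
    · refine LZ_sub ?_ (split_LZ t.1 ht.1.1 ht.1.2.1 ht.1.2.2 t.2.1 ht.2 t.2.2.1
        (1 / ((t.2.2.2 : ℝ) + 1)) (by positivity))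
      rintro N ⟨-, -, hN⟩
      exact hN
    · refine LZ_sub ?_ LZ_empty
      rintro N ⟨h1, h2, -⟩
      exact absurd ⟨h1, h2⟩ ht
  obtain ⟨F, hF, hdiag⟩ := diag' E hEZ
  have hmain : ∀ f : ℤ[X], SS f → ∀ q : ℕ, 1 ≤ q → ∀ r : ℤ, ∀ ε : ℝ, 0 < ε →
      ∃ N₀ : ℕ, ∀ N : ℕ, N₀ ≤ N → N ∉ F → |PS f q r N| ≤
      (th f.natDegree + ε) * (((Icc (-(N : ℤ)) N).filter (fun v => v ≡ r [ZMOD q])).card : ℝ) := by
    intro f hf q hq r ε hε
    obtain ⟨j, hj⟩ := exists_nat_one_div_lt hε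
    obtain ⟨N₀, hN₀⟩ := hdiag (f, q, r, j)
    refine ⟨N₀, fun N hN hNF => ?_⟩
    by_contra hcon
    apply hNF
    refine hN₀ N ⟨hf, hq, ?_⟩ hN
    refine lt_of_le_of_lt ?_ (not_le.1 hcon)
    apply mul_le_mul_of_nonneg_right _ (Nat.cast_nonneg _)
    simp only
    linarith
  refine ⟨F, hF, fun f hf q hq r ε hε => ⟨hmain f hf q hq r ε hε, ?_⟩⟩
  obtain ⟨N₀, hN₀⟩ := hmain f hf q hq r (ε / 4) (by positivity)
  have hqR : (0 : ℝ) < q := by exact_mod_cast hq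
  have hth := th_nonneg hf.1
  have hth' := th_le hf.1
  obtain ⟨K, hK⟩ := exists_nat_ge ((4 + ε) * q * 4 / ε)
  have hG : ∀ N : ℕ, N₀ + K ≤ N → N ∉ F → |∑ n ∈ Icc 1 N, GG' f q r n| ≤
      ((th f.natDegree + ε / 2) / q) * N := by
    intro N hN hNF
    have h1 := hN₀ N (by omega) hNF
    have h2 := card_two' q hq r N
    rw [PS_eq] at h1
    have h3 : |(if (0 : ℤ) ≡ r [ZMOD q] then lamZ (f.eval 0) else 0)| ≤ 1 := by
      split_ifs
      · exact lamZ_le _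
      · simp
    have h4 := abs_le.1 h1
    have h5 := abs_le.1 h3
    have h6 : (th f.natDegree + ε / 4) *
        (((Icc (-(N : ℤ)) N).filter (fun v => v ≡ r [ZMOD q])).card : ℝ) ≤
        (th f.natDegree + ε / 4) * (2 * ((N : ℝ) / q) + 3) :=
      mul_le_mul_of_nonneg_left h2 (by linarith)
    have h7 : (K : ℝ) ≤ N := by exact_mod_cast (by omega : K ≤ N)
    have h8 : (4 + ε) * q * 4 / ε ≤ N := hK.trans h7
    rw [div_le_iff₀ hε] at h8
    have h9 : 4 + ε ≤ ε / 4 * (N / q) := by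
      rw [mul_div_assoc', le_div_iff₀ hqR]
      linarith
    have h10 : ((th f.natDegree + ε / 2) / q) * N = (th f.natDegree + ε / 2) * (N / q) := by
      field_simp
    rw [h10, abs_le]
    constructor
    · nlinarith [h4.1, h5.1, h5.2]
    · nlinarith [h4.2, h5.1, h5.2]
  obtain ⟨X₀, hX₀⟩ := log_scales (GG' f q r) (GG'_le f q r) ((th f.natDegree + ε / 2) / q) (by positivity)
    (ε / 2 / q) (by positivity) F hF (N₀ + K) hG
  refine ⟨X₀, fun N hN => ?_⟩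
  have h1 := hX₀ N hN
  rw [PL_eq, abs_mul, abs_two]
  have h2 : (th f.natDegree + ε) * (2 * Real.log N / q) =
      2 * (((th f.natDegree + ε / 2) / q + ε / 2 / q) * Real.log N) := by
    field_simp
    ring
  rw [h2]
  linarith

end Pool.Agent.Helper81.Ev
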