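import Pool.Agent.Helper81.Ev.PolyB

/-!
Split polynomials with dilated roots, at every scale.
-/

set_option autoImplicit false

open Finset Filter Topology

namespace Pool.Agent.Helper81.Ev

open Polynomial
open Pool.Agent.E8helper83.WS (lamZ lamZ_le lamZ_mul lamZ_prod lamZ_neg)
open Pool.Agent.Helper33.Half (lamI lamI_sg sum_cast)

lemma lamZ_eq {z : ℤ} (hz : z ≠ 0) : lamZ z = lamI z := by
  unfold lamZ lamI
  rw [if_neg hz]

lemma abs_lamI (z : ℤ) : |lamI z| = 1 := by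
  unfold lamI
  rw [abs_pow, abs_neg, abs_one, one_pow]

/-- the positive half -/
lemma half_le {k : ℕ} (a b : Fin k → ℤ) (ha : ∀ i, 0 < a i) (N : ℕ) (d : ℤ) :
    |∑ n ∈ Icc 1 N, lamZ (∏ i, (a i * (n : ℤ) + b i * d))| ≤ |CG a b N d| + k := by
  classical
  have h1 : |∑ n ∈ Icc 1 N, lamZ (∏ i, (a i * (n : ℤ) + b i * d)) - CG a b N d| ≤ k := by
    unfold CG
    rw [sum_cast (fun n => ∏ i, lamI (a i * n + b i * d)), ← sum_sub_distrib]
    refine (abs_sum_le_sum_abs _ _).trans ?_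
    have h2 : ∀ n ∈ Icc 1 N, |lamZ (∏ i, (a i * (n : ℤ) + b i * d)) - ∏ i, lamI (a i * (n : ℤ) + b i * d)| ≤
        ∑ i : Fin k, (if a i * (n : ℤ) + b i * d = 0 then (1 : ℝ) else 0) := by
      intro n _
      have h5 : (0 : ℝ) ≤ ∑ i : Fin k, (if a i * (n : ℤ) + b i * d = 0 then (1 : ℝ) else 0) :=
        sum_nonneg fun i _ => by split_ifs <;> norm_num
      by_cases h : ∃ i, a i * (n : ℤ) + b i * d = 0
      · obtain ⟨i, hi⟩ := h
        have h3 : ∏ i, (a i * (n : ℤ) + b i * d) = 0 := prod_eq_zero (mem_univ i) hi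
        rw [h3]
        have h4 : lamZ 0 = 0 := by
          unfold lamZ
          rw [if_pos rfl]
        rw [h4, zero_sub, abs_neg, abs_prod]
        simp only [abs_lamI, prod_const_one]
        refine le_trans (le_of_eq ?_) (single_le_sum (f := fun i : Fin k =>
          (if a i * (n : ℤ) + b i * d = 0 then (1 : ℝ) else 0)) (fun i _ => by
          beta_reduce
          split_ifs <;> norm_num) (mem_univ i))
        rw [if_pos hi]
      · push Not at h
        rw [lamZ_prod, prod_congr rfl fun i _ => lamZ_eq (h i), sub_self, abs_zero]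
        exact h5
    refine (sum_le_sum h2).trans ?_
    rw [sum_comm]
    have h3 : ∀ i ∈ (univ : Finset (Fin k)), ∑ n ∈ Icc 1 N, (if a i * (n : ℤ) + b i * d = 0 then (1 : ℝ) else 0) ≤
        1 := by
      intro i _
      rw [← sum_filter, sum_const, nsmul_eq_mul, mul_one]
      have h4 : ((Icc 1 N).filter (fun n : ℕ => a i * (n : ℤ) + b i * d = 0)).card ≤ 1 := by
        rw [card_le_one]
        intro n hn n' hn'
        rw [mem_filter] at hn hn'
        have h5 : a i * ((n : ℤ) - n') = 0 := by linarith [hn.2, hn'.2]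
        rcases mul_eq_zero.1 h5 with h6 | h6
        · exact absurd h6 (ha i).ne'
        · have : (n : ℤ) = n' := by linarith
          exact_mod_cast this
      exact_mod_cast h4
    refine (sum_le_sum h3).trans ?_
    simp
  have h2 := abs_sub_abs_le_abs_sub (∑ n ∈ Icc 1 N, lamZ (∏ i, (a i * (n : ℤ) + b i * d))) (CG a b N d)
  linarith

/-- the sum over the values of the polynomial with roots dilated by `d` -/
noncomputable def DS (f : ℤ[X]) (d : ℤ) (N : ℕ) : ℝ :=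
  ∑ v ∈ Icc (-(N : ℤ)) N, lamZ ((f.scaleRoots d).eval v)

lemma DS_le {k : ℕ} (f : ℤ[X]) (a b : Fin k → ℤ) (ha : ∀ i, 0 < a i) (c D₀ : ℤ) (hD : D₀ ≠ 0) (d : ℤ)
    (hval : ∀ v : ℤ, D₀ * (f.scaleRoots d).eval v = c * ∏ i, (a i * v + b i * d)) (N : ℕ) :
    |DS f d N| ≤ |CG a b N d| + |CG a (fun i => -b i) N d| + (2 * k + 1) := by
  have h1 : lamZ D₀ * DS f d N = lamZ c * ∑ v ∈ Icc (-(N : ℤ)) N, lamZ (∏ i, (a i * v + b i * d)) := by
    unfold DS
    rw [mul_sum, mul_sum]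
    refine sum_congr rfl fun v _ => ?_
    rw [← lamZ_mul, ← lamZ_mul, hval]
  have h2 : |DS f d N| ≤ |∑ v ∈ Icc (-(N : ℤ)) N, lamZ (∏ i, (a i * v + b i * d))| := by
    have h3 : |DS f d N| = |lamZ D₀ * DS f d N| := by rw [abs_mul, abs_lamZ hD, one_mul]
    rw [h3, h1, abs_mul]
    have := lamZ_le c
    have h4 := abs_nonneg (∑ v ∈ Icc (-(N : ℤ)) N, lamZ (∏ i, (a i * v + b i * d)))
    nlinarith
  refine h2.trans ?_
  rw [sum_sym (fun v => lamZ (∏ i, (a i * v + b i * d))), sum_add_distrib]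
  have h3 : ∑ n ∈ Icc 1 N, lamZ (∏ i, (a i * (-(n : ℤ)) + b i * d)) =
      ∑ n ∈ Icc 1 N, lamZ (∏ i, (a i * (n : ℤ) + (fun i => -b i) i * d)) := by
    refine sum_congr rfl fun n _ => ?_
    rw [lamZ_prod, lamZ_prod]
    refine prod_congr rfl fun i _ => ?_
    rw [← lamZ_neg]
    congr 1
    ring
  beta_reduce
  rw [h3]
  have h4 := half_le a b ha N d
  have h5 := half_le a (fun i => -b i) ha N d
  have h6 := lamZ_le (∏ i, (a i * 0 + b i * d))
  have h7 := abs_add_le (lamZ (∏ i, (a i * 0 + b i * d)))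
    (∑ n ∈ Icc 1 N, lamZ (∏ i, (a i * (n : ℤ) + b i * d)) +
      ∑ n ∈ Icc 1 N, lamZ (∏ i, (a i * (n : ℤ) + (fun i => -b i) i * d)))
  have h8 := abs_add_le (∑ n ∈ Icc 1 N, lamZ (∏ i, (a i * (n : ℤ) + b i * d)))
    (∑ n ∈ Icc 1 N, lamZ (∏ i, (a i * (n : ℤ) + (fun i => -b i) i * d)))
  linarith

open Classical in
theorem dilates_core (k : ℕ) (hk : 2 ≤ k) (a b : Fin k → ℤ) (ha : ∀ i, 0 < a i)
    (hab : ∀ i j, i ≠ j → a i * b j ≠ a j * b i) (S : ℤ → ℕ → ℝ) (hS : ∀ d N, |S d N| ≤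
      |CG a b N d| + |CG a (fun i => -b i) N d| + (2 * k + 1)) {t : ℕ} (α β : Fin t → ℤ)
    (hα : ∀ j, α j ≠ 0) (hαβ : ∀ j j', j ≠ j' → α j * β j' ≠ α j' * β j) {ε : ℝ} (hε : 0 < ε) :
    ∃ K : ℕ, ∀ D N : ℕ, K ≤ D → K * D ≤ N →
      ∑ d ∈ Icc (1 : ℤ) D, wt α β d *
        (if (th k + ε) * (2 * N) < |S d N| then 1 else 0) ≤ ε * D := by
  obtain ⟨m, rfl⟩ : ∃ m, k = m + 2 := ⟨k - 2, by omega⟩
  obtain ⟨K₁, h1⟩ := formsW m a b ha hab α β hα hαβ (ε := ε / 2) (by positivity)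
  obtain ⟨K₂, h2⟩ := formsW m a (fun i => -b i) ha (fun i j hij h => hab i j hij (by
    have h' : a i * -b j = a j * -b i := h
    linarith)) α β hα hαβ (ε := ε / 2) (by positivity)
  obtain ⟨K₃, hK₃⟩ := exists_nat_ge ((2 * ((m + 2 : ℕ) : ℝ) + 1) / ε)
  refine ⟨K₁ + K₂ + K₃ + 1, fun D N hD hDN => ?_⟩
  have hx1 : K₁ * D ≤ N := le_trans (Nat.mul_le_mul_right _ (by omega)) hDN
  have hx2 : K₂ * D ≤ N := le_trans (Nat.mul_le_mul_right _ (by omega)) hDN
  have hx3 : K₃ ≤ N := by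
    calc K₃ = K₃ * 1 := (mul_one _).symm
      _ ≤ (K₁ + K₂ + K₃ + 1) * D := Nat.mul_le_mul (by omega) (by omega)
      _ ≤ N := hDN
  have hx4 : (2 * ((m + 2 : ℕ) : ℝ) + 1) ≤ ε * N := by
    have h3 : (2 * ((m + 2 : ℕ) : ℝ) + 1) / ε ≤ N := hK₃.trans (by exact_mod_cast hx3)
    rw [div_le_iff₀ hε] at h3
    linarith
  have h3 := h1 D N (by omega) hx1
  have h4 := h2 D N (by omega) hx2
  have e : th (m + 2) = 1 - 1 / (2 ^ (m + 1) - 1) := rfl
  rw [← e] at h3 h4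
  have h5 : ∑ d ∈ Icc (1 : ℤ) D, wt α β d *
        (if (th (m + 2) + ε) * (2 * N) < |S d N| then 1 else 0) ≤
      ∑ d ∈ Icc (1 : ℤ) D, (wt α β d * (if (th (m + 2) + ε / 2) * N < |CG a b N d| then 1 else 0) +
        wt α β d * (if (th (m + 2) + ε / 2) * N < |CG a (fun i => -b i) N d| then 1 else 0)) := by
    refine sum_le_sum fun d _ => ?_
    rw [← mul_add]
    refine mul_le_mul_of_nonneg_left ?_ (wt_nonneg α β d)
    by_cases h6 : (th (m + 2) + ε) * (2 * N) < |S d N|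
    · rw [if_pos h6]
      have h7 := hS d N
      by_cases h8 : (th (m + 2) + ε / 2) * N < |CG a b N d|
      · rw [if_pos h8]
        split_ifs <;> norm_num
      · rw [if_neg h8, zero_add, if_pos]
        by_contra h9
        push Not at h8 h9
        nlinarith
    · rw [if_neg h6]
      split_ifs <;> norm_num
  refine h5.trans ?_
  rw [sum_add_distrib]
  refine (add_le_add h3 h4).trans ?_
  linarith

open Classical in
/-- **every scale, almost all dilates** -/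
theorem dilates (f : ℤ[X]) (hf : SS f) {t : ℕ} (α β : Fin t → ℤ)
    (hα : ∀ j, α j ≠ 0) (hαβ : ∀ j j', j ≠ j' → α j * β j' ≠ α j' * β j) {ε : ℝ} (hε : 0 < ε) :
    ∃ K : ℕ, ∀ D N : ℕ, K ≤ D → K * D ≤ N →
      ∑ d ∈ Icc (1 : ℤ) D, wt α β d *
        (if (th f.natDegree + ε) * (2 * N) < |DS f d N| then 1 else 0) ≤ ε * D := by
  obtain ⟨hdeg, hs, hsq⟩ := hf
  obtain ⟨a, b, D₀, ha, hab, hD, hval⟩ := split_data f (by omega) hs hsq
  exact dilates_core f.natDegree hdeg a b ha hab (DS f)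
    (fun d N => DS_le f a b ha f.leadingCoeff D₀ hD d (fun v => hval v d) N) α β hα hαβ hε

end Pool.Agent.Helper81.Ev
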