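import Pool.Agent.Helper81.Ev.PolyC

/-!
Monic split polynomials with dilated roots, at every scale: the polynomial gap.
-/

set_option autoImplicit false

open Finset Filter Topology

namespace Pool.Agent.Helper81.Ev

open Polynomial
open Pool.Agent.E8helper83.WS (lamZ lamZ_le lamZ_mul lamZ_prod lamZ_neg)
open Pool.Agent.Helper33.Half (lamI lamI_sg sum_cast)

open Classical in
/-- the combination of the two halves, for any threshold -/
theorem dilates_two {k : ℕ} (a b : Fin k → ℤ) (S : ℤ → ℕ → ℝ) (hS : ∀ d N, |S d N| ≤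
      |CG a b N d| + |CG a (fun i => -b i) N d| + (2 * k + 1)) {t : ℕ} (α β : Fin t → ℤ) {θ ε : ℝ}
    (hε : 0 < ε)
    (h1 : ∃ K : ℕ, ∀ D x : ℕ, K ≤ D → K * D ≤ x →
      ∑ d ∈ Icc (1 : ℤ) D, wt α β d * (if (θ + ε / 2) * x < |CG a b x d| then 1 else 0) ≤ ε / 2 * D)
    (h2 : ∃ K : ℕ, ∀ D x : ℕ, K ≤ D → K * D ≤ x →
      ∑ d ∈ Icc (1 : ℤ) D, wt α β d *
        (if (θ + ε / 2) * x < |CG a (fun i => -b i) x d| then 1 else 0) ≤ ε / 2 * D) :
    ∃ K : ℕ, ∀ D N : ℕ, K ≤ D → K * D ≤ N →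
      ∑ d ∈ Icc (1 : ℤ) D, wt α β d *
        (if (θ + ε) * (2 * N) < |S d N| then 1 else 0) ≤ ε * D := by
  obtain ⟨K₁, h1⟩ := h1
  obtain ⟨K₂, h2⟩ := h2
  obtain ⟨K₃, hK₃⟩ := exists_nat_ge ((2 * (k : ℝ) + 1) / ε)
  refine ⟨K₁ + K₂ + K₃ + 1, fun D N hD hDN => ?_⟩
  have hx1 : K₁ * D ≤ N := le_trans (Nat.mul_le_mul_right _ (by omega)) hDN
  have hx2 : K₂ * D ≤ N := le_trans (Nat.mul_le_mul_right _ (by omega)) hDN
  have hx3 : K₃ ≤ N := by
    calc K₃ = K₃ * 1 := (mul_one _).symm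
      _ ≤ (K₁ + K₂ + K₃ + 1) * D := Nat.mul_le_mul (by omega) (by omega)
      _ ≤ N := hDN
  have hx4 : (2 * (k : ℝ) + 1) ≤ ε * N := by
    have h3 : (2 * (k : ℝ) + 1) / ε ≤ N := hK₃.trans (by exact_mod_cast hx3)
    rw [div_le_iff₀ hε] at h3
    linarith
  have h3 := h1 D N (by omega) hx1
  have h4 := h2 D N (by omega) hx2
  have h5 : ∑ d ∈ Icc (1 : ℤ) D, wt α β d *
        (if (θ + ε) * (2 * N) < |S d N| then 1 else 0) ≤
      ∑ d ∈ Icc (1 : ℤ) D, (wt α β d * (if (θ + ε / 2) * N < |CG a b N d| then 1 else 0) +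
        wt α β d * (if (θ + ε / 2) * N < |CG a (fun i => -b i) N d| then 1 else 0)) := by
    refine sum_le_sum fun d _ => ?_
    rw [← mul_add]
    refine mul_le_mul_of_nonneg_left ?_ (wt_nonneg α β d)
    by_cases h6 : (θ + ε) * (2 * N) < |S d N|
    · rw [if_pos h6]
      have h7 := hS d N
      by_cases h8 : (θ + ε / 2) * N < |CG a b N d|
      · rw [if_pos h8]
        split_ifs <;> norm_num
      · rw [if_neg h8, zero_add, if_pos]
        by_contra h9
        push Not at h8 h9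
        nlinarith
    · rw [if_neg h6]
      split_ifs <;> norm_num
  refine h5.trans ?_
  rw [sum_add_distrib]
  refine (add_le_add h3 h4).trans ?_
  linarith

/-- the data of a monic split squarefree polynomial -/
theorem split_data_monic (f : ℤ[X]) (hm : f.Monic) (hdeg : 1 ≤ f.natDegree)
    (hs : (f.map (Int.castRingHom ℚ)).Splits) (hsq : Squarefree (f.map (Int.castRingHom ℚ))) :
    ∃ (b : Fin f.natDegree → ℤ) (D c : ℤ), Function.Injective b ∧
      D ≠ 0 ∧ ∀ v d : ℤ, D * (f.scaleRoots d).eval v = c * ∏ i, (1 * v + b i * d) := by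
  classical
  obtain ⟨a, b, D, ha, hab, hD, hval⟩ := split_data f hdeg hs hsq
  have key : ∀ i, ∃ r : ℤ, b i = a i * r := by
    intro i
    have h1 := hval (-b i) (a i)
    have h2 : ∏ j, (a j * (-b i) + b j * a i) = 0 :=
      prod_eq_zero (mem_univ i) (by ring)
    rw [h2, mul_zero] at h1
    have h3 : (f.scaleRoots (a i)).eval (-b i) = 0 := by
      rcases mul_eq_zero.1 h1 with h | h
      · exact absurd h hD
      · exact h
    have ha' : (a i : ℚ) ≠ 0 := by
      have := (ha i).ne'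
      exact_mod_cast this
    have h4 : eval₂ (Int.castRingHom ℚ) ((Int.castRingHom ℚ) (a i) * (-(b i : ℚ) / a i)) (f.scaleRoots (a i)) =
        0 := by
      have e : (Int.castRingHom ℚ) (a i) * (-(b i : ℚ) / a i) = (Int.castRingHom ℚ) (-b i) := by
        simp only [eq_intCast, Int.cast_neg]
        field_simp
      rw [e, eval₂_at_apply, h3, map_zero]
    rw [scaleRoots_eval₂_mul] at h4
    have h5 : eval₂ (Int.castRingHom ℚ) (-(b i : ℚ) / a i) f = 0 := by
      rcases mul_eq_zero.1 h4 with h | h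
      · exfalso
        have := pow_eq_zero_iff (n := f.natDegree) (by omega) |>.1 h
        simp only [eq_intCast] at this
        exact ha' this
      · exact h
    have h6 : aeval (-(b i : ℚ) / a i) f = 0 := by
      rw [aeval_def]
      exact h5
    obtain ⟨r, hr⟩ := isInteger_of_is_root_of_monic hm h6
    refine ⟨-r, ?_⟩
    have h7 : (r : ℚ) = -(b i : ℚ) / a i := hr
    rw [eq_div_iff ha'] at h7
    have h8 : r * a i = -b i := by exact_mod_cast h7
    linarith
  choose r hr using key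
  refine ⟨r, D, f.leadingCoeff * ∏ i, a i, fun i j hij => ?_, hD, fun v d => ?_⟩
  · by_contra h
    apply hab i j h
    rw [hr i, hr j, hij]
    ring
  · rw [hval, mul_assoc, ← prod_mul_distrib]
    congr 1
    refine prod_congr rfl fun i _ => ?_
    rw [hr i]
    ring

open Classical in
/-- **every scale, almost all dilates, monic polynomials** -/
theorem dilatesM (f : ℤ[X]) (hf : SS f) (hm : f.Monic) {t : ℕ} (α β : Fin t → ℤ)
    (hα : ∀ j, α j ≠ 0) (hαβ : ∀ j j', j ≠ j' → α j * β j' ≠ α j' * β j) {ε : ℝ} (hε : 0 < ε) :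
    ∃ K : ℕ, ∀ D N : ℕ, K ≤ D → K * D ≤ N →
      ∑ d ∈ Icc (1 : ℤ) D, wt α β d *
        (if (1 - 2 / (2 * (f.natDegree : ℝ) ^ 2 - f.natDegree + 3) + ε) * (2 * N) < |DS f d N|
          then 1 else 0) ≤ ε * D := by
  obtain ⟨hdeg, hs, hsq⟩ := hf
  obtain ⟨b, D₀, c, hb, hD, hval⟩ := split_data_monic f hm (by omega) hs hsq
  refine dilates_two (fun _ => 1) b (DS f)
    (fun d N => DS_le f (fun _ => 1) b (fun _ => one_pos) c D₀ hD d (fun v => hval v d) N) α β hε ?_ ?_
  · exact shiftW hdeg b hb α β hα hαβ (by positivity)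
  · refine shiftW hdeg (fun i => -b i) (fun i j hij => hb (neg_injective hij)) α β hα hαβ (by positivity)

end Pool.Agent.Helper81.Ev
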