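import Pool.Agent.Helper81.Ev.Close
import Pool.Agent.Helper33.Half.TTavg

/-!
Two-point correlations on average over the shift, at every scale and in residue classes; clusters of
dilates.
-/

set_option autoImplicit false

namespace Pool.Agent.Helper81.Ev

open Finset
open Pool.Agent.TH823.MRS (ExpoSmall gen Sm nu_eq)
open Pool.Agent.H373R2.T7 (energy exI)
open Pool.Agent.H376R2.MR (lam)
open Pool.Agent.Helper33.Half (lamI lamI_sg sum_cast Sg energy_one)

/-- two-point correlation in a residue class -/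
noncomputable def TTA (A : ℕ) (r : ℤ) (x : ℕ) (h : ℤ) : ℝ :=
  ∑ m ∈ Icc (1 : ℤ) ((A * x : ℕ) : ℤ), if (A : ℤ) ∣ m - r then lamI m * lamI (m + h) else 0

lemma TTA_le (A : ℕ) (r : ℤ) (x : ℕ) (h : ℤ) : |TTA A r x h| ≤ A * x := by
  unfold TTA
  refine (abs_sum_le_sum_abs _ _).trans ?_
  have : ∀ m ∈ Icc (1 : ℤ) ((A * x : ℕ) : ℤ),
      |if (A : ℤ) ∣ m - r then lamI m * lamI (m + h) else 0| ≤ 1 := by
    intro m _
    split_ifs
    · rw [lamI_sg.abs_mul]
    · simp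
  refine (sum_le_sum this).trans ?_
  rw [sum_const, Int.card_Icc, add_sub_cancel_right, Int.toNat_natCast, nsmul_eq_mul, mul_one]
  push_cast
  exact le_rfl

lemma TTA_congr (A : ℕ) {r r' : ℤ} (h : (A : ℤ) ∣ r - r') (x : ℕ) (t : ℤ) :
    TTA A r x t = TTA A r' x t := by
  unfold TTA
  refine sum_congr rfl fun m _ => ?_
  have e : (A : ℤ) ∣ m - r ↔ (A : ℤ) ∣ m - r' := by
    have e1 : m - r' = (m - r) + (r - r') := by ring
    rw [e1]
    exact (Int.dvd_add_left h).symm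
  by_cases h1 : (A : ℤ) ∣ m - r
  · rw [if_pos h1, if_pos (e.1 h1)]
  · rw [if_neg h1, if_neg (fun h2 => h1 (e.2 h2))]

/-- **Averaged two-point correlations at every scale.** -/
theorem TTA_avg {A : ℕ} (hA : 1 ≤ A) {ε : ℝ} (hε : 0 < ε) : ∃ H₀ : ℕ, ∀ H x : ℕ, H₀ ≤ H → H ≤ A * x →
    ∀ r : ℤ, ∑ h ∈ Icc 1 H, |TTA A r x h| ≤ ε * (H * x) := by
  classical
  have hA0 : (0 : ℝ) < A := by exact_mod_cast hA
  have hE : ExpoSmall (fun n => ((lam n : ℤ) : ℂ)) := Pool.Agent.TH823.MRS.expo_lam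
  have hb : ∀ n, ‖((lam n : ℤ) : ℂ)‖ ≤ 1 := by
    intro n
    rw [Complex.norm_intCast]
    exact_mod_cast Pool.Agent.TH823.MRS.lam_bdd n
  obtain ⟨δ, hδ⟩ : ∃ δ : ℝ, δ = ε / (2 * A) := ⟨_, rfl⟩
  have hδ0 : 0 < δ := by rw [hδ]; positivity
  obtain ⟨H₀, N₀, h1⟩ := gen (fun n => ((lam n : ℤ) : ℂ)) hb hE 1 1 δ hδ0 1 1
  refine ⟨H₀ + N₀, fun H x hH hHx r => ?_⟩
  obtain ⟨X, hX⟩ : ∃ X : ℕ, X = A * x := ⟨_, rfl⟩
  obtain ⟨g, hg⟩ : ∃ g : ℕ → ℂ, ∀ n, g n = if (A : ℤ) ∣ (n : ℤ) - r then ((lam n : ℤ) : ℂ) else 0 :=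
    ⟨_, fun _ => rfl⟩
  have hgb : ∀ n, ‖g n‖ ≤ 1 := by
    intro n
    rw [hg]
    split_ifs
    · exact hb n
    · simp
  have h2 := h1 X H (by omega) (by omega) (by omega) H (fun m => (m : ℤ)) (by
    intro m hm
    rw [mem_Icc] at hm
    rw [abs_of_nonneg (by positivity)]
    exact_mod_cast hm.2) (by
    have h3 : (energy 1 H (fun m => (m : ℤ)) : ℝ) ≤ H := by exact_mod_cast energy_one H
    have h4 : (0 : ℝ) ≤ H := Nat.cast_nonneg _
    rw [mul_one, one_mul, sq]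
    exact mul_le_mul_of_nonneg_right h3 h4) (fun _ => 1) (fun _ => 0)
    (fun _ n => g n) (fun _ => le_rfl) (fun _ => by positivity) (fun _ n => hgb n)
  rw [nu_eq] at h2
  -- good shifts
  have hgood : ∀ h ∈ Icc 1 H, Sm (fun n => ((lam n : ℤ) : ℂ)) 1 1 X δ (fun _ => 1) (fun _ => 0)
      (fun _ n => g n) ((h : ℕ) : ℤ) → |TTA A r x h| ≤ δ * X := by
    intro h hh hS
    have h3 := hS 0 X (by simp)
    have e1 : ∑ n ∈ Icc 1 X, g n * exI (fun n => ((lam n : ℤ) : ℂ))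
        (((1 : ℕ) : ℤ) * n + 0 + ((h : ℕ) : ℤ)) = ((TTA A r x h : ℝ) : ℂ) := by
      unfold TTA
      rw [← hX, sum_cast, Complex.ofReal_sum]
      refine sum_congr rfl fun n hn => ?_
      rw [mem_Icc] at hn
      unfold exI
      have h5 : ((1 : ℕ) : ℤ) * n + 0 + ((h : ℕ) : ℤ) = ((n + h : ℕ) : ℤ) := by
        push_cast
        ring
      rw [h5, if_pos (by exact_mod_cast (by omega : 1 ≤ n + h)), Int.toNat_natCast]
      have b1 : ∀ m : ℕ, ((lam m : ℤ) : ℂ) = ((lamI (m : ℤ) : ℝ) : ℂ) := fun m => by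
        unfold lam lamI
        rw [Int.natAbs_natCast]
        push_cast
        rfl
      rw [hg]
      by_cases hd : (A : ℤ) ∣ (n : ℤ) - r
      · rw [if_pos hd, if_pos hd]
        show ((lam n : ℤ) : ℂ) * ((lam (n + h) : ℤ) : ℂ) = _
        rw [b1, b1]
        push_cast
        rfl
      · rw [if_neg hd, if_neg hd]
        simp
    have h3' : ‖∑ n ∈ Icc 1 X, g n * exI (fun n => ((lam n : ℤ) : ℂ))
        (((1 : ℕ) : ℤ) * n + 0 + ((h : ℕ) : ℤ))‖ ≤ δ * X := h3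
    rw [e1, Complex.norm_real, Real.norm_eq_abs] at h3'
    exact h3'
  obtain ⟨G, hG⟩ : ∃ G : ℕ → Prop, ∀ h, G h ↔ Sm (fun n => ((lam n : ℤ) : ℂ)) 1 1 X δ
      (fun _ => 1) (fun _ => 0) (fun _ n => g n) ((h : ℕ) : ℤ) := ⟨_, fun _ => Iff.rfl⟩
  have h2' : (((Icc 1 H).filter (fun h => ¬ G h)).card : ℝ) ≤ δ * H := by
    refine le_trans (le_of_eq ?_) h2
    congr 2
    refine filter_congr fun h _ => ?_
    rw [hG]
  have hx0 : (0 : ℝ) ≤ X := Nat.cast_nonneg _
  have hpt : ∀ h ∈ Icc 1 H, |TTA A r x h| ≤ δ * X + X * (if ¬ G h then (1 : ℝ) else 0) := by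
    intro h hh
    by_cases hS : G h
    · rw [if_neg (not_not.2 hS), mul_zero, add_zero]
      exact hgood h hh ((hG h).1 hS)
    · rw [if_pos hS, mul_one]
      have := TTA_le A r x h
      have e : (X : ℝ) = A * x := by rw [hX]; push_cast; ring
      rw [e]
      have : 0 ≤ δ * (A * x : ℝ) := by positivity
      linarith
  refine (sum_le_sum hpt).trans ?_
  rw [sum_add_distrib, sum_const, ← mul_sum, sum_boole, Nat.card_Icc, nsmul_eq_mul, Nat.add_sub_cancel]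
  have h9 := mul_le_mul_of_nonneg_left h2' hx0
  have e : (X : ℝ) = A * x := by rw [hX]; push_cast; ring
  have e2 : ε * ((H : ℝ) * x) = H * (δ * X) + X * (δ * H) := by
    rw [hδ, e]
    field_simp
    ring
  rw [e2]
  linarith

/-- the sum over the cluster of the two-point correlations at the shifts `i Q τ` -/
lemma steps {A J Q : ℕ} (hA : 1 ≤ A) (hJ : 1 ≤ J) (hQ : 1 ≤ Q) {η : ℝ} (hη : 0 < η) :
    ∃ H₀ : ℕ, ∀ H x : ℕ, H₀ ≤ H → J * (Q * H) ≤ x →
    ∑ τ ∈ Icc (1 : ℤ) H, ∑ i ∈ Icc 1 J, ∑ r ∈ range A, |TTA A r x (i * (Q * τ))| ≤ η * (x * H) := by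
  have hAr : (1 : ℝ) ≤ A := by exact_mod_cast hA
  have hJr : (1 : ℝ) ≤ J := by exact_mod_cast hJ
  have hQr : (1 : ℝ) ≤ Q := by exact_mod_cast hQ
  obtain ⟨H₀, hH₀⟩ := TTA_avg hA (ε := η / (J * (A * (J * Q)))) (by positivity)
  refine ⟨H₀, fun H x hH hx => ?_⟩
  have hge : H ≤ J * (Q * H) := by
    calc H = 1 * (1 * H) := by ring
      _ ≤ J * (Q * H) := by gcongr
  have hxA : J * (Q * H) ≤ A * x := hx.trans (Nat.le_mul_of_pos_left _ hA)
  have h1 := hH₀ (J * (Q * H)) x (hH.trans hge) hxA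
  rw [sum_comm]
  have h2 : ∀ i ∈ Icc 1 J, ∑ τ ∈ Icc (1 : ℤ) H, ∑ r ∈ range A, |TTA A r x (i * (Q * τ))| ≤
      A * (η / (J * (A * (J * Q))) * ((J * (Q * H) : ℕ) * x)) := by
    intro i hi
    rw [mem_Icc] at hi
    rw [sum_comm]
    have h3 : ∀ r ∈ range A, ∑ τ ∈ Icc (1 : ℤ) H, |TTA A r x (i * (Q * τ))| ≤
        η / (J * (A * (J * Q))) * ((J * (Q * H) : ℕ) * x) := by
      intro r _
      refine le_trans ?_ (h1 r)
      rw [sum_cast (fun τ => |TTA A r x (i * (Q * τ))|)]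
      have hpos : 0 < i * Q := Nat.mul_pos hi.1 hQ
      have h3 : ∑ t ∈ Icc 1 H, |TTA A r x (i * (Q * (t : ℤ)))| =
          ∑ h ∈ (Icc 1 H).image (fun t => i * Q * t), |TTA A r x h| := by
        rw [sum_image]
        · refine sum_congr rfl fun t _ => ?_
          congr 2
          push_cast
          ring
        · intro a _ b _ hab
          exact Nat.eq_of_mul_eq_mul_left hpos hab
      rw [h3]
      refine sum_le_sum_of_subset_of_nonneg ?_ fun _ _ _ => abs_nonneg _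
      intro h hh
      rw [mem_image] at hh
      obtain ⟨t, ht, rfl⟩ := hh
      rw [mem_Icc] at ht ⊢
      refine ⟨Nat.mul_pos hpos ht.1, ?_⟩
      calc i * Q * t ≤ J * Q * H := by
            gcongr
            · exact hi.2
            · exact ht.2
        _ = J * (Q * H) := by ring
    refine (sum_le_sum h3).trans ?_
    rw [sum_const, card_range, nsmul_eq_mul]
  refine (sum_le_sum h2).trans ?_
  rw [sum_const, Nat.card_Icc, nsmul_eq_mul, Nat.add_sub_cancel]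
  push_cast
  refine le_of_eq ?_
  field_simp

open Classical in
/-- **Clusters.** If no bad dilate has a cluster of dilates with nearly the same correlation, whose
step has small two-point correlations, then there are few bad dilates. -/
theorem cluster {k t : ℕ} (hk : 0 < k) (a b : Fin k → ℤ) (ha : ∀ i, 0 < a i) (α β : Fin t → ℤ)
    (hα : ∀ j, α j ≠ 0) (hαβ : ∀ j j', j ≠ j' → α j * β j' ≠ α j' * β j) (A V : ℕ) (hA : 1 ≤ A)
    (hV : 1 ≤ V) {κ η ε : ℝ} (hκ : 0 < κ) (hη : 0 < η) (hε : 0 < ε) :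
    ∃ K : ℕ, ∀ D x : ℕ, K ≤ D → K * D ≤ x → ∀ P : ℤ → Prop,
      (∀ d ∈ Icc (1 : ℤ) D, P d → ¬ ∃ e s : ℤ, 0 < e ∧ e ≤ 2 * D ∧ 0 < s ∧ s ≤ D ∧ (A : ℤ) ∣ s ∧
        (∀ c : ℤ, |c| ≤ V → |CG a b x (e + c * s) - CG a b x d| ≤ κ * x) ∧
        (∀ i ∈ Icc 1 V, ∀ r : ℤ, |TTA A r x (i * s)| ≤ η * x)) →
      ∑ d ∈ Icc (1 : ℤ) D, wt α β d * (if P d then 1 else 0) ≤ ε * D := by
  have hVr : (1 : ℝ) ≤ V := by exact_mod_cast hV
  have hAr : (1 : ℝ) ≤ A := by exact_mod_cast hA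
  obtain ⟨ε₁, hε₁⟩ : ∃ ε₁ : ℝ, ε₁ = ε * (κ / 4) / (2 * V + 1) := ⟨_, rfl⟩
  have hε₁0 : 0 < ε₁ := by rw [hε₁]; positivity
  obtain ⟨Q₀, δ, K₁, hQ₀, hδ, hnear⟩ := closeW hk a b ha α β hα hαβ hε₁0
  obtain ⟨Q, hQd⟩ : ∃ Q : ℕ, Q = Q₀ * A := ⟨_, rfl⟩
  have hQ : 1 ≤ Q := by rw [hQd]; exact Nat.mul_pos hQ₀ hA
  obtain ⟨H₀, hsteps⟩ := steps (A := A) (J := V) (Q := Q) hA hV hQ (η := η / 4) (by positivity)
  have hQr : (1 : ℝ) ≤ Q := by exact_mod_cast hQ
  obtain ⟨δ', hδ'⟩ : ∃ δ' : ℝ, δ' = min δ 1 / 2 := ⟨_, rfl⟩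
  have hδ'0 : 0 < δ' := by
    rw [hδ']
    have : 0 < min δ 1 := lt_min hδ one_pos
    positivity
  have hδ'1 : 2 * δ' ≤ δ := by
    rw [hδ']
    have := min_le_left δ 1
    linarith
  have hδ'2 : 2 * δ' ≤ 1 := by
    rw [hδ']
    have := min_le_right δ 1
    linarith
  obtain ⟨K₃, hK₃⟩ := exists_nat_ge ((H₀ + 1) * (Q * V) / δ')
  refine ⟨K₁ + K₃ + V + 1, ?_⟩
  intro D x hD hDx P hP
  have hD0 : 0 < D := by omega
  have hDr : (0 : ℝ) < D := by exact_mod_cast hD0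
  have hDx' : D ≤ x := le_trans (Nat.le_mul_of_pos_left _ (by omega)) hDx
  have hx0 : 0 < x := by omega
  have hxr : (0 : ℝ) < x := by exact_mod_cast hx0
  obtain ⟨H, hH⟩ : ∃ H : ℕ, H = ⌊δ' * D / (Q * V)⌋₊ := ⟨_, rfl⟩
  have hHW : H₀ + 1 ≤ H := by
    rw [hH]
    apply Nat.le_floor
    rw [le_div_iff₀ (by positivity)]
    rw [div_le_iff₀ hδ'0] at hK₃
    have h1 : (K₃ : ℝ) ≤ D := by exact_mod_cast (by omega : K₃ ≤ D)
    have h2 : (K₃ : ℝ) * δ' ≤ D * δ' := mul_le_mul_of_nonneg_right h1 hδ'0.le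
    push_cast
    linarith
  have hHδ : (Q : ℝ) * (V * H) ≤ δ' * D := by
    have h1 : (H : ℝ) ≤ δ' * D / (Q * V) := by
      rw [hH]
      exact Nat.floor_le (by positivity)
    rw [le_div_iff₀ (by positivity)] at h1
    linarith
  have hHr : (0 : ℝ) < H := by exact_mod_cast (by omega : 0 < H)
  have hQVH : 2 * (Q * (V * H)) ≤ D := by
    have h1 : 2 * ((Q : ℝ) * (V * H)) ≤ D := by nlinarith
    exact_mod_cast h1
  have hQH : Q * H ≤ D := by
    have : Q * H ≤ Q * (V * H) := Nat.mul_le_mul_left _ (Nat.le_mul_of_pos_left _ (by omega))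
    omega
  have hst := hsteps H x (by omega) (by
    calc V * (Q * H) ≤ V * D := Nat.mul_le_mul_left _ hQH
      _ ≤ (K₁ + K₃ + V + 1) * D := Nat.mul_le_mul_right _ (by omega)
      _ ≤ x := hDx)
  obtain ⟨N, hN⟩ : ∃ N : ℤ → ℝ, ∀ d, N d = ∑ τ ∈ Icc (1 : ℤ) H, ∑ c ∈ Icc (-(V : ℤ)) V,
      |CG a b x (d + Q * (V * H + c * τ)) - CG a b x d| := ⟨_, fun _ => rfl⟩
  have hN0 : ∀ d, 0 ≤ N d := fun d => by
    rw [hN]; exact sum_nonneg fun _ _ => sum_nonneg fun _ _ => abs_nonneg _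
  obtain ⟨B, hB⟩ : ∃ B : ℝ, B = κ / 4 * (x * H) := ⟨_, rfl⟩
  have hB0 : 0 < B := by rw [hB]; positivity
  have hcardH : (Icc (1 : ℤ) H).card = H := by rw [Int.card_Icc]; simp
  have hpt : ∀ d ∈ Icc (1 : ℤ) D, wt α β d * (if P d then 1 else 0) ≤ 1 / B * (wt α β d * N d) := by
    intro d hd
    have hw := wt_nonneg α β d
    by_cases hPd : P d
    · rw [if_pos hPd, mul_one]
      by_cases h2 : N d ≤ B
      · exfalso
        apply hP d hd hPd
        rw [mem_Icc] at hd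
        -- choose the step
        obtain ⟨τ, hτ, hτ1⟩ : ∃ τ ∈ Icc (1 : ℤ) H,
            1 / (κ * x) * ∑ c ∈ Icc (-(V : ℤ)) V, |CG a b x (d + Q * (V * H + c * τ)) - CG a b x d| +
            1 / (η * x) * ∑ i ∈ Icc 1 V, ∑ r ∈ range A, |TTA A r x (i * (Q * τ))| ≤ 1 := by
          by_contra hcon
          push Not at hcon
          have h3 : ∑ τ ∈ Icc (1 : ℤ) H, (1 : ℝ) < ∑ τ ∈ Icc (1 : ℤ) H,
              (1 / (κ * x) * ∑ c ∈ Icc (-(V : ℤ)) V, |CG a b x (d + Q * (V * H + c * τ)) - CG a b x d| +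
              1 / (η * x) * ∑ i ∈ Icc 1 V, ∑ r ∈ range A, |TTA A r x (i * (Q * τ))|) := by
            apply sum_lt_sum_of_nonempty
            · rw [← Finset.card_pos, hcardH]
              omega
            · exact hcon
          rw [sum_const, hcardH, nsmul_eq_mul, mul_one, sum_add_distrib, ← mul_sum, ← mul_sum, ← hN] at h3
          have h4 : 1 / (κ * x) * N d ≤ H / 4 := by
            rw [one_div_mul_eq_div, div_le_iff₀ (by positivity)]
            rw [hB] at h2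
            linarith
          have h5 : 1 / (η * x) * ∑ τ ∈ Icc (1 : ℤ) H, ∑ i ∈ Icc 1 V, ∑ r ∈ range A,
              |TTA A r x (i * (Q * τ))| ≤ H / 4 := by
            rw [one_div_mul_eq_div, div_le_iff₀ (by positivity)]
            linarith
          linarith
        rw [mem_Icc] at hτ
        have hs1 : 0 ≤ ∑ c ∈ Icc (-(V : ℤ)) V, |CG a b x (d + Q * (V * H + c * τ)) - CG a b x d| :=
          sum_nonneg fun _ _ => abs_nonneg _
        have hs2 : 0 ≤ ∑ i ∈ Icc 1 V, ∑ r ∈ range A, |TTA A r x (i * (Q * τ))| :=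
          sum_nonneg fun _ _ => sum_nonneg fun _ _ => abs_nonneg _
        have hp1 : 0 < 1 / (κ * (x : ℝ)) := by positivity
        have hp2 : 0 < 1 / (η * (x : ℝ)) := by positivity
        have hs3 : ∑ c ∈ Icc (-(V : ℤ)) V, |CG a b x (d + Q * (V * H + c * τ)) - CG a b x d| ≤ κ * x := by
          have h6 : 1 / (κ * x) * ∑ c ∈ Icc (-(V : ℤ)) V,
              |CG a b x (d + Q * (V * H + c * τ)) - CG a b x d| ≤ 1 := by
            have := mul_nonneg hp2.le hs2
            linarith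
          rwa [one_div_mul_eq_div, div_le_one (by positivity)] at h6
        have hs4 : ∑ i ∈ Icc 1 V, ∑ r ∈ range A, |TTA A r x (i * (Q * τ))| ≤ η * x := by
          have h6 : 1 / (η * x) * ∑ i ∈ Icc 1 V, ∑ r ∈ range A, |TTA A r x (i * (Q * τ))| ≤ 1 := by
            have := mul_nonneg hp1.le hs1
            linarith
          rwa [one_div_mul_eq_div, div_le_one (by positivity)] at h6
        have hQZ : (1 : ℤ) ≤ Q := by exact_mod_cast hQ
        have hVZ : (1 : ℤ) ≤ V := by exact_mod_cast hV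
        have hHZ : (0 : ℤ) ≤ H := by positivity
        have hQVHZ : 2 * ((Q : ℤ) * (V * H)) ≤ D := by exact_mod_cast hQVH
        have hQHZ : (Q : ℤ) * H ≤ D := by exact_mod_cast hQH
        have hQVH0 : (0 : ℤ) ≤ (Q : ℤ) * (V * H) := by positivity
        refine ⟨d + Q * (V * H), Q * τ, by linarith, by linarith, by nlinarith, ?_, ?_, ?_, ?_⟩
        · have : (Q : ℤ) * τ ≤ Q * H := mul_le_mul_of_nonneg_left hτ.2 (by omega)
          linarith
        · rw [hQd]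
          push_cast
          exact Dvd.dvd.mul_right (Dvd.intro_left _ rfl) _
        · intro c hc
          have h7 : c ∈ Icc (-(V : ℤ)) V := by
            rw [mem_Icc]
            exact abs_le.1 hc
          have h8 := single_le_sum (f := fun c : ℤ => |CG a b x (d + Q * (V * H + c * τ)) - CG a b x d|)
            (fun _ _ => abs_nonneg _) h7
          have e : d + Q * (V * H) + c * (Q * τ) = d + Q * (V * H + c * τ) := by ring
          rw [e]
          exact h8.trans hs3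
        · intro i hi r
          have hAZ : (0 : ℤ) < A := by exact_mod_cast hA
          have h9 : TTA A r x (i * (Q * τ)) = TTA A ((r % A).toNat : ℤ) x (i * (Q * τ)) := by
            apply TTA_congr
            rw [Int.toNat_of_nonneg (Int.emod_nonneg _ hAZ.ne')]
            exact Int.dvd_self_sub_emod
          rw [h9]
          have h10 : (r % A).toNat ∈ range A := by
            rw [mem_range]
            have := Int.emod_lt_of_pos r hAZ
            have := Int.emod_nonneg r hAZ.ne'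
            omega
          have h11 := single_le_sum (f := fun r : ℕ => |TTA A r x (i * (Q * τ))|)
            (fun _ _ => abs_nonneg _) h10
          have h12 := single_le_sum (f := fun i : ℕ => ∑ r ∈ range A, |TTA A r x (i * (Q * τ))|)
            (fun _ _ => sum_nonneg fun _ _ => abs_nonneg _) hi
          exact h11.trans (h12.trans hs4)
      · rw [one_div_mul_eq_div, le_div_iff₀ hB0]
        exact mul_le_mul_of_nonneg_left (not_le.1 h2).le hw
    · rw [if_neg hPd, mul_zero]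
      have := hN0 d
      positivity
  refine (sum_le_sum hpt).trans ?_
  rw [← mul_sum]
  have hm : ∀ c ∈ Icc (-(V : ℤ)) V, ∀ τ ∈ Icc (1 : ℤ) H, ∃ m : ℕ, (V : ℤ) * H + c * τ = m ∧
      m ≤ 2 * (V * H) := by
    intro c hc τ hτ
    rw [mem_Icc] at hc hτ
    have hcτ1 : -((V : ℤ) * H) ≤ c * τ := by nlinarith
    have hcτ2 : c * τ ≤ (V : ℤ) * H := by nlinarith
    refine ⟨((V : ℤ) * H + c * τ).toNat, by omega, ?_⟩
    have h3 : (((V : ℤ) * H + c * τ).toNat : ℤ) ≤ 2 * (V * H) := by omega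
    exact_mod_cast h3
  have n2 : ((V : ℤ) + 1 - -(V : ℤ)).toNat = 2 * V + 1 := by omega
  have b2 : ∑ d ∈ Icc (1 : ℤ) D, wt α β d * N d ≤ H * ((2 * V + 1) * (ε₁ * (D * x))) := by
    have h10 : ∑ d ∈ Icc (1 : ℤ) D, wt α β d * N d = ∑ τ ∈ Icc (1 : ℤ) H, ∑ c ∈ Icc (-(V : ℤ)) V,
        ∑ d ∈ Icc (1 : ℤ) D, wt α β d * |CG a b x (d + Q * (V * H + c * τ)) - CG a b x d| := by
      simp_rw [hN, mul_sum]
      rw [sum_comm]
      refine sum_congr rfl fun τ _ => ?_
      rw [sum_comm]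
    rw [h10]
    have h11 : ∀ τ ∈ Icc (1 : ℤ) H, ∀ c ∈ Icc (-(V : ℤ)) V, ∑ d ∈ Icc (1 : ℤ) D, wt α β d *
        |CG a b x (d + Q * (V * H + c * τ)) - CG a b x d| ≤ ε₁ * (D * x) := by
      intro τ hτ c hc
      obtain ⟨m, hm1, hm2⟩ := hm c hc τ hτ
      rw [hm1]
      have h1 := hnear D x (by omega) hDx' (A * m) (by
        have h2 : (m : ℝ) ≤ 2 * (V * H) := by exact_mod_cast hm2
        have e : ((Q₀ * (A * m) : ℕ) : ℝ) = Q * m := by
          rw [hQd]
          push_cast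
          ring
        rw [e]
        have i1 : (Q : ℝ) * m ≤ Q * (2 * (V * H)) := mul_le_mul_of_nonneg_left h2 (by linarith)
        have i2 : 2 * δ' * D ≤ δ * D := mul_le_mul_of_nonneg_right hδ'1 hDr.le
        linarith)
      refine le_trans (le_of_eq ?_) h1
      refine sum_congr rfl fun d _ => ?_
      have e : ((Q₀ * (A * m) : ℕ) : ℤ) = Q * m := by
        rw [hQd]
        push_cast
        ring
      rw [e]
    refine (sum_le_sum fun τ hτ => sum_le_sum fun c hc => h11 τ hτ c hc).trans (le_of_eq ?_)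
    rw [sum_const, sum_const, hcardH, Int.card_Icc, n2, nsmul_eq_mul, nsmul_eq_mul]
    push_cast
    rfl
  calc 1 / B * ∑ d ∈ Icc (1 : ℤ) D, wt α β d * N d ≤ 1 / B * (H * ((2 * V + 1) * (ε₁ * (D * x)))) :=
        mul_le_mul_of_nonneg_left b2 (by positivity)
    _ = ε * D := by
        rw [hB, hε₁]
        field_simp

end Pool.Agent.Helper81.Ev
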