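import Pool.Agent.Helper81.Ev.Fmean
import Pool.Agent.Helper81.Ev.Two

/-!
Every scale, almost all dilates of a set of shifts.
-/

set_option autoImplicit false

namespace Pool.Agent.Helper81.Ev

open Finset
open Pool.Agent.Helper33.Half (lamI lamI_sg Sg TT shift_int two_shift)

/-- the Liouville function on the integers, with integer values -/
def lzI (m : ℤ) : ℤ := (-1 : ℤ) ^ ArithmeticFunction.cardFactors m.natAbs

lemma lzI_pm (m : ℤ) : lzI m = 1 ∨ lzI m = -1 := neg_one_pow_eq_or ℤ _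

lemma lzI_cast (m : ℤ) : ((lzI m : ℤ) : ℝ) = lamI m := by
  unfold lzI lamI
  push_cast
  rfl

lemma TTA_one (r : ℤ) (x : ℕ) (h : ℤ) : TTA 1 r x h = TT lamI x h := by
  unfold TTA TT
  rw [one_mul]
  refine sum_congr rfl fun m _ => ?_
  rw [if_pos (by simp)]

lemma card_Icc_x (x : ℕ) : ((Icc (1 : ℤ) x).card : ℝ) = x := by
  rw [Int.card_Icc]
  simp

/-- the two-point hypothesis -/
lemma two_UF {V : ℕ} {x D : ℕ} {η : ℝ} {e s : ℤ} (he0 : 0 < e) (he : e ≤ 2 * D) (hs0 : 0 < s) (hs : s ≤ D)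
    (hx : 12 * (V : ℝ) * D ≤ η * x)
    (htwo : ∀ i ∈ Icc 1 (2 * V), ∀ r : ℤ, |TTA 1 r x (i * s)| ≤ η / 2 * x) (z y y' : ℤ) (hz : |z| ≤ V)
    (hy : |y| ≤ V) (hy' : |y'| ≤ V) (hne : y ≠ y') :
    UF (Icc (1 : ℤ) x) (fun n => ((lzI (n + (e * z + s * y)) * lzI (n + (e * z + s * y')) : ℤ) : ℝ)) η := by
  have key : ∀ y y' : ℤ, |y| ≤ V → |y'| ≤ V → y < y' →
      ∑ n ∈ Icc (1 : ℤ) x, ((lzI (n + (e * z + s * y)) * lzI (n + (e * z + s * y')) : ℤ) : ℝ) ≤ η * x := by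
    intro y y' hy hy' hlt
    obtain ⟨i, hi⟩ : ∃ i : ℕ, y' = y + i := ⟨(y' - y).toNat, by omega⟩
    have hi1 : i ∈ Icc 1 (2 * V) := by
      rw [mem_Icc]
      have h1 := abs_le.1 hy
      have h2 := abs_le.1 hy'
      omega
    have h1 := two_shift lamI_sg x (e * z + s * y) (i * s)
    have h2 := htwo i hi1 0
    rw [TTA_one] at h2
    have h3 : ∑ n ∈ Icc (1 : ℤ) x, ((lzI (n + (e * z + s * y)) * lzI (n + (e * z + s * y')) : ℤ) : ℝ) =
        ∑ m ∈ Icc (1 : ℤ) x, lamI (m + (e * z + s * y)) * lamI (m + (e * z + s * y) + i * s) := by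
      refine sum_congr rfl fun n _ => ?_
      push_cast
      rw [lzI_cast, lzI_cast, hi]
      congr 2
      ring
    rw [h3]
    have h4 : |((e * z + s * y : ℤ) : ℝ)| ≤ 3 * V * D := by
      have h5 : |e * z + s * y| ≤ 3 * V * D := by
        refine (abs_add_le _ _).trans ?_
        rw [abs_mul, abs_mul, abs_of_pos he0, abs_of_pos hs0]
        have h6 : e * |z| ≤ 2 * D * V := mul_le_mul he hz (abs_nonneg _) (by positivity)
        have h7 : s * |y| ≤ D * V := mul_le_mul hs hy (abs_nonneg _) (by positivity)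
        linarith
      rw [← Int.cast_abs]
      exact_mod_cast h5
    have h5 := le_abs_self (∑ m ∈ Icc (1 : ℤ) x, lamI (m + (e * z + s * y)) *
      lamI (m + (e * z + s * y) + i * s))
    linarith
  unfold UF
  rw [card_Icc_x]
  rcases lt_or_gt_of_ne hne with h | h
  · exact key y y' hy hy' h
  · refine le_trans (le_of_eq ?_) (key y' y hy' hy h)
    refine sum_congr rfl fun n _ => ?_
    beta_reduce
    rw [mul_comm (lzI (n + (e * z + s * y)))]

open Classical in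
/-- the number of wrong products and the correlation -/
lemma wrong_sum {k : ℕ} (f : ℤ → Fin k → ℤ) (x : ℕ) (σ : ℤ) (hσ : σ = 1 ∨ σ = -1) :
    ∑ n ∈ Icc (1 : ℤ) x, (if ∏ j, lzI (f n j) ≠ σ then (1 : ℝ) else 0) =
      (x - σ * ∑ n ∈ Icc (1 : ℤ) x, ∏ j, lamI (f n j)) / 2 := by
  have h1 : ∀ n ∈ Icc (1 : ℤ) x, (if ∏ j, lzI (f n j) ≠ σ then (1 : ℝ) else 0) =
      (1 - σ * ∏ j, lamI (f n j)) / 2 := by
    intro n _
    have h2 : ∏ j, lamI (f n j) = ((∏ j, lzI (f n j) : ℤ) : ℝ) := by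
      push_cast
      exact prod_congr rfl fun j _ => (lzI_cast _).symm
    rw [h2]
    rcases Pool.Agent.Helper81.Gap.prod_pm univ (fun j => lzI (f n j)) (fun j => lzI_pm _) with h | h <;>
      rcases hσ with rfl | rfl <;> rw [h] <;> norm_num
  rw [sum_congr rfl h1, ← sum_div, sum_sub_distrib, ← mul_sum, sum_const, nsmul_eq_mul, mul_one,
    card_Icc_x]

/-- no cluster at a bad dilate -/
lemma contra {k : ℕ} (hk : 2 ≤ k) (h : Fin k → ℤ) (hh : Function.Injective h) {ε : ℝ} (hε : 0 < ε) :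
    ∃ (V : ℕ) (η : ℝ) (K : ℕ), 1 ≤ V ∧ 0 < η ∧ ∀ D x : ℕ, K ≤ D → K * D ≤ x → ∀ σ : ℤ,
      (σ = 1 ∨ σ = -1) → ∀ d : ℤ,
      (1 - 2 / (2 * (k : ℝ) ^ 2 - k + 3) + ε) * x < σ * CG (fun _ => 1) h x d →
      ¬ ∃ e s : ℤ, 0 < e ∧ e ≤ 2 * D ∧ 0 < s ∧ s ≤ D ∧ ((1 : ℕ) : ℤ) ∣ s ∧
        (∀ c : ℤ, |c| ≤ V → |CG (fun _ => 1) h x (e + c * s) - CG (fun _ => 1) h x d| ≤ ε / 8 * x) ∧
        (∀ i ∈ Icc 1 V, ∀ r : ℤ, |TTA 1 r x (i * s)| ≤ η * x) := by
  classical
  have hk2 : (2 : ℝ) ≤ k := by exact_mod_cast hk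
  obtain ⟨g, hg⟩ : ∃ g : ℝ, g = 2 * (k : ℝ) ^ 2 - k + 3 := ⟨_, rfl⟩
  have hg0 : 0 < g := by rw [hg]; nlinarith
  obtain ⟨V, η, hV, hη, hrs⟩ := rs_fin k h hh ⟨0, by omega⟩ (ε * g / 4) (by positivity)
  have hVr : (1 : ℝ) ≤ V := by exact_mod_cast hV
  obtain ⟨K₀, hK₀⟩ := exists_nat_ge (48 * V / ε + 12 * V / η)
  refine ⟨2 * V, η / 2, K₀ + 1, by omega, by positivity, ?_⟩
  rintro D x hD hDx σ hσ d hbad ⟨e, s, he0, he, hs0, hs, -, hcl, htwo⟩
  have hD0 : 0 < D := by omega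
  have hDr : (0 : ℝ) < D := by exact_mod_cast hD0
  have hx0 : 0 < x := by
    have : 0 < (K₀ + 1) * D := by positivity
    omega
  have hxr : (0 : ℝ) < x := by exact_mod_cast hx0
  have hxD : (K₀ : ℝ) * D ≤ x := by
    have h1 : K₀ * D ≤ x := le_trans (Nat.mul_le_mul_right _ (by omega)) hDx
    exact_mod_cast h1
  have hb1 : 48 * (V : ℝ) * D ≤ ε * x := by
    have h1 : 48 * V / ε ≤ K₀ := by
      have : (0 : ℝ) ≤ 12 * V / η := by positivity
      linarith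
    rw [div_le_iff₀ hε] at h1
    nlinarith
  have hb2 : 12 * (V : ℝ) * D ≤ η * x := by
    have h1 : 12 * V / η ≤ K₀ := by
      have : (0 : ℝ) ≤ 48 * V / ε := by positivity
      linarith
    rw [div_le_iff₀ hη] at h1
    nlinarith
  have hrel : Rel h (fun z y n => lzI (n + (e * z + s * y))) σ (Icc (1 : ℤ) x) V
      (1 / g - ε / 2 + ε / 8) := by
    intro u v c hu hv hc
    unfold UF
    have h1 := wrong_sum (fun n j => n + (e * (u + h j) + s * (v + c * h j))) x σ hσ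
    rw [card_Icc_x]
    refine le_trans (le_of_eq h1) ?_
    -- shift
    have h2 := shift_int (f := fun n => ∏ j, lamI (n + h j * (e + c * s))) (fun n => by
      rcases prod_lamI (fun j => n + h j * (e + c * s)) with h' | h' <;> rw [h'] <;> norm_num) x
      (e * u + s * v)
    have h3 : ∑ n ∈ Icc (1 : ℤ) x, ∏ j, lamI (n + (e * u + s * v) + h j * (e + c * s)) =
        ∑ n ∈ Icc (1 : ℤ) x, ∏ j, lamI (n + (e * (u + h j) + s * (v + c * h j))) := by
      refine sum_congr rfl fun n _ => prod_congr rfl fun j _ => ?_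
      congr 1
      ring
    have h4 : ∑ n ∈ Icc (1 : ℤ) x, ∏ j, lamI (n + h j * (e + c * s)) =
        CG (fun _ => 1) h x (e + c * s) := by
      unfold CG
      refine sum_congr rfl fun n _ => prod_congr rfl fun j _ => ?_
      congr 1
      ring
    beta_reduce at h2
    rw [h3, h4] at h2
    have h5 : |((e * u + s * v : ℤ) : ℝ)| ≤ 3 * V * D := by
      have h5 : |e * u + s * v| ≤ 3 * V * D := by
        refine (abs_add_le _ _).trans ?_
        rw [abs_mul, abs_mul, abs_of_pos he0, abs_of_pos hs0]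
        have h6 : e * |u| ≤ 2 * D * V := mul_le_mul he hu (abs_nonneg _) (by positivity)
        have h7 : s * |v| ≤ D * V := mul_le_mul hs hv (abs_nonneg _) (by positivity)
        linarith
      rw [← Int.cast_abs]
      exact_mod_cast h5
    have h6 := hcl c (hc.trans (by push_cast; linarith [abs_nonneg c]))
    have h7 := abs_le.1 h2
    have h8 := abs_le.1 h6
    have h9 : (1 - 2 / g + ε) * x - ε / 8 * x - 6 * V * D ≤
        σ * ∑ n ∈ Icc (1 : ℤ) x, ∏ j, lamI (n + (e * (u + h j) + s * (v + c * h j))) := by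
      rw [← hg] at hbad
      rcases hσ with rfl | rfl
      · push_cast at hbad ⊢
        linarith [h7.1, h8.1]
      · push_cast at hbad ⊢
        linarith [h7.2, h8.2]
    have h10 : (1 - 2 / g + ε) * (x : ℝ) = x - 2 * (1 / g) * x + ε * x := by ring
    rw [h10] at h9
    linarith
  have hfin := hrs ℤ (Icc (1 : ℤ) x) (fun z y n => lzI (n + (e * z + s * y))) σ (1 / g - ε / 2 + ε / 8)
    ⟨1, by rw [mem_Icc]; exact ⟨le_rfl, by exact_mod_cast hx0⟩⟩ (fun _ _ _ => lzI_pm _) hσ hrel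
    (fun z y y' hz hy hy' hne => two_UF he0 he hs0 hs hb2 htwo z y y' hz hy hy' hne)
  rw [← hg] at hfin
  have e1 : g * (1 / g - ε / 2 + ε / 8) = 1 - 3 * (ε * g) / 8 := by
    field_simp
    ring
  rw [e1] at hfin
  have : 0 < ε * g := by positivity
  linarith

open Classical in
/-- **Every scale, almost all dilates.** -/
theorem shiftW {k t : ℕ} (hk : 2 ≤ k) (h : Fin k → ℤ) (hh : Function.Injective h) (α β : Fin t → ℤ)
    (hα : ∀ j, α j ≠ 0) (hαβ : ∀ j j', j ≠ j' → α j * β j' ≠ α j' * β j) {ε : ℝ} (hε : 0 < ε) :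
    ∃ K : ℕ, ∀ D x : ℕ, K ≤ D → K * D ≤ x →
      ∑ d ∈ Icc (1 : ℤ) D, wt α β d *
        (if (1 - 2 / (2 * (k : ℝ) ^ 2 - k + 3) + ε) * x < |CG (fun _ => 1) h x d| then 1 else 0) ≤ ε * D := by
  obtain ⟨V, η, K₁, hV, hη, hcon⟩ := contra hk h hh hε
  obtain ⟨K₂, hcl⟩ := cluster (by omega : 0 < k) (fun _ => 1) h (fun _ => one_pos) α β hα hαβ 1 V le_rfl hV
    (κ := ε / 8) (η := η) (ε := ε / 2) (by positivity) hη (by positivity)
  refine ⟨K₁ + K₂, fun D x hD hDx => ?_⟩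
  have hx1 : K₁ * D ≤ x := le_trans (Nat.mul_le_mul_right _ (by omega)) hDx
  have hx2 : K₂ * D ≤ x := le_trans (Nat.mul_le_mul_right _ (by omega)) hDx
  have hσ : ∀ σ : ℤ, (σ = 1 ∨ σ = -1) → ∑ d ∈ Icc (1 : ℤ) D, wt α β d *
      (if (1 - 2 / (2 * (k : ℝ) ^ 2 - k + 3) + ε) * x < σ * CG (fun _ => 1) h x d then 1 else 0) ≤
      ε / 2 * D := by
    intro σ hσ
    exact hcl D x (by omega) hx2 (fun d => (1 - 2 / (2 * (k : ℝ) ^ 2 - k + 3) + ε) * x <
      σ * CG (fun _ => 1) h x d) (fun d _ hd => hcon D x (by omega) hx1 σ hσ d hd)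
  have h1 := hσ 1 (Or.inl rfl)
  have h2 := hσ (-1) (Or.inr rfl)
  have h3 : ∑ d ∈ Icc (1 : ℤ) D, wt α β d *
        (if (1 - 2 / (2 * (k : ℝ) ^ 2 - k + 3) + ε) * x < |CG (fun _ => 1) h x d| then 1 else 0) ≤
      ∑ d ∈ Icc (1 : ℤ) D, (wt α β d *
      (if (1 - 2 / (2 * (k : ℝ) ^ 2 - k + 3) + ε) * x < ((1 : ℤ) : ℝ) * CG (fun _ => 1) h x d then 1 else 0) +
      wt α β d * (if (1 - 2 / (2 * (k : ℝ) ^ 2 - k + 3) + ε) * x < ((-1 : ℤ) : ℝ) * CG (fun _ => 1) h x d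
        then 1 else 0)) := by
    refine sum_le_sum fun d _ => ?_
    have hw := wt_nonneg α β d
    rw [← mul_add]
    refine mul_le_mul_of_nonneg_left ?_ hw
    push_cast
    rw [one_mul, neg_one_mul]
    by_cases h4 : (1 - 2 / (2 * (k : ℝ) ^ 2 - k + 3) + ε) * x < |CG (fun _ => 1) h x d|
    · rw [if_pos h4]
      rcases lt_abs.1 h4 with h5 | h5
      · rw [if_pos h5]
        split_ifs <;> norm_num
      · rw [if_pos h5]
        split_ifs <;> norm_num
    · rw [if_neg h4]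
      split_ifs <;> norm_num
  refine h3.trans ?_
  rw [sum_add_distrib]
  linarith

end Pool.Agent.Helper81.Ev
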